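import Pool.Agent.MP_8a92de_lc.H43.MgC

namespace Pool.Agent.MP_8a92de_lc.H43.AdditiveIso

open Pool.Agent.MP_8a92de_lc.H43

theorem result (A : Type) [AddCommGroup A] (hA : ∃ e : A, ∀ n : ℕ, n ≠ 0 → n • e ≠ 0)
    (C : Set (Set (List A))) (hC : ∀ L L', NPRed L L' → L' ∈ C → L ∈ C)
    (B B' : Set (List A)) (hB : B ∈ C) (hB' : B' ∈ C) (cB : Hard C B) (cB' : Hard C B') :
    ∃ f : List A → List A, AddPT f ∧ Function.Injective f ∧ (∀ x, x ∈ B ↔ f x ∈ B') ∧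
      ((∀ n : ℕ, n ≠ 0 → ∀ a : A, ∃ b, n • b = a) →
        ∃ g : List A → List A, AddPT g ∧ (∀ x, g (f x) = x) ∧ ∀ y, f (g y) = y) :=
  let ⟨_, he⟩ := hA
  general (infOrd_of he) hC hB hB' cB cB'

end Pool.Agent.MP_8a92de_lc.H43.AdditiveIso
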