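import Mathlib
import Pool.Prelude.Def_H_3587d628

/-! Additive machines with equality tests over an abelian group, in oracle normal form. -/

namespace Pool.Agent.MP_8a92de_lc.H43

open N68a2faeb N487b59b3

/-- The value of the integer linear form `q` on the vector `z`. -/
def val {A : Type} [AddCommGroup A] (q : List ℤ) (z : List A) : A :=
  (List.zipWith (fun (c : ℤ) (a : A) => c • a) q z).sum

/-- The answers after `k` adaptive tests: each test is computed by `Q` from the earlier answers
and is answered by `R`. -/
def answers (R : List ℤ → Bool) (Q : List Bool → List ℤ) (k : ℕ) : List Bool :=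
  (fun a => a ++ [R (Q a)])^[k] []

open Classical in
/-- `f` is computed in polynomial time by an additive machine with equality tests and
constants `γ`. -/
def AddPT {A : Type} [AddCommGroup A] (f : List A → List A) : Prop :=
  ∃ (γ : List A) (p : Polynomial ℕ) (Q : List Bool × List Bool → List ℤ)
    (out : List Bool × List Bool → List (List ℤ)), IsPolyTime Q ∧ IsPolyTime out ∧
    ∀ x, f x = (out (List.replicate x.length true,
      answers (fun q => decide (val q (γ ++ x) = 0))
        (fun a => Q (List.replicate x.length true, a)) (p.eval x.length))).map
      (fun q => val q (γ ++ x))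

/-- A bit string written with the group elements `0` and `e`. -/
def code {A : Type} [AddCommGroup A] (e : A) (w : List Bool) : List A :=
  w.map (fun b => if b then e else 0)

/-- Many-one reduction with a digital polynomial-length guess. -/
def NPRed {A : Type} [AddCommGroup A] (L L' : Set (List A)) : Prop :=
  ∃ (e : A) (p : Polynomial ℕ) (g : List A → List A), AddPT g ∧
    ∀ x, x ∈ L ↔ ∃ w : List Bool, w.length = p.eval x.length ∧ g (x ++ code e w) ∈ L'

/-- `B` is hard for `C` under polynomial-time many-one reductions of the model. -/
def Hard {A : Type} [AddCommGroup A] (C : Set (Set (List A))) (B : Set (List A)) : Prop :=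
  ∀ L ∈ C, ∃ f, AddPT f ∧ ∀ x, x ∈ L ↔ f x ∈ B

/-- The class NP of the model: a polynomial-length guess of group elements, acceptance by the
empty output. -/
def NP (A : Type) [AddCommGroup A] : Set (Set (List A)) :=
  {L | ∃ (p : Polynomial ℕ) (g : List A → List A), AddPT g ∧
    ∀ x, x ∈ L ↔ ∃ w : List A, w.length = p.eval x.length ∧ g (x ++ w) = []}

/-- Digital polynomial space: reachability among bit strings of polynomial length, the edges being
decided by an additive machine that sees the input. -/
def PS (A : Type) [AddCommGroup A] : Set (Set (List A)) :=
  {L | ∃ (e : A) (p : Polynomial ℕ) (g : List A → List A), AddPT g ∧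
    ∀ x, x ∈ L ↔ Relation.ReflTransGen
      (fun c c' : List Bool => c'.length = p.eval x.length ∧ g (x ++ code e c ++ code e c') = [])
      (List.replicate (p.eval x.length) false) (List.replicate (p.eval x.length) true)}

end Pool.Agent.MP_8a92de_lc.H43
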