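import Pool.Agent.MP_8a92de_lc.H43.AdditiveIso

namespace Pool.Agent.MP_8a92de_lc.H43

open Pool.Agent.Lib.Cx Finset

variable {A : Type} [AddCommGroup A] {β γ : Type} [Enc β] [Enc γ]

open Classical in
/-- the bits read off a vector -/
noncomputable def bitsOf (z : List A) : List Bool := z.map (fun a => decide (a ≠ 0))

theorem bitsOf_code {e : A} (he : e ≠ 0) (w : List Bool) : bitsOf (code e w) = w := by
  unfold bitsOf code
  rw [List.map_map]
  conv_rhs => rw [← List.map_id w]
  refine List.map_congr_left fun b _ => ?_
  cases b <;> simp [he]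

/-- a classical value and a vector computed with the same constants -/
theorem kit_joint {c : List A → β} {f : List A → List A} (hc : AddF c) (hf : AddPT f) :
    ∃ (Γ : List A) (Φ : Orc → List Bool → β) (F : Orc → List Bool → List (List ℤ)),
      UO Φ ∧ UO F ∧ (∀ x, Φ (orc (Γ ++ x)) (un x.length) = c x) ∧
      ∀ x, vals (F (orc (Γ ++ x)) (un x.length)) (Γ ++ x) = f x := by
  obtain ⟨Γ₁, Φ₁, h1, e1⟩ := hc
  obtain ⟨Γ₂, Φ₂, h2, e2⟩ := addPT_iff.1 hf
  obtain ⟨F₁, g1, k1⟩ := extF h1 [] Γ₁ Γ₂
  obtain ⟨F₂, g2, k2⟩ := extT h2 Γ₁ Γ₂ []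
  simp only [List.nil_append, List.append_nil] at k1 k2
  exact ⟨Γ₁ ++ Γ₂, F₁, F₂, g1, g2, fun x => by rw [k1, ← e1], fun x => by rw [k2, ← e2]⟩

theorem AddPT.append {f g : List A → List A} (hf : AddPT f) (hg : AddPT g) :
    AddPT (fun x => f x ++ g x) := by
  obtain ⟨Γ₁, Φ₁, h1, e1⟩ := addPT_iff.1 hf
  obtain ⟨Γ₂, Φ₂, h2, e2⟩ := addPT_iff.1 hg
  obtain ⟨F₁, g1, k1⟩ := extT h1 [] Γ₁ Γ₂
  obtain ⟨F₂, g2, k2⟩ := extT h2 Γ₁ Γ₂ []
  simp only [List.nil_append, List.append_nil] at k1 k2
  refine addPT_iff.2 ⟨Γ₁ ++ Γ₂, _, UO.post (g := fun w : List (List ℤ) × List (List ℤ) =>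
    w.1 ++ w.2) (by fun_prop) (g1.pair g2), fun x => ?_⟩
  rw [vals_append, k1, k2, ← e1, ← e2]

theorem AddPT.take {n : List A → ℕ} {f : List A → List A} (hn : AddF n) (hf : AddPT f) :
    AddPT (fun x => (f x).take (n x)) := by
  obtain ⟨Γ, Φ, F, h1, h2, e1, e2⟩ := kit_joint hn hf
  refine addPT_iff.2 ⟨Γ, _, UO.post (g := fun w : ℕ × List (List ℤ) => w.2.take w.1)
    (by fun_prop) (h1.pair h2), fun x => ?_⟩
  rw [← e2 x, e1 x]
  unfold vals
  rw [List.map_take]

theorem AddPT.drop {n : List A → ℕ} {f : List A → List A} (hn : AddF n) (hf : AddPT f) :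
    AddPT (fun x => (f x).drop (n x)) := by
  obtain ⟨Γ, Φ, F, h1, h2, e1, e2⟩ := kit_joint hn hf
  refine addPT_iff.2 ⟨Γ, _, UO.post (g := fun w : ℕ × List (List ℤ) => w.2.drop w.1)
    (by fun_prop) (h1.pair h2), fun x => ?_⟩
  rw [← e2 x, e1 x]
  unfold vals
  rw [List.map_drop]

theorem AddF.un' : AddF (fun x : List A => un x.length) :=
  ⟨[], fun _ u => u, UO.of_pt (by fun_prop), fun _ => rfl⟩

theorem AddF.bits : AddF (fun x : List A => bitsOf x) := by
  have h : UO (fun R (u : List Bool) => (units 0 u.length).map (fun q => !R q)) :=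
    UO.map (F := fun R (z : List Bool × List ℤ) => !R z.2) (l := fun u => units 0 u.length)
      (UO.post (g := fun b : Bool => !b) (by fun_prop)
        (UO.query (q := fun z : List Bool × List ℤ => z.2) (by fun_prop))) (by fun_prop)
  refine ⟨[], _, h, fun x => ?_⟩
  have e := vals_units ([] : List A) x []
  rw [List.append_nil] at e
  simp only [length_un]
  conv_lhs => rw [← e]
  unfold bitsOf vals
  rw [List.map_map]
  refine List.map_congr_left fun q _ => ?_
  simp [orc]

theorem AddPT.code' (e : A) {c : List A → List Bool} (hc : AddF c) :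
    AddPT (fun x => code e (c x)) := by
  obtain ⟨Γ, Φ, h1, e1⟩ := hc
  obtain ⟨F, g1, k1⟩ := extF h1 [e] Γ []
  refine addPT_iff.2 ⟨[e] ++ (Γ ++ []), _, UO.post (g := fun w : List Bool =>
    w.map (fun b => if b = true then ([1] : List ℤ) else [])) (by fun_prop) g1, fun x => ?_⟩
  rw [k1, ← e1]
  unfold code vals
  rw [List.map_map]
  refine List.map_congr_left fun b _ => ?_
  cases b <;> simp [val]

theorem AddF.oracle {V : Orc → β → γ} {f : List A → List A} {c : List A → β} (hV : UO V)
    (hf : AddPT f) (hc : AddF c) : AddF (fun x => V (orc (f x)) (c x)) := by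
  obtain ⟨Γ, Φ, F, h1, h2, e1, e2⟩ := kit_joint hc hf
  have h3 : UO (fun R (w : β × (List Bool × List (List ℤ))) =>
      V (fun q => R (lin (Γ.length + w.2.1.length) q w.2.2)) w.1) :=
    hV.subst (s := fun v : (List Bool × List (List ℤ)) × List ℤ =>
      lin (Γ.length + v.1.1.length) v.2 v.1.2) (by fun_prop)
  refine ⟨Γ, _, h3.comp (h1.pair h2.keep), fun x => ?_⟩
  simp only [length_un]
  rw [orc_lin _ _ (by rw [List.length_append]), e1, e2]

theorem AddPT.length_le {f : List A → List A} (hf : AddPT f) :
    ∃ s : Polynomial ℕ, ∀ x, (f x).length ≤ s.eval x.length := by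
  obtain ⟨Γ, Φ, h, e⟩ := addPT_iff.1 hf
  obtain ⟨s, hs⟩ := h.pb
  refine ⟨s.comp (3 * Polynomial.X), fun x => ?_⟩
  rw [e x, length_vals]
  refine (length_le_size _).trans ((hs _ _).trans (le_of_eq ?_))
  rw [size_listBool, length_un]
  simp only [Polynomial.eval_comp, Polynomial.eval_mul, Polynomial.eval_X, Polynomial.eval_ofNat]

end Pool.Agent.MP_8a92de_lc.H43

namespace Pool.Agent.MP_8a92de_lc.H43

open Pool.Agent.Lib.Cx Finset

theorem univ_decInt : Dec ℤ := by
  obtain ⟨d, hd, e⟩ := (inferInstance : Dec (ℕ × ℕ)).dec
  refine ⟨⟨fun l => (d l).map (fun p => (p.1 : ℤ) - p.2), by fun_prop, fun z => ?_⟩⟩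
  have : d (enc z) = some (z.toNat, (-z).toNat) := e (z.toNat, (-z).toNat)
  simp only [this, Option.map_some]
  congr 1
  omega

theorem univ_dec (α : Type) [Enc α] [h : Dec α] (a₀ : α) :
    ∃ d : List Bool → α, PT d ∧ ∀ a, d (enc a) = a := by
  obtain ⟨d, hd, e⟩ := h.dec
  exact ⟨fun l => (d l).getD a₀, by fun_prop, fun a => by simp [e]⟩

theorem univ_ans {R : Orc} {Q : List Bool → List ℤ} {qa : List (List ℤ × Bool)}
    (h1 : ∀ i < qa.length, (qa.getD i ([], false)).1 = Q ((qa.map Prod.snd).take i))
    (h2 : ∀ z ∈ qa, R z.1 = z.2) : qa.map Prod.snd = answers R Q qa.length := by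
  have key : ∀ i ≤ qa.length, (qa.map Prod.snd).take i = answers R Q i := by
    intro i
    induction i with
    | zero => intro _; rfl
    | succ i ih =>
      intro hi
      have h3 := h1 i hi
      rw [List.getD_eq_getElem _ _ hi] at h3
      rw [answers_succ, ← ih (by omega), ← h3, h2 _ (List.getElem_mem hi), List.take_add_one]
      simp [show i < qa.length from hi]
  rw [← key _ le_rfl, List.take_of_length_le (by simp)]

/-- the queries and answers of a run -/
def univRun (Q : List Bool → List ℤ) (ans : List Bool) : List (List ℤ × Bool) :=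
  (List.range ans.length).map fun i => (Q (ans.take i), ans.getD i false)

theorem univRun_snd (Q : List Bool → List ℤ) (ans : List Bool) :
    (univRun Q ans).map Prod.snd = ans := by
  refine List.ext_getElem (by simp [univRun]) fun i h1 h2 => ?_
  simp [univRun, h2]

theorem univRun_ok (R : Orc) (Q : List Bool → List ℤ) (T : ℕ) :
    ∀ z ∈ univRun Q (answers R Q T), R z.1 = z.2 := by
  intro z hz
  obtain ⟨i, hi, rfl⟩ := List.mem_map.1 hz
  rw [List.mem_range, answers_length] at hi
  have h1 := congrArg (fun l => l[i]?) (answers_take R Q (show i + 1 ≤ T from hi))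
  simp only [answers_succ, List.getElem?_take, Nat.lt_succ_self, if_true] at h1
  rw [List.getElem?_append_right (answers_length R Q i).le, answers_length] at h1
  simp only [answers_take R Q hi.le, List.getD, h1]
  simp

/-- one certificate checker for all additive machines -/
theorem univ : ∃ V : Orc → List Bool × List Bool → Bool, UO V ∧
    ∀ (A : Type) [AddCommGroup A] (g : List A → List A), AddPT g →
      ∃ (γ : List A) (κ : List Bool → List Bool), PT κ ∧ ∀ y : List A, g y = [] ↔
        ∃ β : List Bool, β.length = (κ (un y.length)).length ∧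
          V (orc (γ ++ y)) (κ (un y.length), β) = true := by
  classical
  have := univ_decInt
  obtain ⟨dk, hdk, ek⟩ := univ_dec (List (Clause3 ℕ) × List Bool × List Unit × List Unit)
    ([], [], [], [])
  obtain ⟨d0, hd0, e0⟩ := univ_dec (List Bool × List (List ℤ × Bool)) ([], [])
  obtain ⟨dd, hdd, ed⟩ : ∃ dd : List Bool → List Bool × List (List ℤ × Bool), PT dd ∧
      ∀ k a, dd (List.replicate k false ++ true :: enc a) = a :=
    ⟨fun w => d0 (unpad w), by unfold unpad; fun_prop, fun k a => by simp only [unpad_pad, e0]⟩
  obtain ⟨P, hP, eP⟩ : ∃ P : List Bool × List Bool → Prop, PP P ∧ ∀ x, P x ↔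
      (dd (x.2.take (dk x.1).2.2.1.length)).1 = (dk x.1).2.1 ∧
        ∀ c ∈ (dk x.1).1, c.Holds (fun j => x.2.getD j false) :=
    ⟨_, by unfold Clause3.Holds; fun_prop, fun _ => Iff.rfl⟩
  have hF : UO (fun R (z : (List Bool × List Bool) × List ℤ × Bool) => decide (R z.2.1 = z.2.2)) :=
    UO.post (g := fun w : ((List Bool × List Bool) × List ℤ × Bool) × Bool =>
      decide (w.2 = w.1.2.2)) (by fun_prop)
      (UO.query (q := fun z : (List Bool × List Bool) × List ℤ × Bool => z.2.1) (by fun_prop)).keep
  refine ⟨fun R x => decide (P x) && (dd (x.2.take (dk x.1).2.2.1.length)).2.all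
    (fun z => decide (R z.1 = z.2)), UO.post (g := fun w : Bool × Bool => w.1 && w.2)
      (by fun_prop) ((UO.of_pt (PT.decide hP)).pair (UO.all hF (by fun_prop))), ?_⟩
  rintro A _ g ⟨γ, p, Q, out, hQ, ho, hg⟩
  replace hQ := PT.of_isPolyTime hQ
  replace ho := PT.of_isPolyTime ho
  obtain ⟨C, hC, eC⟩ : ∃ C : List Bool × List (List ℤ × Bool) → Prop, PP C ∧ ∀ z, C z ↔
      z.2.length = p.eval z.1.length ∧
        (∀ i < z.2.length, (z.2.getD i ([], false)).1 = Q (z.1, (z.2.map Prod.snd).take i)) ∧
        out (z.1, z.2.map Prod.snd) = [] := ⟨_, by fun_prop, fun _ => Iff.rfl⟩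
  have h1 : PT (fun w : PT.Raw => decide (C (dd w.val))) := by
    have : PT (fun w : PT.Raw => w.val) := PT.enc' (f := fun w : PT.Raw => w) (by fun_prop)
    fun_prop
  obtain ⟨Φ, hΦ, hv, hc⟩ := Cmp.exists_cnf h1
  have hrun : UO (fun R (u : List Bool) =>
      (u, univRun (fun a => Q (u, a)) (answers R (fun a => Q (u, a)) (p.eval u.length)))) :=
    UO.post (g := fun z : List Bool × List Bool => (z.1, univRun (fun a => Q (z.1, a)) z.2))
      (by unfold univRun; fun_prop)
      (UO.answers' (n := fun u : List Bool => p.eval u.length) (by fun_prop) (by fun_prop) hQ).keep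
  obtain ⟨s, hs⟩ := hrun.pb
  obtain ⟨l, hl, el⟩ : ∃ l : List Bool → List Unit, PT l ∧
      ∀ u, (l u).length = s.eval (size u) + 1 :=
    ⟨fun u => List.replicate (s.eval (size u) + 1) (), by fun_prop, fun u => by simp⟩
  refine ⟨γ, fun u => enc (Φ (l u), u, l u,
    List.replicate ((l u).length + 3 * (Φ (l u)).length) ()), PT.enc' (by fun_prop), fun y => ?_⟩
  have hy : g y = [] ↔ out (un y.length, answers (orc (γ ++ y)) (fun a => Q (un y.length, a))
      (p.eval (un y.length).length)) = [] := by
    rw [hg y, List.map_eq_nil_iff, length_un]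
    rfl
  rw [hy]
  generalize un y.length = u
  generalize orc (γ ++ y) = R
  have hK : (l u).length + 3 * (Φ (l u)).length ≤ (enc (Φ (l u), u, l u,
      List.replicate ((l u).length + 3 * (Φ (l u)).length) ())).length := by
    change _ ≤ size _
    simp only [size_prod, size_listUnit, List.length_replicate]
    omega
  simp only [Bool.and_eq_true, decide_eq_true_eq, List.all_eq_true, eP, ek]
  generalize (enc (Φ (l u), u, l u,
    List.replicate ((l u).length + 3 * (Φ (l u)).length) ())).length = N at hK ⊢
  constructor
  · intro h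
    obtain ⟨k, hk⟩ := Nat.exists_eq_add_of_le (hs R u)
    set a := (u, univRun (fun a => Q (u, a)) (answers R (fun a => Q (u, a)) (p.eval u.length)))
      with ha
    have hw : (l u).length = (List.replicate k false ++ true :: enc a).length := by
      rw [el, hk]
      simp only [size, List.length_append, List.length_replicate, List.length_cons]
      omega
    obtain ⟨σ, s1, s2⟩ := (hc ⟨List.replicate k false ++ true :: enc a⟩ (l u) hw).1 (by
      simp only [ed, decide_eq_true_eq, eC, ha, univRun_snd]
      refine ⟨by simp [univRun, answers_length], fun i hi => ?_, h⟩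
      rw [List.getD_eq_getElem _ _ hi]
      simp [univRun])
    have e1 : ∀ j < N, ((List.range N).map σ).getD j false = σ j := fun j hj => by
      simp [List.getD, hj]
    have e2 : ((List.range N).map σ).take (l u).length =
        List.replicate k false ++ true :: enc a := by
      refine List.ext_getElem (by rw [← hw]; simp; omega) fun j h1 h2 => ?_
      simp only [List.getElem_take, List.getElem_map, List.getElem_range]
      exact s1 j h2
    refine ⟨(List.range N).map σ, by simp, ⟨by rw [e2, ed], fun c hc' => ?_⟩, ?_⟩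
    · have h3 : ∀ v ∈ [c.1.1, c.2.1.1, c.2.2.1], v < N := fun v hv' =>
        (hv (l u) v (List.mem_flatMap.2 ⟨c, hc', hv'⟩)).trans_le hK
      have h4 := s2 c hc'
      unfold Clause3.Holds at h4 ⊢
      beta_reduce
      rwa [e1 _ (h3 c.1.1 (by simp)), e1 _ (h3 c.2.1.1 (by simp)), e1 _ (h3 c.2.2.1 (by simp))]
    · rw [e2, ed]
      exact univRun_ok R (fun a => Q (u, a)) (p.eval u.length)
  · rintro ⟨β, hβ, ⟨h2, h3⟩, h4⟩
    have h5 := (hc ⟨β.take (l u).length⟩ (l u) (by
      change _ = (β.take _).length
      rw [List.length_take]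
      omega)).2 ⟨fun j => β.getD j false, fun j hj => by
        change j < (β.take _).length at hj
        change β.getD j false = (β.take (l u).length)[j]
        rw [List.getElem_take, List.getD_eq_getElem], h3⟩
    rw [decide_eq_true_eq, eC, h2] at h5
    rw [← h5.1, ← univ_ans (Q := fun a => Q (u, a)) h5.2.1 h4]
    exact h5.2.2

end Pool.Agent.MP_8a92de_lc.H43

/-! The class NP of the model is closed under nondeterministic reductions. -/

namespace Pool.Agent.MP_8a92de_lc.H43

open Pool.Agent.Lib.Cx Finset

variable {A : Type} [AddCommGroup A]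

theorem npc_code (e : A) (w : List Bool) : code e (bitsOf (code e w)) = code e w := by
  simp only [code, bitsOf, List.map_map]
  refine List.map_congr_left fun b _ => ?_
  by_cases he : e = 0 <;> cases b <;> simp [he]

theorem npc_len {c : ℕ → ℕ} (h : PT fun u : List Bool => c u.length) :
    AddF fun x : List A => c x.length := by
  simpa only [length_un] using AddF.post h (AddF.un' (A := A))

theorem npc_split (P : Polynomial ℕ) : ∃ c : ℕ → ℕ, (PT fun u : List Bool => c u.length) ∧
    ∀ n, c (n + P.eval n) = n := by
  refine ⟨fun N => ((List.range (N + 1)).find? fun n => decide (N ≤ n + P.eval n)).getD 0,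
    by fun_prop, fun n => ?_⟩
  have h : ((List.range (n + P.eval n + 1)).find? fun m => decide (n + P.eval n ≤ m + P.eval m)) =
      some n := List.find?_range_eq_some.2 ⟨by simp, List.mem_range.2 (by omega), fun j hj => by
    have := eval_mono P hj.le
    simp only [Bool.not_eq_eq_eq_not, Bool.not_true, decide_eq_false_iff_not]
    omega⟩
  simp only [h, Option.getD_some]

theorem np_closed {L L' : Set (List A)} (h : NPRed L L') (hL' : L' ∈ NP A) : L ∈ NP A := by
  obtain ⟨e, p, g, hg, h1⟩ := h
  obtain ⟨p', g', hg', h2⟩ := hL'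
  obtain ⟨s, hs⟩ := hg.length_le
  obtain ⟨c, c1, c2⟩ := npc_split (p + p'.comp (s.comp (Polynomial.X + p)))
  have a1 : AddF fun z : List A => c z.length := npc_len c1
  have a2 : AddF fun z : List A => p.eval (c z.length) :=
    a1.post (g := fun n => p.eval n) (by fun_prop)
  have a3 := AddPT.id'.drop a1
  have a4 := hg.comp ((AddPT.id'.take a1).append
    (AddPT.code' e (AddF.bits.comp (a3.take a2))))
  have a5 := hg'.comp (a4.append ((a3.drop a2).take
    ((npc_len (c := fun n => p'.eval n) (by fun_prop)).comp a4)))
  refine ⟨p + p'.comp (s.comp (Polynomial.X + p)), _, a5, fun x => ?_⟩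
  have b1 : ∀ n, (p + p'.comp (s.comp (Polynomial.X + p))).eval n =
      p.eval n + p'.eval (s.eval (n + p.eval n)) := fun n => by
    simp only [Polynomial.eval_add, Polynomial.eval_comp, Polynomial.eval_X]
  have b2 : ∀ w : List Bool, w.length = p.eval x.length → p'.eval (g (x ++ code e w)).length ≤
      p'.eval (s.eval (x.length + p.eval x.length)) := fun w hw =>
    eval_mono p' ((hs _).trans (by simp [code, hw]))
  rw [h1]
  constructor
  · rintro ⟨w, hw, h3⟩
    obtain ⟨v, hv, h4⟩ := (h2 _).1 h3
    have b3 := b2 w hw
    have b4 : (code e w).length = p.eval x.length := by simp [code, hw]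
    have b5 : (code e w ++ (v ++ List.replicate (p'.eval (s.eval (x.length + p.eval x.length)) -
        v.length) 0)).length = (p + p'.comp (s.comp (Polynomial.X + p))).eval x.length := by
      simp only [b1, List.length_append, List.length_replicate]
      omega
    refine ⟨_, b5, ?_⟩
    rw [List.length_append, b5, c2, List.take_left, List.drop_left, List.take_left' b4,
      List.drop_left' b4, npc_code, List.take_left' hv, h4]
  · rintro ⟨W, hW, h3⟩
    rw [List.length_append, hW, c2, List.take_left, List.drop_left] at h3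
    rw [b1] at hW
    have b3 : (bitsOf (W.take (p.eval x.length))).length = p.eval x.length := by
      simp only [bitsOf, List.length_map, List.length_take]
      omega
    refine ⟨_, b3, (h2 _).2 ⟨_, ?_, h3⟩⟩
    have b4 := b2 _ b3
    rw [List.length_take, List.length_drop]
    omega

end Pool.Agent.MP_8a92de_lc.H43

namespace Pool.Agent.MP_8a92de_lc.H43

open Pool.Agent.Lib.Cx Finset

variable {A : Type} [AddCommGroup A]

/-- length of the machine description in the header -/
def npcK (b : List Bool) : ℕ := (b.takeWhile (fun t => t)).length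

/-- length of the simulated guess in the header -/
def npcM (b : List Bool) : ℕ := ((b.drop (npcK b + 1)).takeWhile (fun t => t)).length

/-- the header -/
def npcPre (k : List Bool) (m : ℕ) : List Bool := un k.length ++ false :: (un m ++ false :: k)

theorem npk_ptK : PT npcK := by unfold npcK; fun_prop

theorem npk_ptM : PT npcM := by
  have := npk_ptK
  unfold npcM; fun_prop

theorem npk_tw (n : ℕ) (r : List Bool) : (un n ++ false :: r).takeWhile (fun t => t) = un n := by
  induction n with
  | zero => simp [un]
  | succ n ih =>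
    unfold un at ih ⊢
    rw [List.replicate_succ, List.cons_append, List.takeWhile_cons_of_pos (by simp), ih]

theorem npk_drop {α : Type} (l r : List α) {n : ℕ} (h : n = l.length) : (l ++ r).drop n = r := by
  subst h; simp

theorem npk_take {α : Type} (l r : List α) {n : ℕ} (h : n = l.length) : (l ++ r).take n = l := by
  subst h; simp

theorem npk_len (k : List Bool) (m : ℕ) : (npcPre k m).length = 2 * k.length + m + 2 := by
  simp [npcPre]; omega

theorem npk_K (k r : List Bool) (m : ℕ) : npcK (npcPre k m ++ r) = k.length := by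
  unfold npcK npcPre
  rw [List.append_assoc, List.cons_append, npk_tw, length_un]

theorem npk_M (k r : List Bool) (m : ℕ) : npcM (npcPre k m ++ r) = m := by
  unfold npcM
  rw [npk_K]
  have : npcPre k m ++ r = (un k.length ++ [false]) ++ (un m ++ false :: (k ++ r)) := by
    simp [npcPre]
  rw [this, npk_drop _ _ (by simp), npk_tw, length_un]

theorem npk_k (k r : List Bool) (m : ℕ) :
    ((npcPre k m ++ r).drop (k.length + m + 2)).take k.length = k := by
  have : npcPre k m ++ r = (un k.length ++ false :: (un m ++ [false])) ++ (k ++ r) := by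
    simp [npcPre]
  rw [this, npk_drop _ _ (by simp; omega), npk_take _ _ rfl]

/-- the vector seen by the simulated machine -/
noncomputable def npcF (w : List A) : List A :=
  (w.take ((bitsOf w).length / 2)).drop (2 * npcK (bitsOf w) + npcM (bitsOf w) + 2) ++
    (w.drop ((bitsOf w).length / 2)).take (npcM (bitsOf w))

/-- machine description and certificate -/
def npcC (b : List Bool) : List Bool × List Bool :=
  ((b.drop (npcK b + npcM b + 2)).take (npcK b),
    ((b.drop (b.length / 2)).drop (npcM b)).take (npcK b))

/-- the checker of the complete language -/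
noncomputable def npcG (V : Orc → List Bool × List Bool → Bool) (w : List A) : List A :=
  if V (orc (npcF w)) (npcC (bitsOf w)) = true then [] else [0]

theorem npk_addPT {V : Orc → List Bool × List Bool → Bool} (hV : UO V) :
    AddPT (npcG (A := A) V) := by
  have hK := npk_ptK
  have hM := npk_ptM
  have hb : AddF (fun x : List A => bitsOf x) := AddF.bits
  have hh : AddF (fun x : List A => (bitsOf x).length / 2) :=
    hb.post (g := fun b => b.length / 2) (by fun_prop)
  have hF : AddPT (npcF (A := A)) := by
    refine AddPT.append (AddPT.drop ?_ (AddPT.take hh AddPT.id'))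
      (AddPT.take (hb.post hM) (AddPT.drop hh AddPT.id'))
    exact hb.post (g := fun b => 2 * npcK b + npcM b + 2) (by fun_prop)
  have hC : AddF (fun x : List A => npcC (bitsOf x)) := hb.post (by unfold npcC; fun_prop)
  exact AddPT.cond (AddF.oracle hV hF hC) (AddPT.const []) (AddPT.const [0])

theorem npk_bits_append (x y : List A) : bitsOf (x ++ y) = bitsOf x ++ bitsOf y := by
  simp [bitsOf]

theorem npk_bits_len (x : List A) : (bitsOf x).length = x.length := by simp [bitsOf]

theorem npk_code_len (e : A) (c : List Bool) : (code e c).length = c.length := by simp [code]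

theorem npk_acc (V : Orc → List Bool × List Bool → Bool) {e : A} (he : e ≠ 0)
    (k : List Bool) (m : ℕ) (y W : List A)
    (hW : W.length = (code e (npcPre k m) ++ y).length) :
    npcG V (code e (npcPre k m) ++ y ++ W) = [] ↔
      V (orc (y ++ W.take m)) (k, ((bitsOf W).drop m).take k.length) = true := by
  set z : List A := code e (npcPre k m) ++ y with hz
  have hb : bitsOf (z ++ W) = npcPre k m ++ (bitsOf y ++ bitsOf W) := by
    rw [hz, npk_bits_append, npk_bits_append, bitsOf_code he, List.append_assoc]
  have hl : (bitsOf (z ++ W)).length / 2 = z.length := by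
    rw [npk_bits_len, List.length_append, hW]
    omega
  have hK : npcK (bitsOf (z ++ W)) = k.length := by rw [hb, npk_K]
  have hM : npcM (bitsOf (z ++ W)) = m := by rw [hb, npk_M]
  have hF : npcF (z ++ W) = y ++ W.take m := by
    unfold npcF
    rw [hl, hK, hM, npk_take _ _ rfl, npk_drop _ _ rfl, hz,
      npk_drop _ _ (by rw [npk_code_len, npk_len])]
  have hC : npcC (bitsOf (z ++ W)) = (k, ((bitsOf W).drop m).take k.length) := by
    unfold npcC
    rw [hl, hK, hM]
    congr 1
    · rw [hb]
      exact npk_k _ _ _
    · rw [npk_bits_append, npk_drop _ _ (npk_bits_len z).symm]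
  unfold npcG
  rw [hF, hC]
  split_ifs with h
  · simpa using h
  · simpa using h

theorem np_complete [Nontrivial A] : ∃ B ∈ NP A, Hard (NP A) B := by
  obtain ⟨e, he⟩ := exists_ne (0 : A)
  obtain ⟨V, hV, huniv⟩ := univ
  refine ⟨_, ⟨Polynomial.X, npcG V, npk_addPT hV, fun x => Iff.rfl⟩, ?_⟩
  rintro L ⟨p, g, hg, hL⟩
  obtain ⟨γ, κ, hκ, hgV⟩ := huniv A g hg
  refine ⟨fun x => code e (npcPre (κ (un (x.length + p.eval x.length)))
    (p.eval x.length)) ++ (γ ++ x), ?_, fun x => ?_⟩
  · refine (AddPT.code' e ?_).append ((AddPT.const γ).append AddPT.id')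
    have h1 : PT (fun u : List Bool => κ (un (u.length + p.eval u.length))) :=
      hκ.comp' (by fun_prop)
    have h2 : PT (fun u : List Bool => un (p.eval u.length)) := by fun_prop
    have h3 : PT (fun v : List Bool × List Bool => npcPre v.1 v.2.length) := by
      unfold npcPre; fun_prop
    have h4 := (AddF.un' (A := A)).post (h3.comp' (h1.prodMk h2))
    simpa only [length_un] using h4
  · rw [hL x]
    set m := p.eval x.length with hm
    set k := κ (un (x.length + m)) with hk
    set z : List A := code e (npcPre k m) ++ (γ ++ x) with hz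
    have hN : m + k.length ≤ z.length := by
      rw [hz]
      simp only [List.length_append, npk_code_len, npk_len]
      omega
    have key : ∀ w : List A, w.length = m → (g (x ++ w) = [] ↔
        ∃ β : List Bool, β.length = k.length ∧ V (orc (γ ++ x ++ w)) (k, β) = true) := by
      intro w hw
      rw [hgV, List.length_append, hw, ← hk]
      simp only [List.append_assoc]
    change _ ↔ ∃ W : List A, W.length = Polynomial.X.eval z.length ∧ npcG V (z ++ W) = []
    rw [Polynomial.eval_X]
    constructor
    · rintro ⟨w, hw, h⟩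
      obtain ⟨β, hβ, hv⟩ := (key w hw).1 h
      have l1 : (w ++ (code e β ++ List.replicate (z.length - m - k.length) 0)).length =
          z.length := by
        simp only [List.length_append, List.length_replicate, npk_code_len, hw, hβ]; omega
      refine ⟨_, l1, (npk_acc V he k m (γ ++ x) _ l1).2 ?_⟩
      rw [npk_take _ _ hw.symm, npk_bits_append, npk_drop _ _ (by rw [npk_bits_len, hw]),
        npk_bits_append, bitsOf_code he, npk_take _ _ hβ.symm]
      exact hv
    · rintro ⟨W, hW, h⟩
      have l1 : (W.take m).length = m := by rw [List.length_take, hW]; omega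
      refine ⟨W.take m, l1, (key _ l1).2 ⟨_, ?_, (npk_acc V he k m (γ ++ x) W hW).1 h⟩⟩
      rw [List.length_take, List.length_drop, npk_bits_len, hW]
      omega

end Pool.Agent.MP_8a92de_lc.H43

/-! Digital polynomial space is closed under nondeterministic reductions. -/

namespace Pool.Agent.MP_8a92de_lc.H43

open Pool.Agent.Lib.Cx Finset

variable {A : Type} [AddCommGroup A]

/-- The input of the simulated machine that is described by a configuration. -/
def pcV (e : A) (p : Polynomial ℕ) (g : List A → List A) (x : List A) (C : List Bool) : List A :=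
  g (x ++ code e ((C.drop 2).take (p.eval x.length)))

/-- The simulated configuration. -/
def pcD (e : A) (p p' : Polynomial ℕ) (g : List A → List A) (x : List A) (C : List Bool) :
    List Bool := (C.drop (2 + p.eval x.length)).take (p'.eval (pcV e p g x C).length)

/-- The edges of the simulation. -/
def pcE (e e' : A) (p p' : Polynomial ℕ) (g g' : List A → List A) (x : List A)
    (C C' : List Bool) : Prop :=
  (C'.take 2 = [true, false] ∧
    pcD e p p' g x C' = List.replicate (pcD e p p' g x C').length false) ∨
  (C.take 2 = [true, false] ∧ C'.take 2 = [true, false] ∧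
    (C.drop 2).take (p.eval x.length) = (C'.drop 2).take (p.eval x.length) ∧
    g' (pcV e p g x C ++ code e' (pcD e p p' g x C) ++ code e' (pcD e p p' g x C')) = []) ∨
  (C.take 2 = [true, false] ∧ pcD e p p' g x C = List.replicate (pcD e p p' g x C).length true)

section mach

variable {e e' : A} {p p' : Polynomial ℕ} {g g' X : List A → List A} {C C' : List A → List Bool}

theorem pc_W (p : Polynomial ℕ) (hX : AddPT X) (hC : AddF C) :
    AddF fun z => ((C z).drop 2).take (p.eval (X z).length) :=
  (hC.pair ((npc_len (c := fun n => p.eval n) (by fun_prop)).comp hX)).post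
    (g := fun t : List Bool × ℕ => (t.1.drop 2).take t.2) (by fun_prop)

theorem pc_V (hg : AddPT g) (hX : AddPT X) (hC : AddF C) :
    AddPT fun z => pcV e p g (X z) (C z) :=
  hg.comp (hX.append (AddPT.code' e (pc_W p hX hC)))

theorem pc_D (hg : AddPT g) (hX : AddPT X) (hC : AddF C) :
    AddF fun z => pcD e p p' g (X z) (C z) :=
  (hC.pair (((npc_len (c := fun n => p.eval n) (by fun_prop)).comp hX).pair
    ((npc_len (c := fun n => p'.eval n) (by fun_prop)).comp (pc_V hg hX hC)))).post
    (g := fun t : List Bool × ℕ × ℕ => (t.1.drop (2 + t.2.1)).take t.2.2) (by fun_prop)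

theorem pc_E (hg : AddPT g) (hg' : AddPT g') (hX : AddPT X) (hC : AddF C) (hC' : AddF C') :
    ∃ G : List A → List A, AddPT G ∧ ∀ z, G z = [] ↔ pcE e e' p p' g g' (X z) (C z) (C' z) := by
  have h1 := pc_D (e := e) (p := p) (p' := p') hg hX hC
  have h2 := pc_D (e := e) (p := p) (p' := p') hg hX hC'
  have h3 := AddF.eq (hg'.comp (((pc_V (e := e) (p := p) hg hX hC).append
    (AddPT.code' e' h1)).append (AddPT.code' e' h2))) (AddPT.const [])
  have h4 := ((hC.pair hC').pair (((pc_W p hX hC).pair (pc_W p hX hC')).pair
    ((h1.pair h2).pair h3))).post (g := fun t : (List Bool × List Bool) ×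
      (List Bool × List Bool) × (List Bool × List Bool) × Bool => decide
      ((t.1.2.take 2 = [true, false] ∧ t.2.2.1.2 = List.replicate t.2.2.1.2.length false) ∨
      (t.1.1.take 2 = [true, false] ∧ t.1.2.take 2 = [true, false] ∧ t.2.1.1 = t.2.1.2 ∧
        t.2.2.2 = true) ∨
      (t.1.1.take 2 = [true, false] ∧ t.2.2.1.1 = List.replicate t.2.2.1.1.length true)))
    (by fun_prop)
  refine ⟨_, AddPT.cond h4 (AddPT.const []) (AddPT.const [0]), fun z => ?_⟩
  simp only [decide_eq_true_eq, ite_eq_left_iff, reduceCtorEq, imp_false, not_not, pcE]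

end mach

theorem ps_closed [Nontrivial A] {L L' : Set (List A)} (h : NPRed L L') (hL' : L' ∈ PS A) :
    L ∈ PS A := by
  obtain ⟨e₁, p, g, hg, h1⟩ := h
  obtain ⟨e₂, p', g', hg', h2⟩ := hL'
  obtain ⟨e, he⟩ := exists_ne (0 : A)
  obtain ⟨s, hs⟩ := hg.length_le
  obtain ⟨P, hP⟩ : ∃ P : Polynomial ℕ, ∀ n,
      P.eval n = 2 + p.eval n + p'.eval (s.eval (n + p.eval n)) :=
    ⟨2 + p + p'.comp (s.comp (Polynomial.X + p)), fun n => by
      simp only [Polynomial.eval_add, Polynomial.eval_comp, Polynomial.eval_X,
        Polynomial.eval_ofNat]⟩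
  obtain ⟨c, c1, c2⟩ := npc_split (P + P)
  have a1 : AddF fun z : List A => c z.length := npc_len c1
  have a2 := (AddF.bits.comp (AddPT.id'.drop a1)).pair
    (a1.post (g := fun n => P.eval n) (by fun_prop))
  obtain ⟨G, hG, hE⟩ := pc_E (e := e₁) (e' := e₂) (p := p) (p' := p') hg hg' (AddPT.id'.take a1)
    (a2.post (g := fun t : List Bool × ℕ => t.1.take t.2) (by fun_prop))
    (a2.post (g := fun t : List Bool × ℕ => t.1.drop t.2) (by fun_prop))
  refine ⟨e, P, G, hG, fun x => ?_⟩
  have b1 : ∀ C C' : List Bool, C.length = P.eval x.length → C'.length = P.eval x.length →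
      (G (x ++ code e C ++ code e C') = [] ↔ pcE e₁ e₂ p p' g g' x C C') := by
    intro C C' hC hC'
    have b2 : c (x ++ code e C ++ code e C').length = x.length := by
      rw [← c2 x.length]
      simp only [List.length_append, code, List.length_map, hC, hC', Polynomial.eval_add, c2,
        add_assoc]
    have b3 : code e C ++ code e C' = code e (C ++ C') := (List.map_append ..).symm
    rw [hE]
    simp only [b2]
    rw [List.append_assoc, List.take_left, List.drop_left, b3, bitsOf_code he,
      List.take_left' hC, List.drop_left' hC]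
  have b2 : ∀ w : List Bool, w.length = p.eval x.length → p'.eval (g (x ++ code e₁ w)).length ≤
      p'.eval (s.eval (x.length + p.eval x.length)) := fun w hw =>
    eval_mono p' ((hs _).trans (by simp [code, hw]))
  have b3 : ∀ C : List Bool, C.length = P.eval x.length →
      ((C.drop 2).take (p.eval x.length)).length = p.eval x.length := fun C hC => by
    rw [List.length_take, List.length_drop, hC, hP]
    omega
  have b4 : ∀ C : List Bool, C.length = P.eval x.length →
      (pcD e₁ p p' g x C).length = p'.eval (pcV e₁ p g x C).length := fun C hC => by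
    have h3 : p'.eval (pcV e₁ p g x C).length ≤ _ := b2 _ (b3 C hC)
    rw [pcD, List.length_take, List.length_drop, hC, hP]
    omega
  have b5 : ∀ b, (List.replicate (P.eval x.length) b).take 2 ≠ [true, false] := fun b => by
    rw [List.take_replicate, hP, min_eq_left (by omega)]
    cases b <;> simp [List.replicate]
  constructor
  · intro hx
    obtain ⟨w, hw, h3⟩ := (h1 x).1 hx
    have h4 := b2 w hw
    obtain ⟨k, hk⟩ : ∃ k, k = p'.eval (g (x ++ code e₁ w)).length := ⟨_, rfl⟩
    obtain ⟨r, hr⟩ : ∃ r, r = List.replicate (p'.eval (s.eval (x.length + p.eval x.length)) - k)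
      false := ⟨_, rfl⟩
    have d1 : ∀ d : List Bool, ((true :: false :: (w ++ (d ++ r))).drop 2).take (p.eval x.length) =
        w := fun d => List.take_left' hw
    have d2 : ∀ d : List Bool, pcV e₁ p g x (true :: false :: (w ++ (d ++ r))) =
        g (x ++ code e₁ w) := fun d => by rw [pcV, d1]
    have d3 : ∀ d : List Bool, d.length = k →
        pcD e₁ p p' g x (true :: false :: (w ++ (d ++ r))) = d := fun d hd => by
      rw [pcD, d2, ← hk, ← List.drop_drop]
      exact (congrArg _ (List.drop_left' hw)).trans (List.take_left' hd)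
    have d4 : ∀ d : List Bool, d.length = k →
        (true :: false :: (w ++ (d ++ r))).length = P.eval x.length := fun d hd => by
      simp only [List.length_cons, List.length_append, hr, List.length_replicate, hP]
      omega
    have h5 := (h2 _).1 h3
    rw [← hk] at h5
    have d5 : ∀ d, Relation.ReflTransGen (fun c c' : List Bool => c'.length = k ∧
        g' (g (x ++ code e₁ w) ++ code e₂ c ++ code e₂ c') = []) (List.replicate k false) d →
        d.length = k ∧ Relation.ReflTransGen (fun c c' : List Bool =>
          c'.length = P.eval x.length ∧ G (x ++ code e c ++ code e c') = [])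
          (List.replicate (P.eval x.length) false) (true :: false :: (w ++ (d ++ r))) := by
      intro d hd
      induction hd with
      | refl =>
        have h6 := List.length_replicate (n := k) (a := false)
        exact ⟨h6, .single ⟨d4 _ h6, (b1 _ _ List.length_replicate (d4 _ h6)).2
          (Or.inl ⟨rfl, by rw [d3 _ h6, h6]⟩)⟩⟩
      | tail _ h6 ih =>
        exact ⟨h6.1, ih.2.tail ⟨d4 _ h6.1, (b1 _ _ (d4 _ ih.1) (d4 _ h6.1)).2 (Or.inr (Or.inl
          ⟨rfl, rfl, by rw [d1, d1], by rw [d2, d3 _ ih.1, d3 _ h6.1, h6.2]⟩))⟩⟩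
    obtain ⟨h6, h7⟩ := d5 _ h5
    exact h7.tail ⟨List.length_replicate, (b1 _ _ (d4 _ h6) List.length_replicate).2
      (Or.inr (Or.inr ⟨rfl, by rw [d3 _ h6, h6]⟩))⟩
  · intro hx
    have key : ∀ C, Relation.ReflTransGen (fun c c' : List Bool =>
        c'.length = P.eval x.length ∧ G (x ++ code e c ++ code e c') = [])
        (List.replicate (P.eval x.length) false) C → C.length = P.eval x.length ∧
        (x ∈ L ∨ C = List.replicate (P.eval x.length) false ∨ C.take 2 = [true, false] ∧
          Relation.ReflTransGen (fun c c' : List Bool =>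
            c'.length = p'.eval (pcV e₁ p g x C).length ∧
              g' (pcV e₁ p g x C ++ code e₂ c ++ code e₂ c') = [])
            (List.replicate (p'.eval (pcV e₁ p g x C).length) false) (pcD e₁ p p' g x C)) := by
      intro C hC
      induction hC with
      | refl => exact ⟨List.length_replicate, Or.inr (Or.inl rfl)⟩
      | @tail C C' _ h3 ih =>
        refine ⟨h3.1, ?_⟩
        rcases (b1 _ _ ih.1 h3.1).1 h3.2 with h4 | h4 | h4
        · refine Or.inr (Or.inr ⟨h4.1, ?_⟩)
          rw [h4.2, b4 _ h3.1]
        · rcases ih.2 with h5 | h5 | h5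
          · exact Or.inl h5
          · exact absurd (h5 ▸ h4.1) (b5 _)
          · have h6 : pcV e₁ p g x C = pcV e₁ p g x C' := by rw [pcV, pcV, h4.2.2.1]
            exact Or.inr (Or.inr ⟨h4.2.1, h6 ▸ h5.2.tail ⟨h6 ▸ b4 _ h3.1, h4.2.2.2⟩⟩)
        · rcases ih.2 with h5 | h5 | h5
          · exact Or.inl h5
          · exact absurd (h5 ▸ h4.1) (b5 _)
          · refine Or.inl ((h1 x).2 ⟨_, b3 C ih.1, (h2 _).2 ?_⟩)
            have h6 := h5.2
            rwa [h4.2, b4 _ ih.1] at h6
    rcases (key _ hx).2 with h3 | h3 | h3
    · exact h3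
    · rw [hP, add_assoc, add_comm 2] at h3
      simp [List.replicate] at h3
    · exact absurd h3.1 (b5 _)

end Pool.Agent.MP_8a92de_lc.H43

namespace Pool.Agent.MP_8a92de_lc.H43

open Pool.Agent.Lib.Cx Finset

variable {A : Type} [AddCommGroup A]

/-- length of the machine description in the header -/
def pscK (b : List Bool) : ℕ := ((b.drop 1).takeWhile (fun t => t)).length

/-- length of the simulated configurations in the header -/
def pscM (b : List Bool) : ℕ := ((b.drop (pscK b + 2)).takeWhile (fun t => t)).length

/-- the header -/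
def pscPre (k : List Bool) (m : ℕ) : List Bool := un k.length ++ false :: (un m ++ false :: k)

theorem psc_ptK : PT pscK := by unfold pscK; fun_prop

theorem psc_ptM : PT pscM := by
  have := psc_ptK
  unfold pscM; fun_prop

theorem psc_tw (n : ℕ) (r : List Bool) : (un n ++ false :: r).takeWhile (fun t => t) = un n := by
  induction n with
  | zero => simp [un]
  | succ n ih =>
    unfold un at ih ⊢
    rw [List.replicate_succ, List.cons_append, List.takeWhile_cons_of_pos (by simp), ih]

theorem psc_drop {α : Type} (l r : List α) {n : ℕ} (h : n = l.length) : (l ++ r).drop n = r := by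
  subst h; simp

theorem psc_take {α : Type} (l r : List α) {n : ℕ} (h : n = l.length) : (l ++ r).take n = l := by
  subst h; simp

theorem psc_len (k : List Bool) (m : ℕ) : (pscPre k m).length = 2 * k.length + m + 2 := by
  simp [pscPre]; omega

theorem psc_K (t : Bool) (k r : List Bool) (m : ℕ) : pscK (t :: (pscPre k m ++ r)) = k.length := by
  unfold pscK pscPre
  rw [List.drop_one, List.tail_cons, List.append_assoc, List.cons_append, psc_tw, length_un]

theorem psc_M (t : Bool) (k r : List Bool) (m : ℕ) : pscM (t :: (pscPre k m ++ r)) = m := by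
  unfold pscM
  rw [psc_K]
  have : t :: (pscPre k m ++ r) = (t :: (un k.length ++ [false])) ++ (un m ++ false :: (k ++ r)) := by
    simp [pscPre]
  rw [this, psc_drop _ _ (by simp), psc_tw, length_un]

theorem psc_k (t : Bool) (k r : List Bool) (m : ℕ) :
    ((t :: (pscPre k m ++ r)).drop (k.length + m + 3)).take k.length = k := by
  have : t :: (pscPre k m ++ r) =
      (t :: (un k.length ++ false :: (un m ++ [false]))) ++ (k ++ r) := by
    simp [pscPre]
  rw [this, psc_drop _ _ (by simp; omega), psc_take _ _ rfl]

theorem psc_code {c : List A → List Bool} (hc : AddF c) :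
    AddPT (fun x => code (x.getD 0 0) (c x)) := by
  obtain ⟨Γ, Φ, hΦ, e⟩ := hc
  refine addPT_iff.2 ⟨Γ, _, UO.post (g := fun w : List Bool =>
    w.map (fun b => if b = true then unit Γ.length else [])) (by fun_prop) hΦ, fun x => ?_⟩
  rw [← e]
  unfold vals code
  rw [List.map_map]
  refine List.map_congr_left fun b _ => ?_
  cases b
  · simp [val]
  · simp only [Function.comp, if_true]
    rw [val_unit, List.getD_append_right _ _ _ _ le_rfl, Nat.sub_self]

/-- the vector seen by the simulated machine -/
noncomputable def pscF (w : List A) : List A :=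
  (w.take ((bitsOf w).length / 3)).drop (2 * pscK (bitsOf w) + pscM (bitsOf w) + 3) ++
    code (w.getD 0 0) (((bitsOf w).drop ((bitsOf w).length / 3)).take (pscM (bitsOf w))) ++
    code (w.getD 0 0) (((bitsOf w).drop (2 * ((bitsOf w).length / 3))).take (pscM (bitsOf w)))

/-- machine description and certificate -/
def pscC (b : List Bool) : List Bool × List Bool :=
  ((b.drop (pscK b + pscM b + 3)).take (pscK b),
    (b.drop (2 * (b.length / 3) + pscM b)).take (pscK b))

/-- the simulated configuration does not change -/
def pscS (b : List Bool) : Bool :=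
  decide ((b.drop (b.length / 3)).take (pscM b) = (b.drop (2 * (b.length / 3))).take (pscM b))

/-- the edge test of the complete language -/
noncomputable def pscG (V : Orc → List Bool × List Bool → Bool) (w : List A) : List A :=
  if (V (orc (pscF w)) (pscC (bitsOf w)) || pscS (bitsOf w)) = true then [] else [0]

theorem psc_addPT {V : Orc → List Bool × List Bool → Bool} (hV : UO V) :
    AddPT (pscG (A := A) V) := by
  have hK := psc_ptK
  have hM := psc_ptM
  have hb : AddF (fun x : List A => bitsOf x) := AddF.bits
  have hF : AddPT (pscF (A := A)) := by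
    refine AddPT.append (AddPT.append (AddPT.drop ?_ (AddPT.take ?_ AddPT.id')) (psc_code ?_))
      (psc_code ?_)
    · exact hb.post (g := fun b => 2 * pscK b + pscM b + 3) (by fun_prop)
    · exact hb.post (g := fun b => b.length / 3) (by fun_prop)
    · exact hb.post (g := fun b => (b.drop (b.length / 3)).take (pscM b)) (by fun_prop)
    · exact hb.post (g := fun b => (b.drop (2 * (b.length / 3))).take (pscM b)) (by fun_prop)
  have hC : AddF (fun x : List A => pscC (bitsOf x)) := hb.post (by unfold pscC; fun_prop)
  have hS : AddF (fun x : List A => pscS (bitsOf x)) := hb.post (by unfold pscS; fun_prop)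
  exact AddPT.cond (((AddF.oracle hV hF hC).pair hS).post
    (g := fun t : Bool × Bool => t.1 || t.2) (by fun_prop)) (AddPT.const []) (AddPT.const [0])

theorem psc_bits_append (x y : List A) : bitsOf (x ++ y) = bitsOf x ++ bitsOf y := by
  simp [bitsOf]

theorem psc_bits_len (x : List A) : (bitsOf x).length = x.length := by simp [bitsOf]

theorem psc_code_len (e : A) (c : List Bool) : (code e c).length = c.length := by simp [code]

theorem psc_edge (V : Orc → List Bool × List Bool → Bool) {e₀ : A} (h₀ : e₀ ≠ 0) (e : A)
    (k : List Bool) (m : ℕ) (y : List A) {C C' : List Bool} {N : ℕ}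
    (hN : N = ([e] ++ code e₀ (pscPre k m) ++ y).length) (hC : C.length = N) (hC' : C'.length = N) :
    pscG V ([e] ++ code e₀ (pscPre k m) ++ y ++ code e₀ C ++ code e₀ C') = [] ↔
      V (orc (y ++ code e (C.take m) ++ code e (C'.take m))) (k, (C'.drop m).take k.length) = true ∨
        C.take m = C'.take m := by
  set z : List A := [e] ++ code e₀ (pscPre k m) ++ y with hz
  have hNm : m ≤ N := by
    rw [hN, hz]
    simp only [List.length_append, psc_code_len, psc_len]
    omega
  obtain ⟨t, ht⟩ : ∃ t, bitsOf z = t :: (pscPre k m ++ bitsOf y) :=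
    ⟨_, by rw [hz, psc_bits_append, psc_bits_append, bitsOf_code h₀]; rfl⟩
  have hb : bitsOf (z ++ code e₀ C ++ code e₀ C') = bitsOf z ++ C ++ C' := by
    rw [psc_bits_append, psc_bits_append, bitsOf_code h₀, bitsOf_code h₀]
  have hb' : bitsOf z ++ C ++ C' = t :: (pscPre k m ++ (bitsOf y ++ C ++ C')) := by
    rw [ht]; simp
  have hl : (bitsOf z ++ C ++ C').length / 3 = N := by
    simp only [List.length_append, psc_bits_len, hC, hC', ← hN]
    omega
  have hK : pscK (bitsOf z ++ C ++ C') = k.length := by rw [hb', psc_K]
  have hM : pscM (bitsOf z ++ C ++ C') = m := by rw [hb', psc_M]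
  have d1 : ((bitsOf z ++ C ++ C').drop N).take m = C.take m := by
    rw [List.append_assoc, psc_drop _ _ (by rw [psc_bits_len, hN]),
      List.take_append_of_le_length (by omega)]
  have d2 : (bitsOf z ++ C ++ C').drop (2 * N) = C' :=
    psc_drop _ _ (by rw [List.length_append, psc_bits_len, hC, ← hN]; omega)
  have hF : pscF (z ++ code e₀ C ++ code e₀ C') = y ++ code e (C.take m) ++ code e (C'.take m) := by
    unfold pscF
    have h0 : (z ++ code e₀ C ++ code e₀ C').getD 0 0 = e := by simp [hz]
    rw [hb, hl, hK, hM, d1, d2, h0, List.append_assoc z, psc_take _ _ hN, hz,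
      psc_drop _ _ (by simp only [List.length_append, psc_code_len, psc_len]; simp; omega)]
  have hCc : pscC (bitsOf z ++ C ++ C') = (k, (C'.drop m).take k.length) := by
    unfold pscC
    rw [hl, hK, hM, ← List.drop_drop (i := m) (j := 2 * N), d2]
    congr 1
    rw [hb']
    exact psc_k _ _ _ _
  have hS : pscS (bitsOf z ++ C ++ C') = decide (C.take m = C'.take m) := by
    unfold pscS
    rw [hl, hM, d1, d2]
  unfold pscG
  rw [hF, hb, hCc, hS]
  split_ifs with h
  · simpa using h
  · simpa using h

theorem ps_complete [Nontrivial A] : ∃ B ∈ PS A, Hard (PS A) B := by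
  obtain ⟨e₀, h₀⟩ := exists_ne (0 : A)
  obtain ⟨V, hV, huniv⟩ := univ
  refine ⟨_, ⟨e₀, Polynomial.X, pscG V, psc_addPT hV, fun x => Iff.rfl⟩, ?_⟩
  rintro L ⟨e, p, g, hg, hL⟩
  obtain ⟨γ, κ, hκ, hgV⟩ := huniv A g hg
  refine ⟨fun x => [e] ++ code e₀ (pscPre (κ (un (x.length + 2 * p.eval x.length)))
    (p.eval x.length)) ++ (γ ++ x), ?_, fun x => ?_⟩
  · refine ((AddPT.const [e]).append (AddPT.code' e₀ ?_)).append ((AddPT.const γ).append AddPT.id')
    have h1 : PT (fun u : List Bool => κ (un (u.length + 2 * p.eval u.length))) :=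
      hκ.comp' (by fun_prop)
    have h2 : PT (fun u : List Bool => un (p.eval u.length)) := by fun_prop
    have h3 : PT (fun v : List Bool × List Bool => pscPre v.1 v.2.length) := by
      unfold pscPre; fun_prop
    have h4 := (AddF.un' (A := A)).post (h3.comp' (h1.prodMk h2))
    simpa only [length_un] using h4
  · rw [hL x]
    set m := p.eval x.length with hm
    set k := κ (un (x.length + 2 * m)) with hk
    set z : List A := [e] ++ code e₀ (pscPre k m) ++ (γ ++ x) with hz
    have hN : m + k.length ≤ z.length := by
      rw [hz]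
      simp only [List.length_append, psc_code_len, psc_len]
      omega
    have key : ∀ c c' : List Bool, c.length = m → c'.length = m →
        (g (x ++ code e c ++ code e c') = [] ↔ ∃ β : List Bool, β.length = k.length ∧
          V (orc (γ ++ x ++ code e c ++ code e c')) (k, β) = true) := by
      intro c c' hc hc'
      have hl : (x ++ code e c ++ code e c').length = x.length + 2 * m := by
        simp only [List.length_append, psc_code_len, hc, hc']; omega
      rw [hgV, hl, ← hk]
      simp only [List.append_assoc]
    change _ ↔ Relation.ReflTransGen (fun C C' : List Bool => C'.length = Polynomial.X.eval z.length ∧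
      pscG V (z ++ code e₀ C ++ code e₀ C') = []) (List.replicate (Polynomial.X.eval z.length) false)
      (List.replicate (Polynomial.X.eval z.length) true)
    rw [Polynomial.eval_X]
    constructor
    · intro h
      have up : ∀ c, Relation.ReflTransGen (fun c c' : List Bool => c'.length = m ∧
          g (x ++ code e c ++ code e c') = []) (List.replicate m false) c →
          c.length = m ∧ ∃ C : List Bool, C.length = z.length ∧ C.take m = c ∧
            Relation.ReflTransGen (fun C C' : List Bool => C'.length = z.length ∧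
              pscG V (z ++ code e₀ C ++ code e₀ C') = []) (List.replicate z.length false) C := by
        intro c hc
        induction hc with
        | refl => exact ⟨by simp, _, by simp, by rw [List.take_replicate, min_eq_left (by omega)],
            .refl⟩
        | @tail c c' _ h2 ih =>
          obtain ⟨h3, C, h4, h5, h6⟩ := ih
          obtain ⟨β, hβ, hv⟩ := (key c c' h3 h2.1).1 h2.2
          have l1 : (c' ++ (β ++ List.replicate (z.length - m - k.length) false)).length =
              z.length := by
            simp only [List.length_append, List.length_replicate, h2.1, hβ]; omega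
          have l2 := psc_take c' (β ++ List.replicate (z.length - m - k.length) false) h2.1.symm
          refine ⟨h2.1, _, l1, l2, h6.tail ⟨l1, ?_⟩⟩
          refine (psc_edge V h₀ e k m (γ ++ x) rfl h4 l1).2 (Or.inl ?_)
          rw [l2, h5, psc_drop _ _ h2.1.symm, psc_take _ _ hβ.symm]
          exact hv
      obtain ⟨-, C, h4, h5, h6⟩ := up _ h
      refine h6.tail ⟨by simp, (psc_edge V h₀ e k m (γ ++ x) rfl h4 (by simp [hz])).2 (Or.inr ?_)⟩
      rw [h5, List.take_replicate, min_eq_left (by omega)]
    · intro h
      have down : ∀ C, Relation.ReflTransGen (fun C C' : List Bool => C'.length = z.length ∧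
          pscG V (z ++ code e₀ C ++ code e₀ C') = []) (List.replicate z.length false) C →
          C.length = z.length ∧ Relation.ReflTransGen (fun c c' : List Bool => c'.length = m ∧
            g (x ++ code e c ++ code e c') = []) (List.replicate m false) (C.take m) := by
        intro C hC
        induction hC with
        | refl => exact ⟨by simp, by rw [List.take_replicate, min_eq_left (by omega)]⟩
        | @tail C C' _ h2 ih =>
          refine ⟨h2.1, ?_⟩
          have l1 : (C.take m).length = m := by rw [List.length_take, ih.1]; omega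
          have l2 : (C'.take m).length = m := by rw [List.length_take, h2.1]; omega
          rcases (psc_edge V h₀ e k m (γ ++ x) rfl ih.1 h2.1).1 h2.2 with hv | he
          · refine ih.2.tail ⟨l2, (key _ _ l1 l2).2 ⟨_, ?_, hv⟩⟩
            rw [List.length_take, List.length_drop, h2.1]; omega
          · rw [← he]; exact ih.2
      have := (down _ h).2
      rwa [List.take_replicate, min_eq_left (by omega)] at this

end Pool.Agent.MP_8a92de_lc.H43

/-! The classes `NP A` and `PS A` satisfy the hypotheses of the theorem and have hard members. -/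

namespace Pool.Agent.MP_8a92de_lc.H43

theorem inst (A : Type) [AddCommGroup A] (hA : ∃ e : A, ∀ n : ℕ, n ≠ 0 → n • e ≠ 0)
    (C : Set (Set (List A))) (hC : C = NP A ∨ C = PS A) :
    (∃ B ∈ C, Hard C B) ∧ ∀ B ∈ C, ∀ B' ∈ C, Hard C B → Hard C B' →
      ∃ f : List A → List A, AddPT f ∧ Function.Injective f ∧ (∀ x, x ∈ B ↔ f x ∈ B') ∧
        ((∀ n : ℕ, n ≠ 0 → ∀ a : A, ∃ b, n • b = a) →
          ∃ g : List A → List A, AddPT g ∧ (∀ x, g (f x) = x) ∧ ∀ y, f (g y) = y) := by
  obtain ⟨e, he⟩ := id hA
  have : Nontrivial A := ⟨⟨e, 0, (infOrd_of he).ne⟩⟩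
  rcases hC with rfl | rfl
  · exact ⟨np_complete, fun B hB B' hB' => Pool.Agent.MP_8a92de_lc.H43.AdditiveIso.result A hA
      _ (fun _ _ => np_closed) B B' hB hB'⟩
  · exact ⟨ps_complete, fun B hB B' hB' => Pool.Agent.MP_8a92de_lc.H43.AdditiveIso.result A hA
      _ (fun _ _ => ps_closed) B B' hB hB'⟩

end Pool.Agent.MP_8a92de_lc.H43
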