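import Pool.Agent.MP_8a92de_lc.H43.Defs
import Pool.Agent.Lib.Cx.All

/-! Integer arithmetic, integer matrices as lists and linear forms, in polynomial time. -/

namespace Pool.Agent.MP_8a92de_lc.H43

open Pool.Agent.Lib.Cx Finset

section arith

variable {α : Type} [Enc α]

theorem pt_pair {f : α → ℤ} (hf : PT f) : PT (fun x => ((f x).toNat, (-f x).toNat)) := hf

theorem pt_ofPair {f : α → ℤ} (hf : PT (fun x => ((f x).toNat, (-f x).toNat))) : PT f := hf

@[fun_prop] theorem pt_toNat {f : α → ℤ} (hf : PT f) : PT (fun x => (f x).toNat) :=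
  (pt_pair hf).fst

theorem pt_negToNat {f : α → ℤ} (hf : PT f) : PT (fun x => (-f x).toNat) := (pt_pair hf).snd

theorem pt_subNat {a b : α → ℕ} (ha : PT a) (hb : PT b) : PT (fun x => (a x : ℤ) - b x) := by
  apply pt_ofPair
  have : PT (fun x => (a x - b x, b x - a x)) := by fun_prop
  refine this.of_eq fun x => ?_
  congr 1 <;> omega

@[fun_prop] theorem pt_natCast {a : α → ℕ} (ha : PT a) : PT (fun x => (a x : ℤ)) :=
  (pt_subNat ha (PT.const 0)).of_eq fun x => by simp

@[fun_prop] theorem pt_neg {f : α → ℤ} (hf : PT f) : PT (fun x => -f x) :=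
  (pt_subNat (pt_negToNat hf) (pt_toNat hf)).of_eq fun x => by omega

@[fun_prop] theorem pt_add {f g : α → ℤ} (hf : PT f) (hg : PT g) : PT (fun x => f x + g x) :=
  (pt_subNat ((pt_toNat hf).add (pt_toNat hg)) ((pt_negToNat hf).add (pt_negToNat hg))).of_eq
    fun x => by push_cast; omega

@[fun_prop] theorem pt_sub {f g : α → ℤ} (hf : PT f) (hg : PT g) : PT (fun x => f x - g x) :=
  (pt_add hf (pt_neg hg)).of_eq fun _ => sub_eq_add_neg _ _

@[fun_prop] theorem pt_natAbs {f : α → ℤ} (hf : PT f) : PT (fun x => (f x).natAbs) :=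
  ((pt_toNat hf).add (pt_negToNat hf)).of_eq fun x => by omega

@[fun_prop] theorem pt_mul {f g : α → ℤ} (hf : PT f) (hg : PT g) : PT (fun x => f x * g x) := by
  have h1 := pt_toNat hf
  have h2 := pt_negToNat hf
  have h3 := pt_toNat hg
  have h4 := pt_negToNat hg
  refine (pt_subNat ((h1.mul h3).add (h2.mul h4)) ((h1.mul h4).add (h2.mul h3))).of_eq fun x => ?_
  have e1 : f x = ((f x).toNat : ℤ) - ((-f x).toNat : ℤ) := by omega
  have e2 : g x = ((g x).toNat : ℤ) - ((-g x).toNat : ℤ) := by omega
  conv_lhs => rw [e1, e2]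
  push_cast
  ring

@[fun_prop] theorem pp_le {f g : α → ℤ} (hf : PT f) (hg : PT g) : PP (fun x => f x ≤ g x) :=
  (PP.eq (pt_toNat (pt_sub hf hg)) (PT.const 0)).of_iff fun x => by omega

@[fun_prop] theorem pp_lt {f g : α → ℤ} (hf : PT f) (hg : PT g) : PP (fun x => f x < g x) :=
  (pp_le hg hf).not.of_iff fun x => by omega

@[fun_prop] theorem pt_emod {f g : α → ℤ} (hf : PT f) (hg : PT g) : PT (fun x => f x % g x) := by
  have h1 : PT (fun x => if 0 ≤ f x then (((f x).toNat % (g x).natAbs : ℕ) : ℤ) else
      if g x = 0 then f x else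
        ((((g x).natAbs - (-f x).toNat % (g x).natAbs) % (g x).natAbs : ℕ) : ℤ)) := by fun_prop
  refine h1.of_eq fun x => ?_
  generalize f x = a
  generalize g x = b
  split_ifs with h h'
  · push_cast
    rw [Int.toNat_of_nonneg h, Int.emod_abs]
  · simp [h']
  · have hb : 0 < b.natAbs := Int.natAbs_pos.2 h'
    rw [Int.natCast_mod, Nat.cast_sub (Nat.mod_lt _ hb).le, Int.natCast_mod,
      Int.toNat_of_nonneg (by omega), Int.sub_emod_emod, Int.natCast_natAbs, sub_neg_eq_add,
      Int.add_emod_left, Int.emod_abs]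

@[fun_prop] theorem pt_ediv {f g : α → ℤ} (hf : PT f) (hg : PT g) : PT (fun x => f x / g x) := by
  have h1 : PT (fun x => if g x = 0 then 0 else
      (if 0 ≤ (f x - f x % g x) * g x then 1 else -1) *
        (((f x - f x % g x).natAbs / (g x).natAbs : ℕ) : ℤ)) := by fun_prop
  refine h1.of_eq fun x => ?_
  generalize f x = a
  generalize g x = b
  by_cases h : b = 0
  · simp [h]
  · rw [if_neg h]
    have e : a - a % b = b * (a / b) := by rw [Int.emod_def]; ring
    rw [e, Int.natAbs_mul, Nat.mul_div_cancel_left _ (Int.natAbs_pos.2 h)]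
    generalize a / b = c
    have hb : 0 < b * b := mul_self_pos.2 h
    split_ifs with h'
    · have : 0 ≤ c := by
        by_contra hc
        nlinarith
      omega
    · have : c < 0 := by
        by_contra hc
        exact h' (by nlinarith)
      omega

theorem size_int (z : ℤ) : size z = 2 * size z.toNat + 1 + size (-z).toNat :=
  size_prod (z.toNat, (-z).toNat)

theorem size_int_le (z : ℤ) : size z ≤ 2 * size z.natAbs + 1 := by
  rw [size_int]
  rcases le_total 0 z with h | h
  · have e1 : z.toNat = z.natAbs := by omega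
    have e2 : (-z).toNat = 0 := by omega
    rw [e1, e2]; simp [size_nat]
  · have e1 : z.toNat = 0 := by omega
    have e2 : (-z).toNat = z.natAbs := by omega
    rw [e1, e2]; simp [size_nat]; omega

theorem size_natAbs_le (z : ℤ) : size z.natAbs ≤ size z := by
  rw [size_int]
  rcases le_total 0 z with h | h
  · have e1 : z.toNat = z.natAbs := by omega
    rw [e1]; omega
  · have e2 : (-z).toNat = z.natAbs := by omega
    rw [e2]; omega

/-- an integer is below two to its size -/
theorem natAbs_lt_two_pow (z : ℤ) : z.natAbs < 2 ^ size z :=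
  (lt_two_pow_size _).trans_le (Nat.pow_le_pow_right two_pos (size_natAbs_le z))

theorem size_int_of_lt {z : ℤ} {k : ℕ} (h : z.natAbs < 2 ^ k) : size z ≤ 2 * k + 1 := by
  have := size_int_le z
  have := size_nat_le_iff.2 h
  omega

@[fun_prop] theorem pt_isum {l : α → List ℤ} (hl : PT l) : PT (fun x => (l x).sum) := by
  have h1 : PT (fun x => ((l x).map Int.toNat).sum) := by fun_prop
  have h2 : PT (fun x => ((l x).map (fun z => (-z).toNat)).sum) := by fun_prop
  refine (pt_subNat h1 h2).of_eq fun x => ?_
  induction l x with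
  | nil => simp
  | cons a t ih => simp only [List.sum_cons, List.map_cons, ih]; push_cast; omega

@[fun_prop] theorem pt_finsum {n : α → ℕ} {f : α → ℕ → ℤ} (hn : PT n) (hb : PB n)
    (hf : PT (fun p : α × ℕ => f p.1 p.2)) : PT (fun x => ∑ i ∈ range (n x), f x i) :=
  (pt_isum (PT.map hf (PT.range hn hb))).of_eq fun x => by
    induction n x with
    | zero => simp
    | succ k ih => rw [Finset.sum_range_succ, List.sum_range_succ, ih]

@[fun_prop] theorem pt_ipow {f : α → ℤ} {n : α → ℕ} (hf : PT f) (hn : PT n) (hb : PB n) :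
    PT (fun x => f x ^ n x) := by
  have h1 : PT (fun x => (if 0 ≤ f x ∨ Even (n x) then 1 else -1) *
      (((f x).natAbs ^ n x : ℕ) : ℤ)) := by fun_prop
  refine h1.of_eq fun x => ?_
  push_cast
  split_ifs with h
  · rcases h with h | h
    · rw [abs_of_nonneg h, one_mul]
    · rw [h.pow_abs, one_mul]
  · push Not at h
    rw [abs_of_neg h.1, (Nat.not_even_iff_odd.1 h.2).neg_pow]
    ring

end arith

/-- entry of a matrix given as a list of rows (zero outside) -/
def ent (M : List (List ℤ)) (i j : ℕ) : ℤ := (M.getD i []).getD j 0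

/-- the vector of length `n` with entries `f j` -/
def vec (n : ℕ) (f : ℕ → ℤ) : List ℤ := (List.range n).map f

/-- the `l × n` matrix with entries `f i j` -/
def mat (l n : ℕ) (f : ℕ → ℕ → ℤ) : List (List ℤ) := (List.range l).map (fun i => vec n (f i))

@[simp] theorem length_vec (n : ℕ) (f : ℕ → ℤ) : (vec n f).length = n := by simp [vec]

@[simp] theorem length_mat (l n : ℕ) (f : ℕ → ℕ → ℤ) : (mat l n f).length = l := by simp [mat]

theorem getD_vec (n : ℕ) (f : ℕ → ℤ) (j : ℕ) : (vec n f).getD j 0 = if j < n then f j else 0 := by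
  unfold vec
  split_ifs with h
  · simp [List.getD, h]
  · simp [List.getD, not_lt.1 h]

theorem getD_mat (l n : ℕ) (f : ℕ → ℕ → ℤ) (i : ℕ) :
    (mat l n f).getD i [] = if i < l then vec n (f i) else [] := by
  unfold mat
  split_ifs with h
  · simp [List.getD, h]
  · simp [List.getD, not_lt.1 h]

theorem ent_mat (l n : ℕ) (f : ℕ → ℕ → ℤ) (i j : ℕ) :
    ent (mat l n f) i j = if i < l ∧ j < n then f i j else 0 := by
  unfold ent
  rw [getD_mat]
  by_cases h : i < l
  · simp only [h, if_true, getD_vec, true_and]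
  · simp [h]

theorem ent_mat_of_lt {l n i j : ℕ} (f : ℕ → ℕ → ℤ) (hi : i < l) (hj : j < n) :
    ent (mat l n f) i j = f i j := by rw [ent_mat, if_pos ⟨hi, hj⟩]

section pt

variable {α : Type} [Enc α]

@[fun_prop] theorem pt_ent {M : α → List (List ℤ)} {i j : α → ℕ} (hM : PT M) (hi : PT i)
    (hj : PT j) : PT (fun x => ent (M x) (i x) (j x)) := by unfold ent; fun_prop

@[fun_prop] theorem pt_vec {n : α → ℕ} {f : α → ℕ → ℤ} (hn : PT n) (hb : PB n)
    (hf : PT (fun p : α × ℕ => f p.1 p.2)) : PT (fun x => vec (n x) (f x)) :=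
  PT.map hf (PT.range hn hb)

@[fun_prop] theorem pt_mat {l n : α → ℕ} {f : α → ℕ → ℕ → ℤ} (hl : PT l) (hbl : PB l) (hn : PT n)
    (hb : PB n) (hf : PT (fun p : (α × ℕ) × ℕ => f p.1.1 p.1.2 p.2)) :
    PT (fun x => mat (l x) (n x) (f x)) :=
  PT.map (f := fun x i => vec (n x) (f x i))
    (pt_vec (n := fun p : α × ℕ => n p.1) (f := fun p j => f p.1 p.2 j) (by fun_prop)
      (hb.comp (f := fun p : α × ℕ => p.1) (by fun_prop)) hf) (PT.range hl hbl)

end pt

theorem size_getD_le (q : List ℤ) (j : ℕ) : size (q.getD j 0) ≤ size q + 1 := by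
  by_cases h : j < q.length
  · have : q.getD j 0 ∈ q := by simp [List.getD, h]
    exact (size_le_of_mem this).trans (Nat.le_succ _)
  · rw [List.getD_eq_default _ _ (not_lt.1 h), size_int]; simp [size_nat]

theorem size_ent_le (M : List (List ℤ)) (i j : ℕ) : size (ent M i j) ≤ size M + 1 := by
  refine (size_getD_le _ _).trans (Nat.succ_le_succ ?_)
  by_cases h : i < M.length
  · exact size_le_of_mem (by simp [List.getD, h])
  · rw [List.getD_eq_default _ _ (not_lt.1 h)]; simp

theorem natAbs_ent_lt (M : List (List ℤ)) (i j : ℕ) : (ent M i j).natAbs < 2 ^ (size M + 1) :=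
  (natAbs_lt_two_pow _).trans_le (Nat.pow_le_pow_right two_pos (size_ent_le M i j))

theorem size_vec_le {n k : ℕ} {f : ℕ → ℤ} (h : ∀ j < n, (f j).natAbs < 2 ^ k) :
    size (vec n f) ≤ n * (4 * k + 3) := by
  have := size_list_le (vec n f) (2 * k + 1) (fun a ha => by
    obtain ⟨j, hj, rfl⟩ := List.mem_map.1 ha
    exact size_int_of_lt (h j (List.mem_range.1 hj)))
  rw [length_vec] at this
  exact this.trans (le_of_eq (by ring))

theorem size_mat_le {l n k : ℕ} {f : ℕ → ℕ → ℤ} (h : ∀ i < l, ∀ j < n, (f i j).natAbs < 2 ^ k) :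
    size (mat l n f) ≤ l * (2 * (n * (4 * k + 3)) + 1) := by
  have := size_list_le (mat l n f) (n * (4 * k + 3)) (fun a ha => by
    obtain ⟨i, hi, rfl⟩ := List.mem_map.1 ha
    exact size_vec_le (h i (List.mem_range.1 hi)))
  rwa [length_mat] at this

section forms

variable {A : Type} [AddCommGroup A]

theorem val_eq_sum (q : List ℤ) (z : List A) {m : ℕ} (h : z.length ≤ m) :
    val q z = ∑ j ∈ range m, q.getD j 0 • z.getD j 0 := by
  induction z generalizing q m with
  | nil => simp [val]
  | cons a z ih =>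
    obtain ⟨m, rfl⟩ : ∃ m', m = m' + 1 := ⟨m - 1, by simp at h; omega⟩
    rw [Finset.sum_range_succ']
    cases q with
    | nil => simp [val]
    | cons c q =>
      have := ih q (m := m) (by simpa using h)
      simp only [val] at this ⊢
      simp only [List.zipWith_cons_cons, List.sum_cons, this, List.getD_cons_succ,
        List.getD_cons_zero]
      abel

theorem val_vec (f : ℕ → ℤ) (z : List A) {m : ℕ} (h : z.length ≤ m) :
    val (vec m f) z = ∑ j ∈ range m, f j • z.getD j 0 := by
  rw [val_eq_sum _ _ h]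
  exact Finset.sum_congr rfl fun j hj => by rw [getD_vec, if_pos (mem_range.1 hj)]

theorem val_append (q : List ℤ) (γ x : List A) :
    val q (γ ++ x) = ∑ j ∈ range γ.length, q.getD j 0 • γ.getD j 0 +
      ∑ j ∈ range x.length, q.getD (γ.length + j) 0 • x.getD j 0 := by
  rw [val_eq_sum q (γ ++ x) (m := γ.length + x.length) (by simp), Finset.sum_range_add]
  congr 1
  · exact Finset.sum_congr rfl fun j hj => by
      rw [List.getD_append _ _ _ _ (mem_range.1 hj)]
  · exact Finset.sum_congr rfl fun j _ => by
      rw [List.getD_append_right _ _ _ _ (by omega)]; simp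

/-- the values of a list of forms -/
def vals (F : List (List ℤ)) (z : List A) : List A := F.map (fun q => val q z)

@[simp] theorem length_vals (F : List (List ℤ)) (z : List A) : (vals F z).length = F.length := by
  simp [vals]

theorem getD_vals (F : List (List ℤ)) (z : List A) (i : ℕ) :
    (vals F z).getD i 0 = val (F.getD i []) z := by
  unfold vals
  by_cases h : i < F.length
  · simp [List.getD, h]
  · simp [List.getD, not_lt.1 h, val]

/-- the form `q` after substituting the forms `F` (in `m` variables) for its variables -/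
def lin (m : ℕ) (q : List ℤ) (F : List (List ℤ)) : List ℤ :=
  vec m (fun j => ∑ i ∈ range F.length, q.getD i 0 * ent F i j)

theorem val_lin (q : List ℤ) (F : List (List ℤ)) (z : List A) {m : ℕ} (h : z.length ≤ m) :
    val (lin m q F) z = val q (vals F z) := by
  rw [lin, val_vec _ _ h, val_eq_sum q (vals F z) (m := F.length) (by simp)]
  simp only [Finset.sum_smul, getD_vals]
  rw [Finset.sum_comm]
  refine Finset.sum_congr rfl fun i _ => ?_
  rw [val_eq_sum _ z h, Finset.smul_sum]
  exact Finset.sum_congr rfl fun j _ => by rw [mul_smul]; rfl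

/-- the form that reads coordinate `i` -/
def unit (i : ℕ) : List ℤ := List.replicate i 0 ++ [1]

theorem getD_unit (i j : ℕ) : (unit i).getD j 0 = if j = i then 1 else 0 := by
  unfold unit
  rcases lt_trichotomy j i with h | h | h
  · rw [List.getD_append _ _ _ _ (by simpa using h), if_neg h.ne]; simp [List.getD, h]
  · subst h; rw [List.getD_append_right _ _ _ _ (by simp)]; simp
  · rw [List.getD_eq_default _ _ (by simp; omega), if_neg h.ne']

theorem val_unit (i : ℕ) (z : List A) : val (unit i) z = z.getD i 0 := by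
  rw [val_eq_sum _ z (m := z.length + i + 1) (by omega)]
  simp only [getD_unit, ite_smul, one_smul, zero_smul]
  rw [Finset.sum_ite_eq' _ i, if_pos (mem_range.2 (by omega))]

/-- the forms that read the `n` coordinates from `o` on -/
def units (o n : ℕ) : List (List ℤ) := (List.range n).map (fun i => unit (o + i))

theorem vals_units (u x v : List A) : vals (units u.length x.length) (u ++ (x ++ v)) = x := by
  refine List.ext_getElem (by simp [units]) fun i h1 h2 => ?_
  simp only [vals, units, List.map_map, List.getElem_map, List.getElem_range,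
    Function.comp_apply, val_unit]
  rw [List.getD_append_right _ _ _ _ (by omega), Nat.add_sub_cancel_left,
    List.getD_append _ _ _ _ h2]
  simp [List.getD, h2]

end forms

section pt

variable {α : Type} [Enc α]

@[fun_prop] theorem pt_lin {m : α → ℕ} {q : α → List ℤ} {F : α → List (List ℤ)} (hm : PT m)
    (hb : PB m) (hq : PT q) (hF : PT F) : PT (fun x => lin (m x) (q x) (F x)) := by
  unfold lin; fun_prop

@[fun_prop] theorem pt_unit {i : α → ℕ} (hi : PT i) (hb : PB i) : PT (fun x => unit (i x)) := by
  unfold unit; fun_prop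

@[fun_prop] theorem pt_units {o n : α → ℕ} (ho : PT o) (hbo : PB o) (hn : PT n) (hb : PB n) :
    PT (fun x => units (o x) (n x)) := by
  have h1 := PT.replicate ho hbo (PT.const (0 : ℤ))
  have h2 := PT.replicate hn hb (PT.const (0 : ℤ))
  have h : PT (fun x => (List.range (n x)).map
      (fun i => List.replicate (o x) (0 : ℤ) ++ (List.replicate (n x) (0 : ℤ)).take i ++ [1])) :=
    PT.map (((h1.comp' PT.id'.fst).append (PT.take PT.id'.snd (h2.comp' PT.id'.fst))).append
      (PT.const _)) (PT.range hn hb)
  refine h.of_eq fun x => List.map_congr_left fun i hi => ?_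
  rw [List.take_replicate, min_eq_left (List.mem_range.1 hi).le, unit, List.replicate_add]

end pt

end Pool.Agent.MP_8a92de_lc.H43

/-! Polynomial-time functionals that are uniform in an oracle for integer forms. -/

namespace Pool.Agent.MP_8a92de_lc.H43

open Pool.Agent.Lib.Cx

/-- oracles -/
abbrev Orc : Type := List ℤ → Bool

/-- polynomial-time oracle functionals (one machine for all oracles) -/
def UO {α β : Type} [Enc α] [Enc β] (F : Orc → α → β) : Prop :=
  ∃ (p : Polynomial ℕ) (Q : α × List Bool → List ℤ) (out : α × List Bool → β), PT Q ∧ PT out ∧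
    ∀ R x, F R x = out (x, answers R (fun a => Q (x, a)) (p.eval (size x)))

section ans

variable (R : Orc) (Q : List Bool → List ℤ)

theorem answers_zero : answers R Q 0 = [] := rfl

theorem answers_succ (k : ℕ) : answers R Q (k + 1) = answers R Q k ++ [R (Q (answers R Q k))] := by
  unfold answers
  rw [Function.iterate_succ_apply']

theorem answers_length (k : ℕ) : (answers R Q k).length = k := by
  induction k with
  | zero => rfl
  | succ k ih => rw [answers_succ]; simp [ih]

theorem answers_take {k k' : ℕ} (h : k ≤ k') : (answers R Q k').take k = answers R Q k := by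
  induction k', h using Nat.le_induction with
  | base => rw [List.take_of_length_le (by rw [answers_length])]
  | succ k' h ih =>
    rw [answers_succ, List.take_append_of_le_length (by rw [answers_length]; exact h), ih]

end ans

variable {α β γ δ : Type} [Enc α] [Enc β] [Enc γ] [Enc δ]

namespace UO

theorem intro {n : α → ℕ} {Q : α × List Bool → List ℤ} {out : α × List Bool → β}
    {F : Orc → α → β} (hn : PT n) (hb : PB n) (hQ : PT Q) (ho : PT out)
    (h : ∀ R x, F R x = out (x, answers R (fun a => Q (x, a)) (n x))) : UO F := by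
  obtain ⟨p, hp⟩ := hb
  refine ⟨p, Q, fun z => out (z.1, z.2.take (n z.1)), hQ, by fun_prop, fun R x => ?_⟩
  change _ = out (x, (answers R _ (p.eval (size x))).take (n x))
  rw [answers_take R _ (hp x), h]

theorem of_eq {F G : Orc → α → β} (h : UO F) (e : ∀ R x, G R x = F R x) : UO G := by
  rw [show G = F from funext fun R => funext (e R)]; exact h

theorem of_pt {f : α → β} (h : PT f) : UO (fun _ x => f x) :=
  intro (n := fun _ => 0) (Q := fun _ => []) (out := fun z => f z.1) (by fun_prop) (by fun_prop)
    (by fun_prop) (by fun_prop) (fun _ _ => rfl)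

/-- the list of answers itself -/
theorem answers' {n : α → ℕ} {Q : α × List Bool → List ℤ} (hn : PT n) (hb : PB n) (hQ : PT Q) :
    UO (fun R x => answers R (fun a => Q (x, a)) (n x)) :=
  intro (out := fun z => z.2) hn hb hQ (by fun_prop) (fun _ _ => rfl)

theorem keep {F : Orc → α → β} (h : UO F) : UO (fun R x => (x, F R x)) := by
  obtain ⟨p, Q, out, hQ, ho, h⟩ := h
  exact ⟨p, Q, fun z => (z.1, out z), hQ, by fun_prop, fun R x => by simp only [h]⟩

/-- the size of the output is polynomially bounded, uniformly in the oracle -/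
theorem pb {F : Orc → α → β} (h : UO F) :
    ∃ s : Polynomial ℕ, ∀ R x, size (F R x) ≤ s.eval (size x) := by
  obtain ⟨p, Q, out, hQ, ho, h⟩ := h
  obtain ⟨N, ⟨s, hs⟩, hb⟩ := (PB.size' ho).uniform (M := fun x : α => 3 * p.eval (size x))
    (by fun_prop)
  refine ⟨s, fun R x => le_trans ?_ (hs x)⟩
  rw [h]
  exact hb x _ (by rw [size_listBool, answers_length])

theorem comp {G : Orc → β → γ} {F : Orc → α → β} (hg : UO G) (hf : UO F) :
    UO (fun R x => G R (F R x)) := by
  obtain ⟨s, hs⟩ := hf.pb
  obtain ⟨p1, Q1, o1, hQ1, ho1, h1⟩ := hf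
  obtain ⟨p2, Q2, o2, hQ2, ho2, h2⟩ := hg
  let n1 : α → ℕ := fun x => p1.eval (size x)
  have hn1 : PT n1 := by fun_prop
  let Q : α × List Bool → List ℤ := fun z =>
    if z.2.length < n1 z.1 then Q1 z else Q2 (o1 (z.1, z.2.take (n1 z.1)), z.2.drop (n1 z.1))
  have a1 : ∀ R x k, k ≤ n1 x →
      answers R (fun a => Q (x, a)) k = answers R (fun a => Q1 (x, a)) k := by
    intro R x k hk
    induction k with
    | zero => rfl
    | succ k ih =>
      rw [answers_succ, answers_succ, ih (by omega)]
      simp only [Q]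
      rw [if_pos (by rw [answers_length]; omega)]
  have a2 : ∀ R x k, answers R (fun a => Q (x, a)) (n1 x + k) =
      answers R (fun a => Q1 (x, a)) (n1 x) ++ answers R (fun a => Q2 (F R x, a)) k := by
    intro R x k
    induction k with
    | zero => simp [a1 R x _ le_rfl, answers_zero]
    | succ k ih =>
      rw [← add_assoc, answers_succ, ih, answers_succ R (fun a => Q2 (F R x, a)),
        ← List.append_assoc]
      simp only [Q]
      rw [if_neg (by simp [answers_length]), List.take_left' (answers_length _ _ _),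
        List.drop_left' (answers_length _ _ _), ← h1]
  refine intro (n := fun x => n1 x + p2.eval (s.eval (size x))) (Q := Q)
    (out := fun z => o2 (o1 (z.1, z.2.take (n1 z.1)),
      (z.2.drop (n1 z.1)).take (p2.eval (size (o1 (z.1, z.2.take (n1 z.1)))))))
    (by fun_prop) (by simp only [n1]; fun_prop) (by simp only [Q]; fun_prop) (by fun_prop)
    fun R x => ?_
  simp only
  rw [a2, List.take_left' (answers_length _ _ _), List.drop_left' (answers_length _ _ _),
    ← h1, answers_take _ _ (eval_mono p2 (hs R x)), h2]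

theorem post {g : β → γ} {F : Orc → α → β} (hg : PT g) (hf : UO F) :
    UO (fun R x => g (F R x)) := comp (G := fun _ y => g y) (of_pt hg) hf

theorem pre {G : Orc → β → γ} {f : α → β} (hg : UO G) (hf : PT f) :
    UO (fun R x => G R (f x)) := comp (F := fun _ x => f x) hg (of_pt hf)

theorem pair {F : Orc → α → β} {G : Orc → α → γ} (hf : UO F) (hg : UO G) :
    UO (fun R x => (F R x, G R x)) := by
  have h1 : UO (fun R (z : α × β) => (z, G R z.1)) :=
    (hg.pre (f := fun z : α × β => z.1) (by fun_prop)).keep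
  exact post (g := fun w : (α × β) × γ => (w.1.2, w.2)) (by fun_prop) (h1.comp hf.keep)

/-- one query -/
theorem query {q : α → List ℤ} (hq : PT q) : UO (fun R x => R (q x)) :=
  intro (n := fun _ => 1) (Q := fun z => q z.1) (out := fun z => z.2.headD false)
    (by fun_prop) (by fun_prop) (by fun_prop) (by fun_prop) (fun _ _ => rfl)

/-- the queries are rewritten by a polynomial-time map with a parameter -/
theorem subst {G : Orc → α → β} (hG : UO G) {s : δ × List ℤ → List ℤ} (hs : PT s) :
    UO (fun R (z : α × δ) => G (fun q => R (s (z.2, q))) z.1) := by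
  obtain ⟨p, Q, out, hQ, ho, h⟩ := hG
  exact intro (n := fun z : α × δ => p.eval (size z.1))
    (Q := fun w => s (w.1.2, Q (w.1.1, w.2))) (out := fun w => out (w.1.1, w.2))
    (by fun_prop) (by fun_prop) (by fun_prop) (by fun_prop) (fun R z => by rw [h]; rfl)

/-- the state after `j` blocks of `m` answers -/
def blockSt (p : Polynomial ℕ) (out : (α × γ) × List Bool → γ) (c : α → γ) (M m : α → ℕ)
    (x : α) (ans : List Bool) (j : ℕ) : γ :=
  (List.range j).foldl (fun st i =>
    if size (out ((x, st), (ans.drop (i * m x)).take (p.eval (size (x, st))))) ≤ M x then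
      out ((x, st), (ans.drop (i * m x)).take (p.eval (size (x, st)))) else c x) (c x)

theorem iterate {step : Orc → α × γ → γ} {n : α → ℕ} {c : α → γ} (hs : UO step) (hn : PT n)
    (hb : PB n) (hc : PT c) (M : α → ℕ) (hM : PB M)
    (h : ∀ R x i, i ≤ n x → size ((fun st => step R (x, st))^[i] (c x)) ≤ M x) :
    UO (fun R x => (fun st => step R (x, st))^[n x] (c x)) := by
  obtain ⟨p, Q, out, hQ, ho, hs⟩ := hs
  obtain ⟨s, hMs⟩ := hM
  let M' : α → ℕ := fun x => s.eval (size x)
  let m : α → ℕ := fun x => p.eval (2 * size x + 1 + M' x) + 1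
  have hM' : PT M' := by fun_prop
  have hm : PT m := by fun_prop
  have hbm : PB m := by simp only [m, M']; fun_prop
  have hst : PT (fun z : (α × List Bool) × List Bool =>
      blockSt p out c M' m z.1.1 z.1.2 z.2.length) := by
    unfold blockSt
    refine PT.foldl_inv (by fun_prop) (by fun_prop) (by fun_prop)
      (fun z st => size st ≤ M' z.1.1 + size (c z.1.1)) (fun z => by omega)
      (fun z b a _ _ => by split_ifs <;> omega) _ (by simp only [M']; fun_prop)
      (fun _ _ h => h)
  have hst' : PT (fun z : α × List Bool => blockSt p out c M' m z.1 z.2 (z.2.length / m z.1)) :=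
    (hst.comp' (f := fun z : α × List Bool => (z, z.2.take (z.2.length / m z.1)))
      (by fun_prop)).of_eq fun z => by
        simp only [List.length_take, min_eq_left (Nat.div_le_self _ _)]
  let Q' : α × List Bool → List ℤ := fun z =>
    Q ((z.1, blockSt p out c M' m z.1 z.2 (z.2.length / m z.1)),
      z.2.drop (z.2.length / m z.1 * m z.1))
  have hmpos : ∀ x, 0 < m x := fun x => Nat.succ_pos _
  have key : ∀ R x j, j ≤ n x → ∀ t, blockSt p out c M' m x
      (answers R (fun a => Q' (x, a)) (j * m x) ++ t) j =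
        (fun st => step R (x, st))^[j] (c x) := by
    intro R x j
    induction j with
    | zero => intro _ _; rfl
    | succ j ih =>
      intro hj t
      have ih' := ih (by omega)
      set st := (fun st => step R (x, st))^[j] (c x) with hstd
      have blk : ∀ r, r ≤ m x → answers R (fun a => Q' (x, a)) (j * m x + r) =
          answers R (fun a => Q' (x, a)) (j * m x) ++ answers R (fun a => Q ((x, st), a)) r := by
        intro r
        induction r with
        | zero => intro _; simp [answers_zero]
        | succ r ihr =>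
          intro hr
          rw [← add_assoc, answers_succ, ihr (by omega),
            answers_succ R (fun a => Q ((x, st), a)), ← List.append_assoc]
          have e : (answers R (fun a => Q' (x, a)) (j * m x) ++
              answers R (fun a => Q ((x, st), a)) r).length / m x = j := by
            rw [List.length_append, answers_length, answers_length, Nat.add_comm,
              Nat.add_mul_div_right _ _ (hmpos x), Nat.div_eq_of_lt (by omega), zero_add]
          simp only [Q']
          rw [e, ih', List.drop_left' (answers_length _ _ _)]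
      have hsz : size st ≤ M' x := (h R x j (by omega)).trans (hMs x)
      have hp : p.eval (size (x, st)) ≤ m x := by
        rw [size_prod]
        exact (eval_mono p (by dsimp only; omega)).trans (Nat.le_succ _)
      rw [Nat.succ_mul, blk _ le_rfl, List.append_assoc]
      unfold blockSt at ih' ⊢
      rw [List.range_succ, List.foldl_append, ih', List.foldl_cons, List.foldl_nil,
        List.drop_left' (answers_length _ _ _),
        List.take_append_of_le_length (by rw [answers_length]; exact hp),
        answers_take _ _ hp, ← hs, Function.iterate_succ_apply', if_pos]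
      have := (h R x (j + 1) hj).trans (hMs x)
      rwa [Function.iterate_succ_apply'] at this
  refine intro (n := fun x => n x * m x) (Q := Q')
    (out := fun z => blockSt p out c M' m z.1 z.2 (z.2.length / m z.1))
    (by fun_prop) (by fun_prop) (by simp only [Q']; fun_prop) hst' fun R x => ?_
  have := key R x (n x) le_rfl []
  rw [List.append_nil] at this
  simp only
  rw [answers_length, Nat.mul_div_cancel _ (hmpos x), this]

theorem map [Inhabited β] {F : Orc → α × β → γ} {l : α → List β} (hF : UO F) (hl : PT l) :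
    UO (fun R x => (l x).map (fun b => F R (x, b))) := by
  obtain ⟨s, hs⟩ := hF.pb
  have hstep : UO (fun R (z : α × List γ) =>
      z.2 ++ [F R (z.1, (l z.1).getD z.2.length default)]) :=
    post (g := fun w : (α × List γ) × γ => w.1.2 ++ [w.2]) (by fun_prop)
      (hF.pre (f := fun z : α × List γ => (z.1, (l z.1).getD z.2.length default))
        (by fun_prop)).keep
  have key : ∀ R x i, i ≤ (l x).length →
      (fun st : List γ => st ++ [F R (x, (l x).getD st.length default)])^[i] [] =
        ((l x).take i).map (fun b => F R (x, b)) := by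
    intro R x i
    induction i with
    | zero => intro _; simp
    | succ i ih =>
      intro hi
      rw [Function.iterate_succ_apply', ih (by omega), List.take_add_one, List.map_append]
      have e : i < (l x).length := hi
      simp [List.getD, e, min_eq_left e.le]
  refine (iterate (n := fun x => (l x).length) (c := fun _ => []) hstep (by fun_prop)
    (by fun_prop) (by fun_prop)
    (fun x => (l x).length * (2 * s.eval (2 * size x + 1 + size (l x)) + 1)) (by fun_prop)
    fun R x i hi => ?_).of_eq fun R x => ?_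
  · rw [key R x i hi]
    refine (size_list_le _ (s.eval (2 * size x + 1 + size (l x))) fun a ha => ?_).trans
      (Nat.mul_le_mul_right _ (by simp))
    obtain ⟨b, hb, rfl⟩ := List.mem_map.1 ha
    refine (hs R _).trans (eval_mono s ?_)
    have := size_le_of_mem (List.mem_of_mem_take hb)
    rw [size_prod]
    dsimp only
    omega
  · rw [key R x _ le_rfl, List.take_length]

theorem all [Inhabited β] {F : Orc → α × β → Bool} {l : α → List β} (hF : UO F) (hl : PT l) :
    UO (fun R x => (l x).all (fun b => F R (x, b))) :=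
  (post (g := fun w : List Bool => w.all (fun b => b)) (by fun_prop) (map hF hl)).of_eq
    fun R x => by simp [List.all_map, Function.comp_def]

theorem any [Inhabited β] {F : Orc → α × β → Bool} {l : α → List β} (hF : UO F) (hl : PT l) :
    UO (fun R x => (l x).any (fun b => F R (x, b))) :=
  (post (g := fun w : List Bool => w.any (fun b => b)) (by fun_prop) (map hF hl)).of_eq
    fun R x => by simp [List.any_map, Function.comp_def]

theorem find? [Inhabited β] {F : Orc → α × β → Bool} {l : α → List β} (hF : UO F) (hl : PT l) :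
    UO (fun R x => (l x).find? (fun b => F R (x, b))) :=
  (post (g := fun w : List ((α × β) × Bool) => (w.find? (fun b => b.2)).map (fun b => b.1.2))
    (by fun_prop) (map hF.keep hl)).of_eq
    fun R x => by simp [List.find?_map, Function.comp_def]

theorem cond {C : Orc → α → Bool} {F G : Orc → α → β} (hC : UO C) (hF : UO F) (hG : UO G) :
    UO (fun R x => if C R x = true then F R x else G R x) :=
  post (g := fun w : Bool × β × β => if w.1 = true then w.2.1 else w.2.2) (by fun_prop)
    (hC.pair (hF.pair hG))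

end UO

end Pool.Agent.MP_8a92de_lc.H43

/-! The model in terms of uniform functionals. -/

namespace Pool.Agent.MP_8a92de_lc.H43

open Pool.Agent.Lib.Cx

variable {A : Type} [AddCommGroup A]

open Classical in
/-- the true oracle of the vector `z` -/
noncomputable def orc (z : List A) : Orc := fun q => decide (val q z = 0)

theorem orc_true {z : List A} {q : List ℤ} : orc z q = true ↔ val q z = 0 := by simp [orc]

theorem orc_false {z : List A} {q : List ℤ} : orc z q = false ↔ val q z ≠ 0 := by simp [orc]

/-- unary numbers -/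
def un (n : ℕ) : List Bool := List.replicate n true

@[simp] theorem length_un (n : ℕ) : (un n).length = n := by simp [un]

@[fun_prop] theorem pt_un {α : Type} [Enc α] {n : α → ℕ} (hn : PT n) (hb : PB n) :
    PT (fun x => un (n x)) := by unfold un; fun_prop

/-- classical-valued maps computed by additive machines -/
def AddF {β : Type} [Enc β] (c : List A → β) : Prop :=
  ∃ (γ : List A) (Φ : Orc → List Bool → β), UO Φ ∧ ∀ x, c x = Φ (orc (γ ++ x)) (un x.length)

theorem addPT_iff {f : List A → List A} : AddPT f ↔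
    ∃ (γ : List A) (Φ : Orc → List Bool → List (List ℤ)), UO Φ ∧
      ∀ x, f x = vals (Φ (orc (γ ++ x)) (un x.length)) (γ ++ x) := by
  constructor
  · rintro ⟨γ, p, Q, out, hQ, ho, h⟩
    refine ⟨γ, fun R u => out (u, answers R (fun a => Q (u, a)) (p.eval u.length)),
      UO.intro (n := fun u => p.eval u.length) (by fun_prop) (by fun_prop)
        (PT.of_isPolyTime hQ) (PT.of_isPolyTime ho) (fun _ _ => rfl), fun x => ?_⟩
    rw [h x]
    simp only [length_un]
    rfl
  · rintro ⟨γ, Φ, ⟨p, Q, out, hQ, ho, hΦ⟩, h⟩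
    refine ⟨γ, p.comp (3 * Polynomial.X), Q, out, hQ.isPolyTime, ho.isPolyTime, fun x => ?_⟩
    rw [h x, hΦ, size_listBool, length_un]
    simp only [Polynomial.eval_comp, Polynomial.eval_mul, Polynomial.eval_X,
      Polynomial.eval_ofNat]
    rfl

end Pool.Agent.MP_8a92de_lc.H43

namespace Pool.Agent.MP_8a92de_lc.H43

open Pool.Agent.Lib.Cx Finset

variable {A : Type} [AddCommGroup A] {β γ : Type} [Enc β] [Enc γ]

theorem vals_append (F G : List (List ℤ)) (z : List A) :
    vals (F ++ G) z = vals F z ++ vals G z := by simp [vals]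

theorem orc_lin (F : List (List ℤ)) (z : List A) {m : ℕ} (h : z.length ≤ m) :
    (fun q => orc z (lin m q F)) = orc (vals F z) := by
  funext q
  unfold orc
  rw [val_lin q F z h]

theorem vals_lin (G F : List (List ℤ)) (z : List A) {m : ℕ} (h : z.length ≤ m) :
    vals (G.map (fun q => lin m q F)) z = vals G (vals F z) := by
  unfold vals
  rw [List.map_map]
  exact List.map_congr_left fun q _ => val_lin q F z h

theorem vals_emb (δ Γ ε x : List A) :
    vals (units δ.length Γ.length ++ units (δ ++ (Γ ++ ε)).length x.length)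
      ((δ ++ (Γ ++ ε)) ++ x) = Γ ++ x := by
  rw [vals_append]
  congr 1
  · rw [List.append_assoc, List.append_assoc, vals_units]
  · have := vals_units (δ ++ (Γ ++ ε)) x []
    rwa [List.append_nil] at this

/-- running a functional on the values of a list of forms -/
theorem uo_on {Φ : Orc → List Bool → β} (hΦ : UO Φ) (K : ℕ) :
    UO (fun R (w : List Bool × (List Bool × List (List ℤ))) =>
      Φ (fun q => R (lin (K + w.2.1.length) q w.2.2)) w.1) :=
  hΦ.subst (s := fun v : (List Bool × List (List ℤ)) × List ℤ =>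
    lin (K + v.1.1.length) v.2 v.1.2) (by fun_prop)

theorem extF {Φ : Orc → List Bool → β} (hΦ : UO Φ) (δ Γ ε : List A) :
    ∃ Φ' : Orc → List Bool → β, UO Φ' ∧ ∀ x : List A,
      Φ' (orc ((δ ++ (Γ ++ ε)) ++ x)) (un x.length) = Φ (orc (Γ ++ x)) (un x.length) := by
  refine ⟨_, (uo_on hΦ (δ ++ (Γ ++ ε)).length).pre (f := fun u : List Bool =>
    (u, (u, units δ.length Γ.length ++ units (δ ++ (Γ ++ ε)).length u.length))) (by fun_prop),
    fun x => ?_⟩
  simp only [length_un]
  rw [orc_lin _ _ (by rw [List.length_append]), vals_emb]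

theorem extT {Φ : Orc → List Bool → List (List ℤ)} (hΦ : UO Φ) (δ Γ ε : List A) :
    ∃ Φ' : Orc → List Bool → List (List ℤ), UO Φ' ∧ ∀ x : List A,
      vals (Φ' (orc ((δ ++ (Γ ++ ε)) ++ x)) (un x.length)) ((δ ++ (Γ ++ ε)) ++ x) =
        vals (Φ (orc (Γ ++ x)) (un x.length)) (Γ ++ x) := by
  obtain ⟨Φ', h1, h2⟩ := extF hΦ δ Γ ε
  refine ⟨_, UO.post (g := fun w : List Bool × List (List ℤ) => w.2.map (fun q =>
    lin ((δ ++ (Γ ++ ε)).length + w.1.length) q
      (units δ.length Γ.length ++ units (δ ++ (Γ ++ ε)).length w.1.length))) (by fun_prop)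
    h1.keep, fun x => ?_⟩
  simp only [length_un]
  rw [vals_lin _ _ _ (by rw [List.length_append]), vals_emb, h2]

theorem AddPT.id' : AddPT (fun x : List A => x) := by
  refine addPT_iff.2 ⟨[], fun _ u => units 0 u.length, UO.of_pt (by fun_prop), fun x => ?_⟩
  have := vals_units ([] : List A) x []
  rw [List.append_nil] at this
  simp only [length_un]
  exact this.symm

theorem AddPT.const (c : List A) : AddPT (fun _ : List A => c) :=
  addPT_iff.2 ⟨c, fun _ _ => units 0 c.length, UO.of_pt (PT.const _),
    fun x => (vals_units ([] : List A) c x).symm⟩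

theorem comp_aux {Φ : Orc → List Bool → β} (hΦ : UO Φ) (Γ₂ : List A) {f : List A → List A}
    (hf : AddPT f) : ∃ (Γ : List A) (Ψ : Orc → List Bool → β × List (List ℤ)), UO Ψ ∧ ∀ x,
      (Ψ (orc (Γ ++ x)) (un x.length)).1 = Φ (orc (Γ₂ ++ f x)) (un (f x).length) ∧
      vals (Ψ (orc (Γ ++ x)) (un x.length)).2 (Γ ++ x) = Γ₂ ++ f x := by
  obtain ⟨Γ₁, Φ₁, h1, e1⟩ := addPT_iff.1 hf
  obtain ⟨F, hF, eF⟩ := extT h1 Γ₂ Γ₁ []
  have h2 := UO.post (g := fun w : List Bool × List (List ℤ) =>
    (un w.2.length, (w.1, units 0 Γ₂.length ++ w.2))) (by fun_prop) hF.keep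
  have h3 := ((uo_on hΦ (Γ₂ ++ (Γ₁ ++ [])).length).keep).comp h2
  refine ⟨Γ₂ ++ (Γ₁ ++ []), _, UO.post (g := fun w :
    (List Bool × (List Bool × List (List ℤ))) × β => (w.2, w.1.2.2)) (by fun_prop) h3,
    fun x => ?_⟩
  have e2 : vals (units 0 Γ₂.length ++ F (orc ((Γ₂ ++ (Γ₁ ++ [])) ++ x)) (un x.length))
      ((Γ₂ ++ (Γ₁ ++ [])) ++ x) = Γ₂ ++ f x := by
    rw [vals_append, eF, ← e1]
    congr 1
    rw [List.append_assoc]
    exact vals_units ([] : List A) Γ₂ _
  refine ⟨?_, e2⟩
  have e3 : (F (orc ((Γ₂ ++ (Γ₁ ++ [])) ++ x)) (un x.length)).length = (f x).length := by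
    rw [e1 x, ← eF, length_vals]
  simp only [length_un]
  rw [orc_lin _ _ (by rw [List.length_append]), e2, e3]

theorem AddPT.comp {f g : List A → List A} (hg : AddPT g) (hf : AddPT f) :
    AddPT (fun x => g (f x)) := by
  obtain ⟨Γ₂, Φ, hΦ, e⟩ := addPT_iff.1 hg
  obtain ⟨Γ, Ψ, hΨ, h⟩ := comp_aux hΦ Γ₂ hf
  refine addPT_iff.2 ⟨Γ, _, UO.post (g := fun w : List Bool × List (List ℤ) × List (List ℤ) =>
    w.2.1.map (fun q => lin (Γ.length + w.1.length) q w.2.2)) (by fun_prop) hΨ.keep, fun x => ?_⟩
  simp only [length_un]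
  rw [vals_lin _ _ _ (by rw [List.length_append]), (h x).1, (h x).2, ← e]

theorem AddF.comp {c : List A → β} {f : List A → List A} (hc : AddF c) (hf : AddPT f) :
    AddF (fun x => c (f x)) := by
  obtain ⟨Γ₂, Φ, hΦ, e⟩ := hc
  obtain ⟨Γ, Ψ, hΨ, h⟩ := comp_aux hΦ Γ₂ hf
  exact ⟨Γ, _, UO.post (g := fun w : β × List (List ℤ) => w.1) (by fun_prop) hΨ,
    fun x => by rw [(h x).1, ← e]⟩

theorem AddF.post {c : List A → β} {g : β → γ} (hg : PT g) (hc : AddF c) :
    AddF (fun x => g (c x)) := by
  obtain ⟨Γ, Φ, hΦ, e⟩ := hc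
  exact ⟨Γ, _, UO.post hg hΦ, fun x => by rw [← e]⟩

theorem AddF.pair {c : List A → β} {d : List A → γ} (hc : AddF c) (hd : AddF d) :
    AddF (fun x => (c x, d x)) := by
  obtain ⟨Γ₁, Φ₁, h1, e1⟩ := hc
  obtain ⟨Γ₂, Φ₂, h2, e2⟩ := hd
  obtain ⟨F₁, g1, k1⟩ := extF h1 [] Γ₁ Γ₂
  obtain ⟨F₂, g2, k2⟩ := extF h2 Γ₁ Γ₂ []
  simp only [List.nil_append, List.append_nil] at k1 k2
  exact ⟨Γ₁ ++ Γ₂, _, g1.pair g2, fun x => by rw [k1, k2, ← e1, ← e2]⟩

theorem AddPT.cond {c : List A → Bool} {f g : List A → List A} (hc : AddF c) (hf : AddPT f)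
    (hg : AddPT g) : AddPT (fun x => if c x = true then f x else g x) := by
  obtain ⟨Γ₀, Φ₀, h0, e0⟩ := hc
  obtain ⟨Γ₁, Φ₁, h1, e1⟩ := addPT_iff.1 hf
  obtain ⟨Γ₂, Φ₂, h2, e2⟩ := addPT_iff.1 hg
  obtain ⟨F₀, g0, k0⟩ := extF h0 [] Γ₀ (Γ₁ ++ Γ₂)
  obtain ⟨F₁, g1, k1⟩ := extT h1 Γ₀ Γ₁ Γ₂
  obtain ⟨F₂, g2, k2⟩ := extT h2 (Γ₀ ++ Γ₁) Γ₂ []
  rw [List.nil_append] at k0
  rw [List.append_nil, List.append_assoc Γ₀ Γ₁ Γ₂] at k2
  refine addPT_iff.2 ⟨Γ₀ ++ (Γ₁ ++ Γ₂), _, UO.cond g0 g1 g2, fun x => ?_⟩
  simp only [k0, ← e0]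
  split_ifs
  · rw [k1, ← e1]
  · rw [k2, ← e2]

open Classical in
theorem AddF.eq {f g : List A → List A} (hf : AddPT f) (hg : AddPT g) :
    AddF (fun x => decide (f x = g x)) := by
  obtain ⟨Γ₁, Φ₁, h1, e1⟩ := addPT_iff.1 hf
  obtain ⟨Γ₂, Φ₂, h2, e2⟩ := addPT_iff.1 hg
  obtain ⟨F₁, g1, k1⟩ := extT h1 [] Γ₁ Γ₂
  obtain ⟨F₂, g2, k2⟩ := extT h2 Γ₁ Γ₂ []
  simp only [List.nil_append, List.append_nil] at k1 k2
  have t1 : UO (fun R (w : List Bool × List (List ℤ) × List (List ℤ)) =>
      (List.range w.2.1.length).all (fun i => R (vec ((Γ₁ ++ Γ₂).length + w.1.length)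
        (fun j => ent w.2.1 i j - ent w.2.2 i j)))) :=
    UO.all (F := fun R (v : (List Bool × List (List ℤ) × List (List ℤ)) × ℕ) =>
      R (vec ((Γ₁ ++ Γ₂).length + v.1.1.length) (fun j => ent v.1.2.1 v.2 j - ent v.1.2.2 v.2 j)))
      (UO.query (by fun_prop)) (by fun_prop)
  have t2 := UO.post (g := fun v : (List Bool × List (List ℤ) × List (List ℤ)) × Bool =>
    decide (v.1.2.1.length = v.1.2.2.length) && v.2) (by fun_prop) t1.keep
  refine ⟨Γ₁ ++ Γ₂, _, t2.comp (g1.pair g2).keep, fun x => ?_⟩
  simp only [length_un]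
  rw [e1 x, e2 x, ← k1, ← k2]
  generalize F₁ (orc (Γ₁ ++ Γ₂ ++ x)) (un x.length) = P
  generalize F₂ (orc (Γ₁ ++ Γ₂ ++ x)) (un x.length) = P'
  rw [← List.length_append]
  generalize Γ₁ ++ Γ₂ ++ x = z
  have key : ∀ i, val (vec z.length (fun j => ent P i j - ent P' i j)) z =
      (vals P z).getD i 0 - (vals P' z).getD i 0 := fun i => by
    rw [val_vec _ _ le_rfl, getD_vals, getD_vals, val_eq_sum _ z le_rfl, val_eq_sum _ z le_rfl,
      ← Finset.sum_sub_distrib]
    exact Finset.sum_congr rfl fun j _ => by rw [sub_smul]; rfl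
  rw [Bool.eq_iff_iff]
  simp only [decide_eq_true_eq, Bool.and_eq_true, List.all_eq_true, List.mem_range, orc_true, key,
    sub_eq_zero]
  constructor
  · intro h
    exact ⟨by simpa using congrArg List.length h, fun i _ => by rw [h]⟩
  · rintro ⟨h, h'⟩
    refine List.ext_getElem (by simpa using h) fun i hi hi' => ?_
    have := h' i (by simpa using hi)
    rwa [List.getD_eq_getElem _ _ hi, List.getD_eq_getElem _ _ hi'] at this

end Pool.Agent.MP_8a92de_lc.H43

/-! Iteration of length-non-increasing maps of the model. -/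

namespace Pool.Agent.MP_8a92de_lc.H43

open Pool.Agent.Lib.Cx Finset

variable {A : Type} [AddCommGroup A]

/-- One step on the forms that describe the current vector. -/
def itStep (Φ : Orc → List Bool → List (List ℤ)) (k : ℕ) (R : Orc)
    (z : List Bool × List (List ℤ)) : List (List ℤ) :=
  ((Φ (fun q => R (lin (k + z.1.length) q (units 0 k ++ z.2))) (un z.2.length)).map
    (fun q => lin (k + z.1.length) q (units 0 k ++ z.2))).take z.1.length

theorem it_uo {Φ : Orc → List Bool → List (List ℤ)} (h : UO Φ) (k : ℕ) : UO (itStep Φ k) :=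
  UO.post (g := fun w : (List Bool × List (List ℤ)) × List (List ℤ) =>
      (w.2.map (fun q => lin (k + w.1.1.length) q (units 0 k ++ w.1.2))).take w.1.1.length)
    (by fun_prop)
    ((h.subst (s := fun w : (List Bool × List (List ℤ)) × List ℤ =>
      lin (k + w.1.1.length) w.2 (units 0 k ++ w.1.2)) (by fun_prop)).pre
      (f := fun z : List Bool × List (List ℤ) => (un z.2.length, z)) (by fun_prop)).keep

theorem it_getD {q : List ℤ} {b : ℕ} (h : ∀ a ∈ q, a.natAbs < 2 ^ b) (j : ℕ) :
    (q.getD j 0).natAbs < 2 ^ b := by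
  by_cases hj : j < q.length
  · exact h _ (by simp [List.getD, hj])
  · rw [List.getD_eq_default _ _ (not_lt.1 hj)]
    exact Nat.two_pow_pos b

theorem it_ent {M : List (List ℤ)} {b : ℕ} (h : ∀ q ∈ M, ∀ a ∈ q, a.natAbs < 2 ^ b) (i j : ℕ) :
    (ent M i j).natAbs < 2 ^ b := by
  refine it_getD ?_ j
  by_cases hi : i < M.length
  · exact h _ (by simp [List.getD, hi])
  · rw [List.getD_eq_default _ _ (not_lt.1 hi)]
    simp

theorem it_units {o n b : ℕ} (hb : 1 ≤ b) {q : List ℤ} (h : q ∈ units o n) :
    q.length ≤ o + n ∧ ∀ a ∈ q, a.natAbs < 2 ^ b := by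
  obtain ⟨i, hi, rfl⟩ := List.mem_map.1 h
  have h1 := List.mem_range.1 hi
  have h2 : 1 < 2 ^ b := Nat.one_lt_two_pow (by omega)
  refine ⟨by simp [unit]; omega, fun a ha => ?_⟩
  rcases List.mem_append.1 ha with h3 | h3
  · rw [List.eq_of_mem_replicate h3]
    exact Nat.two_pow_pos b
  · rw [List.mem_singleton.1 h3]
    exact h2

theorem it_lin {m b S : ℕ} {q : List ℤ} {F : List (List ℤ)} (hF : F.length ≤ m) (hq : size q ≤ S)
    (h : ∀ r ∈ F, ∀ a ∈ r, a.natAbs < 2 ^ b) :
    (lin m q F).length ≤ m ∧ ∀ a ∈ lin m q F, a.natAbs < 2 ^ (b + (m + S + 1)) := by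
  refine ⟨by simp [lin], fun a ha => ?_⟩
  obtain ⟨j, -, rfl⟩ := List.mem_map.1 ha
  have h1 : ∀ i ∈ range F.length, (q.getD i 0 * ent F i j).natAbs ≤ 2 ^ (S + 1) * 2 ^ b := by
    intro i _
    rw [Int.natAbs_mul]
    exact Nat.mul_le_mul ((natAbs_lt_two_pow _).le.trans (Nat.pow_le_pow_right two_pos
      ((size_getD_le q i).trans (by omega)))) (it_ent h i j).le
  refine ((Int.natAbs_sum_le _ _).trans (sum_le_card_nsmul _ _ _ h1)).trans_lt ?_
  rw [card_range, smul_eq_mul, show 2 ^ (b + (m + S + 1)) = 2 ^ m * (2 ^ (S + 1) * 2 ^ b) by ring]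
  exact Nat.mul_lt_mul_of_pos_right (hF.trans_lt Nat.lt_two_pow_self) (by positivity)

theorem it_inv {Φ : Orc → List Bool → List (List ℤ)} {s : Polynomial ℕ}
    (hs : ∀ R x, size (Φ R x) ≤ s.eval (size x)) (k : ℕ) (R : Orc) (u : List Bool) (i : ℕ) :
    ((fun st => itStep Φ k R (u, st))^[i] (units k u.length)).length ≤ u.length ∧
      ∀ q ∈ (fun st => itStep Φ k R (u, st))^[i] (units k u.length), q.length ≤ k + u.length ∧
        ∀ a ∈ q, a.natAbs < 2 ^ (1 + i * (k + u.length + s.eval (3 * u.length) + 1)) := by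
  induction i with
  | zero => exact ⟨by simp [units], fun q hq => it_units (by omega) hq⟩
  | succ i ih =>
    rw [Function.iterate_succ_apply']
    generalize (fun st => itStep Φ k R (u, st))^[i] (units k u.length) = st at ih
    refine ⟨List.length_take_le _ _, fun q hq => ?_⟩
    obtain ⟨r, hr, rfl⟩ := List.mem_map.1 (List.mem_of_mem_take hq)
    rw [Nat.succ_mul, ← add_assoc]
    refine it_lin (by simp [units, ih.1]) ((size_le_of_mem hr).trans ((hs _ _).trans
      (eval_mono s ?_))) fun r' h' => ?_
    · rw [size_listBool, length_un]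
      exact Nat.mul_le_mul_left 3 ih.1
    · exact (List.mem_append.1 h').elim (fun h1 => (it_units (by omega) h1).2)
        fun h1 => (ih.2 r' h1).2

theorem AddPT.iterate {s : List A → List A} (hs : AddPT s) (hl : ∀ x, (s x).length ≤ x.length) :
    AddPT (fun x => s^[x.length] x) := by
  obtain ⟨γ, Φ, hΦ, h⟩ := addPT_iff.1 hs
  obtain ⟨p, hp⟩ := hΦ.pb
  refine addPT_iff.2 ⟨γ, fun R u => (fun st => itStep Φ γ.length R (u, st))^[u.length]
    (units γ.length u.length), UO.iterate (it_uo hΦ γ.length) (by fun_prop) (by fun_prop)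
      (by fun_prop) (fun u => u.length * (2 * ((γ.length + u.length) * (2 * (2 * (1 + u.length *
        (γ.length + u.length + p.eval (3 * u.length) + 1)) + 1) + 1)) + 1)) (by fun_prop)
      fun R u i hi => ?_, fun x => ?_⟩
  · obtain ⟨h1, h2⟩ := it_inv hp γ.length R u i
    refine (size_list_le _ _ fun q hq => ?_).trans (Nat.mul_le_mul_right _ h1)
    refine (size_list_le _ _ fun a ha => ?_).trans (Nat.mul_le_mul_right _ (h2 q hq).1)
    exact size_int_of_lt (((h2 q hq).2 a ha).trans_le (Nat.pow_le_pow_right two_pos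
      (Nat.add_le_add_left (Nat.mul_le_mul_right _ hi) 1)))
  · have key : ∀ i, s^[i] x = vals ((fun st => itStep Φ γ.length (orc (γ ++ x))
        (un x.length, st))^[i] (units γ.length x.length)) (γ ++ x) ∧
        (s^[i] x).length ≤ x.length := by
      intro i
      induction i with
      | zero =>
        have h1 := vals_units γ x []
        rw [List.append_nil] at h1
        exact ⟨h1.symm, le_rfl⟩
      | succ i ih =>
        rw [Function.iterate_succ_apply', Function.iterate_succ_apply']
        generalize (fun st => itStep Φ γ.length (orc (γ ++ x)) (un x.length, st))^[i]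
          (units γ.length x.length) = st at ih
        generalize s^[i] x = y at ih
        have h1 : vals (units 0 γ.length ++ st) (γ ++ x) = γ ++ y := by
          have h2 := vals_units [] γ x
          rw [List.nil_append, List.length_nil] at h2
          rw [ih.1, vals, List.map_append]
          exact congrArg (· ++ vals st (γ ++ x)) h2
        have h2 : ∀ q, val (lin (γ.length + x.length) q (units 0 γ.length ++ st)) (γ ++ x) =
            val q (γ ++ y) := fun q => by rw [val_lin _ _ _ (by simp), h1]
        have h3 : st.length = y.length := by rw [ih.1, length_vals]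
        have h4 := (hl y).trans ih.2
        refine ⟨?_, h4⟩
        have h5 : (fun q => orc (γ ++ x) (lin (γ.length + x.length) q (units 0 γ.length ++ st))) =
            orc (γ ++ y) := _root_.funext fun q => by rw [orc, orc, h2]
        rw [h y, length_vals] at h4
        simp only [itStep, length_un]
        rw [h5, h3, List.take_of_length_le (by rwa [List.length_map]), h y, vals, vals,
          List.map_map]
        exact List.map_congr_left fun q _ => (h2 q).symm
    simp only [length_un]
    exact (key _).1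

end Pool.Agent.MP_8a92de_lc.H43

namespace Pool.Agent.MP_8a92de_lc.H43

open Pool.Agent.Lib.Cx Finset

variable {A : Type} [AddCommGroup A]

omit [AddCommGroup A] in
theorem cb_stab {s : List A → List A} (hs : ∀ x, s x = x ∨ (s x).length < x.length) :
    ∀ (n : ℕ) (x : List A), x.length ≤ n → s (s^[n] x) = s^[n] x := by
  intro n
  induction n with
  | zero =>
    intro x hx
    rcases hs x with h | h
    · exact h
    · omega
  | succ n ih =>
    intro x hx
    rcases hs x with h | h
    · rw [Function.iterate_fixed h, h]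
    · rw [Function.iterate_succ_apply]
      exact ih _ (by omega)

omit [AddCommGroup A] in
theorem cb_iter {s : List A → List A} (hs : ∀ x, s x = x ∨ (s x).length < x.length)
    {n : ℕ} {x : List A} (hx : x.length ≤ n) : s^[n] x = s^[x.length] x := by
  obtain ⟨m, rfl⟩ := Nat.exists_eq_add_of_le' hx
  rw [Function.iterate_add_apply, Function.iterate_fixed (cb_stab hs _ x le_rfl)]

theorem cantor_bernstein {f g f' g' : List A → List A} (hf : AddPT f) (hg : AddPT g)
    (hf' : AddPT f') (hg' : AddPT g') (lf : ∀ x, x.length < (f x).length)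
    (lg : ∀ x, x.length < (g x).length) (inf : ∀ x, f' (f x) = x) (ing : ∀ x, g' (g x) = x)
    {B B' : Set (List A)} (rf : ∀ x, x ∈ B ↔ f x ∈ B') (rg : ∀ y, y ∈ B' ↔ g y ∈ B) :
    ∃ φ : List A ≃ List A, AddPT φ ∧ AddPT φ.symm ∧ ∀ x, x ∈ B ↔ φ x ∈ B' := by
  classical
  obtain ⟨s, hsP, s1, s2, s3⟩ : ∃ s : List A → List A, AddPT s ∧
      (∀ x, g (g' x) ≠ x → s x = x) ∧ (∀ x, f (f' (g' x)) ≠ g' x → s x = x) ∧
      ∀ x, g (g' x) = x → f (f' (g' x)) = g' x → s x = f' (g' x) := by
    refine ⟨_, AddPT.cond (AddF.eq (hg.comp hg') AddPT.id')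
      (AddPT.cond (AddF.eq (hf.comp (hf'.comp hg')) hg') (hf'.comp hg') AddPT.id') AddPT.id',
      fun x h => ?_, fun x h => ?_, fun x h h' => ?_⟩
    · simp [h]
    · simp [h]
    · simp [h, h']
  have hs : ∀ x, s x = x ∨ (s x).length < x.length := by
    intro x
    by_cases h : g (g' x) = x
    · by_cases h' : f (f' (g' x)) = g' x
      · right
        have a1 := lf (f' (g' x))
        have a2 := lg (g' x)
        rw [h'] at a1
        rw [h] at a2
        rw [s3 x h h']
        omega
      · exact Or.inl (s2 x h')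
    · exact Or.inl (s1 x h)
  have hr : AddPT (fun x => s^[x.length] x) := hsP.iterate fun x => by
    rcases hs x with h | h
    · rw [h]
    · exact h.le
  obtain ⟨c, hc, c1, c2, c3⟩ : ∃ c : List A → Bool, AddF c ∧ (∀ x, c x = true → g (g' x) = x) ∧
      (∀ x, c (g (f x)) = c x) ∧ ∀ y, ¬ c (g y) = true → f (f' y) = y := by
    refine ⟨_, AddF.eq (hg.comp (hg'.comp hr)) hr, fun x h => ?_, fun x => ?_, fun y h => ?_⟩
    · by_contra h'
      rw [decide_eq_true_iff, Function.iterate_fixed (s1 x h')] at h
      exact h' h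
    · have a1 := lf x
      have a2 := lg (f x)
      have e : s (g (f x)) = x := by
        rw [s3 _ (by rw [ing]) (by rw [ing, inf]), ing, inf]
      obtain ⟨m, hm⟩ : ∃ m, (g (f x)).length = m + 1 := ⟨(g (f x)).length - 1, by omega⟩
      have e' : s^[(g (f x)).length] (g (f x)) = s^[x.length] x := by
        rw [hm, Function.iterate_succ_apply, e, cb_iter hs (by omega)]
      simp only [e']
    · by_contra h'
      apply h
      rw [decide_eq_true_iff, Function.iterate_fixed (s2 (g y) (by rwa [ing])), ing]
  refine ⟨⟨fun x => if c x = true then g' x else f x,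
    fun y => if c (g y) = true then g y else f' y, fun x => ?_, fun y => ?_⟩,
    AddPT.cond hc hg' hf, AddPT.cond (hc.comp hg) hg hf', fun x => ?_⟩
  · by_cases h : c x = true
    · simp only [h, if_true, c1 x h]
    · simp only [h, if_false, c2, inf, Bool.false_eq_true]
  · by_cases h : c (g y) = true
    · simp only [h, if_true, ing]
    · have h' : ¬ c (f' y) = true := by rwa [← c2, c3 y h]
      simp only [h, h', if_false, c3 y h, Bool.false_eq_true]
  · change x ∈ B ↔ (if c x = true then g' x else f x) ∈ B'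
    by_cases h : c x = true
    · rw [if_pos h, rg, c1 x h]
    · rw [if_neg h, rf]

end Pool.Agent.MP_8a92de_lc.H43
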