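import Pool.Agent.MP_8a92de_lc.H43.MgA

namespace Pool.Agent.MP_8a92de_lc.H43

open Pool.Agent.Lib.Cx Finset

/-- the first `n` columns of `J` are linearly independent -/
def InjCols (J : List (List ℤ)) (n : ℕ) : Prop :=
  ∀ μ : ℕ → ℤ, (∀ r < J.length, ∑ i ∈ range n, ent J r i * μ i = 0) → ∀ i < n, μ i = 0

theorem linv_inj {J : List (List ℤ)} {n : ℕ} (h : InjCols J n) (v : Fin n → ℤ)
    (hv : (Matrix.of fun (r : Fin J.length) (c : Fin n) => ent J r c).mulVec v = 0) : v = 0 := by
  funext i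
  have := h (fun j => if hj : j < n then v ⟨j, hj⟩ else 0) (fun r hr => by
    have h1 := congrFun hv ⟨r, hr⟩
    rw [Finset.sum_range]
    simpa [Matrix.mulVec, dotProduct] using h1) i i.2
  simpa using this

theorem InjCols.le_length {J : List (List ℤ)} {n : ℕ} (h : InjCols J n) : n ≤ J.length := by
  have := LinearMap.finrank_le_finrank_of_injective
    (f := (Matrix.of fun (r : Fin J.length) (c : Fin n) => ent J r c).mulVecLin)
    ((injective_iff_map_eq_zero _).2 fun v hv => linv_inj h v hv)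
  simpa using this

theorem linv_det {J : List (List ℤ)} {n : ℕ} (h : InjCols J n) :
    (Matrix.of fun (a b : Fin n) => ∑ r ∈ range J.length, ent J r a * ent J r b).det ≠ 0 := by
  intro h0
  obtain ⟨v, hv, h1⟩ := Matrix.exists_mulVec_eq_zero_iff.2 h0
  set A := Matrix.of fun (r : Fin J.length) (c : Fin n) => ent J r c with hA
  have e : (Matrix.of fun (a b : Fin n) => ∑ r ∈ range J.length, ent J r a * ent J r b) =
      A.transpose * A := by
    ext a b
    simp [hA, Matrix.mul_apply, Finset.sum_range]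
  refine hv (linv_inj h v (dotProduct_self_eq_zero.1 ?_))
  rw [e, ← Matrix.mulVec_mulVec] at h1
  have h2 := congrArg (dotProduct v) h1
  rwa [Matrix.dotProduct_mulVec, Matrix.vecMul_transpose, dotProduct_zero] at h2

open Polynomial in
theorem linv_jacobi {n : ℕ} (M : Matrix (Fin n) (Fin n) ℤ) :
    derivative M.charpoly = ∑ i, M.charmatrix.adjugate i i := by
  have h1 : ∀ i, M.charmatrix.adjugate i i = ∑ σ : Equiv.Perm (Fin n),
      ((Equiv.Perm.sign σ : ℤ) : ℤ[X]) * ((∏ j ∈ univ.erase i, M.charmatrix (σ j) j) *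
        derivative (M.charmatrix (σ i) i)) := by
    intro i
    have h2 : M.charmatrix.adjugate i i = Matrix.cramer M.charmatrix (Pi.single i 1) i := by
      rw [Matrix.cramer_eq_adjugate_mulVec]
      simp
    rw [h2, Matrix.cramer_apply, Matrix.det_apply']
    refine sum_congr rfl fun σ _ => ?_
    congr 1
    rw [← Finset.prod_erase_mul _ _ (mem_univ i), Matrix.updateCol_self]
    congr 1
    · exact prod_congr rfl fun j hj => Matrix.updateCol_ne (ne_of_mem_erase hj)
    · by_cases h : σ i = i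
      · rw [h]; simp
      · rw [Matrix.charmatrix_apply_ne _ _ _ h, Pi.single_eq_of_ne h]; simp
  rw [sum_congr rfl fun i _ => h1 i, sum_comm, Matrix.charpoly, Matrix.det_apply',
    derivative_sum]
  refine sum_congr rfl fun σ _ => ?_
  rw [derivative_mul, derivative_intCast, zero_mul, zero_add, derivative_prod_finset, mul_sum]

open Polynomial in
/-- The recursion of Faddeev and LeVerrier, without divisions. -/
theorem linv_fl {m : ℕ} (M : Matrix (Fin (m + 1)) (Fin (m + 1)) ℤ)
    (B : ℕ → Matrix (Fin (m + 1)) (Fin (m + 1)) ℤ) (h0 : B 0 = 1)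
    (hs : ∀ i : ℕ, B (i + 1) = ((i : ℤ) + 1) • (B i * M) - (B i * M).trace • 1) :
    B m * M = (-(m.factorial : ℤ) * M.charpoly.coeff 0) • 1 := by
  set Q := matPolyEquiv M.charmatrix.adjugate with hQ
  have h1 : Q * (X - C M) = M.charpoly.map (algebraMap ℤ _) := by
    rw [hQ, ← Matrix.matPolyEquiv_charmatrix, ← map_mul, Matrix.adjugate_mul, matPolyEquiv_smul_one]
    rfl
  have h2 : ∀ k, Q.coeff k = Q.coeff (k + 1) * M + M.charpoly.coeff (k + 1) • 1 := fun k => by
    have := congrArg (fun p => p.coeff (k + 1)) h1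
    simp only [coeff_mul_X_sub_C, coeff_map, Algebra.algebraMap_eq_smul_one] at this
    rw [← this]
    abel
  have h3 : Q.coeff 0 * M = -M.charpoly.coeff 0 • 1 := by
    have := congrArg (fun p => p.coeff 0) h1
    simp only [mul_coeff_zero, coeff_sub, coeff_X_zero, coeff_C_zero, zero_sub, mul_neg, coeff_map,
      Algebra.algebraMap_eq_smul_one] at this
    rw [neg_smul, ← this, neg_neg]
  have hd : M.charpoly.natDegree = m + 1 := by simp
  have h4 : ∀ j, Q.coeff (m + 1) = Q.coeff (m + 1 + j) * M ^ j := by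
    intro j
    induction j with
    | zero => simp
    | succ j ih =>
      rw [ih, h2 (m + 1 + j), coeff_eq_zero_of_natDegree_lt (p := M.charpoly) (by omega),
        zero_smul, add_zero, mul_assoc, ← pow_succ', add_assoc]
  have h5 : Q.coeff (m + 1) = 0 := by
    rw [h4 Q.natDegree, coeff_eq_zero_of_natDegree_lt (by omega), zero_mul]
  have h6 : ∀ k : ℕ, (Q.coeff k).trace = M.charpoly.coeff (k + 1) * (k + 1) := fun k => by
    rw [← coeff_derivative, linv_jacobi, finsetSum_coeff]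
    exact sum_congr rfl fun i _ => matPolyEquiv_coeff_apply _ _ _ _
  have h7 : ∀ i k : ℕ, i + k = m → B i = (i.factorial : ℤ) • Q.coeff k := by
    intro i
    induction i with
    | zero =>
      intro k hk
      have : M.charpoly.coeff (m + 1) = 1 :=
        (congrArg M.charpoly.coeff hd).symm.trans M.charpoly_monic
      rw [show k = m by omega, h0, h2, h5, this]
      simp
    | succ i ih =>
      intro k hk
      have h8 := congrArg Matrix.trace (h2 k)
      rw [h6, Matrix.trace_add, Matrix.trace_smul, Matrix.trace_one, Fintype.card_fin,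
        smul_eq_mul] at h8
      have h9 : (Q.coeff (k + 1) * M).trace = -((i : ℤ) + 1) * M.charpoly.coeff (k + 1) := by
        have : (m : ℤ) = i + 1 + k := by omega
        push_cast at h8
        rw [this] at h8
        linear_combination -h8
      rw [hs, ih (k + 1) (by omega), smul_mul_assoc, Matrix.trace_smul, h9, h2 k,
        Nat.factorial_succ]
      push_cast
      simp only [smul_eq_mul]
      module
  rw [h7 m 0 rfl, smul_mul_assoc, h3, smul_smul]
  congr 1
  ring

/-- One step of the recursion. -/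
def linvStep (n : ℕ) (M B : List (List ℤ)) (i : ℕ) : List (List ℤ) :=
  mat n n fun a b => ((i : ℤ) + 1) * ∑ c ∈ range n, ent B a c * ent M c b -
    if a = b then ∑ d ∈ range n, ∑ c ∈ range n, ent B d c * ent M c d else 0

/-- The recursion. -/
def linvIt (n : ℕ) (M : List (List ℤ)) (k : ℕ) : List (List ℤ) :=
  (List.range k).foldl (linvStep n M) (mat n n fun a b => if a = b then 1 else 0)

theorem linvIt_succ (n : ℕ) (M : List (List ℤ)) (k : ℕ) :
    linvIt n M (k + 1) = linvStep n M (linvIt n M k) k := by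
  simp [linvIt, List.range_succ]

theorem linv_sum {n : ℕ} {f : ℕ → ℤ} {K : ℤ} (h : ∀ c < n, |f c| ≤ K) :
    |∑ c ∈ range n, f c| ≤ n * K := by
  refine (abs_sum_le_sum_abs _ _).trans ?_
  have := sum_le_card_nsmul (range n) (fun c => |f c|) K fun c hc => h c (mem_range.1 hc)
  simpa using this

theorem linv_bound (n : ℕ) (M : List (List ℤ)) : ∀ k ≤ n, ∀ a b,
    |ent (linvIt n M k) a b| ≤ 2 ^ (k * (2 * n + size M + 2)) := by
  intro k
  induction k with
  | zero =>
    intro _ a b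
    simp only [linvIt, List.range_zero, List.foldl_nil, ent_mat]
    split_ifs <;> simp
  | succ k ih =>
    intro hk a b
    have h1 : ∀ c d, |ent M c d| ≤ 2 ^ (size M + 1) := fun c d => by
      have := (natAbs_ent_lt M c d).le
      rw [Int.abs_eq_natAbs]
      exact_mod_cast this
    set K : ℤ := 2 ^ (k * (2 * n + size M + 2)) * 2 ^ (size M + 1) with hK
    have K0 : 0 ≤ K := by positivity
    have h2 : ∀ a b, |∑ c ∈ range n, ent (linvIt n M k) a c * ent M c b| ≤ n * K := fun a b =>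
      linv_sum fun c _ => by
        rw [abs_mul]
        exact mul_le_mul (ih (by omega) a c) (h1 c b) (abs_nonneg _) (by positivity)
    have h3 := linv_sum (n := n) fun d _ => h2 d d
    have h4 : (n : ℤ) ≤ 2 ^ n := by exact_mod_cast Nat.lt_two_pow_self.le
    have h5 : (n : ℤ) * (n * K) ≤ 2 ^ n * (2 ^ n * K) := by gcongr
    have h6 : (2 : ℤ) ^ ((k + 1) * (2 * n + size M + 2)) = 2 * (2 ^ n * (2 ^ n * K)) := by
      rw [hK]; ring
    have h7 : |((k : ℤ) + 1) * ∑ c ∈ range n, ent (linvIt n M k) a c * ent M c b| ≤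
        n * (n * K) := by
      rw [abs_mul, abs_of_nonneg (by positivity)]
      exact mul_le_mul (by omega) (h2 a b) (abs_nonneg _) (by positivity)
    have h8 : (0 : ℤ) ≤ n * (n * K) := by positivity
    rw [linvIt_succ, linvStep, ent_mat, h6]
    split_ifs
    · linarith [abs_sub (((k : ℤ) + 1) * ∑ c ∈ range n, ent (linvIt n M k) a c * ent M c b)
        (∑ d ∈ range n, ∑ c ∈ range n, ent (linvIt n M k) d c * ent M c d)]
    · rw [sub_zero]; linarith
    · rw [abs_zero]; linarith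

theorem linv_shape (n : ℕ) (M : List (List ℤ)) (k : ℕ) :
    linvIt n M k = mat n n (ent (linvIt n M k)) := by
  have key : ∀ f : ℕ → ℕ → ℤ, mat n n f = mat n n (ent (mat n n f)) := fun f =>
    List.map_congr_left fun i hi => List.map_congr_left fun j hj =>
      (ent_mat_of_lt f (List.mem_range.1 hi) (List.mem_range.1 hj)).symm
  cases k with
  | zero => exact key _
  | succ k => rw [linvIt_succ]; exact key _

theorem linv_pt : PT (fun x : List (List ℤ) × List Bool =>
    linvIt x.2.length x.1 (x.2.length - 1)) := by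
  refine PT.foldl (f := fun x : List (List ℤ) × List Bool => linvStep x.2.length x.1)
    (by unfold linvStep; fun_prop) (by fun_prop) (by fun_prop)
    (fun x => x.2.length * (2 * (x.2.length *
      (4 * (x.2.length * (2 * x.2.length + size x.1 + 2) + 1) + 3)) + 1)) (by fun_prop)
    fun x i => ?_
  rw [List.take_range]
  change size (linvIt _ _ _) ≤ _
  rw [linv_shape]
  refine size_mat_le fun a _ b _ => ?_
  have h1 := linv_bound x.2.length x.1 (min i (x.2.length - 1)) (by omega) a b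
  rw [Int.abs_eq_natAbs] at h1
  have h2 : (ent (linvIt x.2.length x.1 (min i (x.2.length - 1))) a b).natAbs ≤
      2 ^ (min i (x.2.length - 1) * (2 * x.2.length + size x.1 + 2)) := by exact_mod_cast h1
  exact h2.trans_lt (Nat.pow_lt_pow_right one_lt_two (Nat.lt_succ_of_le
    (Nat.mul_le_mul_right _ (by omega))))

theorem linv_main {m : ℕ} (M : List (List ℤ))
    (hM : (Matrix.of fun a b : Fin (m + 1) => ent M a b).det ≠ 0) : ∃ δ : ℤ, δ ≠ 0 ∧
      ∀ i < m + 1, ∀ j < m + 1, ∑ c ∈ range (m + 1), ent (linvIt (m + 1) M m) i c * ent M c j =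
        if i = j then δ else 0 := by
  set A := Matrix.of fun a b : Fin (m + 1) => ent M a b with hA
  have h := linv_fl A (fun k => Matrix.of fun a b => ent (linvIt (m + 1) M k) a b) (by
    ext a b
    simp only [linvIt, List.range_zero, List.foldl_nil, Matrix.of_apply,
      ent_mat_of_lt _ a.2 b.2, Matrix.one_apply, Fin.ext_iff]) fun i => by
    ext a b
    simp only [linvIt_succ, linvStep, Matrix.of_apply, ent_mat_of_lt _ a.2 b.2, Matrix.sub_apply,
      Matrix.smul_apply, Matrix.mul_apply, Matrix.trace, Matrix.diag, Matrix.one_apply, hA,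
      Finset.sum_range, Fin.ext_iff, smul_eq_mul, mul_ite, mul_one, mul_zero]
  refine ⟨-(m.factorial : ℤ) * A.charpoly.coeff 0, mul_ne_zero (neg_ne_zero.2
    (by exact_mod_cast m.factorial_ne_zero)) fun h0 => hM ?_, fun i hi j hj => ?_⟩
  · rw [Matrix.det_eq_sign_charpoly_coeff, h0, mul_zero]
  · have := congrFun (congrFun h ⟨i, hi⟩) ⟨j, hj⟩
    simpa [Matrix.mul_apply, hA, Finset.sum_range, Matrix.one_apply, Fin.ext_iff] using this

theorem linv : ∃ F : List (List ℤ) × List Bool → ℤ × List (List ℤ), PT F ∧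
    ∀ J u, InjCols J u.length → 0 < (F (J, u)).1 ∧ ∀ i < u.length, ∀ j < u.length,
      ∑ r ∈ range J.length, ent (F (J, u)).2 i r * ent J r j =
        if i = j then (F (J, u)).1 else 0 := by
  obtain ⟨G, hG, eG⟩ : ∃ G : List (List ℤ) × List Bool → List (List ℤ), PT G ∧ ∀ x, G x =
      mat x.2.length x.2.length fun a b => ∑ r ∈ range x.1.length, ent x.1 r a * ent x.1 r b :=
    ⟨_, by fun_prop, fun _ => rfl⟩
  obtain ⟨B, hB, eB⟩ : ∃ B : List (List ℤ) × List Bool → List (List ℤ), PT B ∧ ∀ x, B x =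
      linvIt x.2.length (G x) (x.2.length - 1) :=
    ⟨_, linv_pt.comp' (f := fun x => (G x, x.2)) (by fun_prop), fun _ => rfl⟩
  obtain ⟨D, hD, eD⟩ : ∃ D : List (List ℤ) × List Bool → ℤ, PT D ∧ ∀ x, D x =
      ∑ c ∈ range x.2.length, ent (B x) 0 c * ent (G x) c 0 := ⟨_, by fun_prop, fun _ => rfl⟩
  refine ⟨fun x => (if x.2.length = 0 then 1 else D x * D x, mat x.2.length x.1.length
    fun i r => D x * ∑ c ∈ range x.2.length, ent (B x) i c * ent x.1 r c), by fun_prop,
    fun J u h => ?_⟩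
  rcases hn : u.length with _ | m
  · simp [hn]
  rw [hn] at h
  have eM : ∀ a < m + 1, ∀ b < m + 1, ent (G (J, u)) a b =
      ∑ r ∈ range J.length, ent J r a * ent J r b := fun a ha b hb => by
    rw [eG, hn, ent_mat_of_lt _ ha hb]
  obtain ⟨δ, δ0, hδ⟩ := linv_main (m := m) (G (J, u)) (by
    have := linv_det h
    simpa only [← eM _ (Fin.is_lt _) _ (Fin.is_lt _)] using this)
  have e1 : B (J, u) = linvIt (m + 1) (G (J, u)) m := by rw [eB, hn]; rfl
  have e2 : D (J, u) = δ := by
    rw [eD, hn, e1, hδ 0 (by omega) 0 (by omega), if_pos rfl]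
  simp only [hn, e1, e2, Nat.succ_ne_zero, if_false]
  refine ⟨mul_self_pos.2 δ0, fun i hi j hj => ?_⟩
  have e3 : ∑ r ∈ range J.length, ent (mat (m + 1) J.length fun i r => δ *
      ∑ c ∈ range (m + 1), ent (linvIt (m + 1) (G (J, u)) m) i c * ent J r c) i r * ent J r j =
      δ * ∑ c ∈ range (m + 1), ent (linvIt (m + 1) (G (J, u)) m) i c * ent (G (J, u)) c j := by
    have e4 : ∑ c ∈ range (m + 1), ent (linvIt (m + 1) (G (J, u)) m) i c * ent (G (J, u)) c j =
        ∑ c ∈ range (m + 1), ent (linvIt (m + 1) (G (J, u)) m) i c *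
          ∑ r ∈ range J.length, ent J r c * ent J r j :=
      sum_congr rfl fun c hc => by rw [eM c (mem_range.1 hc) j hj]
    rw [sum_congr rfl fun r hr => by rw [ent_mat_of_lt _ hi (mem_range.1 hr)], e4]
    simp only [mul_sum, sum_mul]
    rw [sum_comm]
    exact sum_congr rfl fun _ _ => sum_congr rfl fun _ _ => by ring
  rw [e3, hδ i hi j hj, mul_ite, mul_zero]

end Pool.Agent.MP_8a92de_lc.H43

/-! A triangular basis modulo `Δ` in polynomial time. -/

namespace Pool.Agent.MP_8a92de_lc.H43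

open Pool.Agent.Lib.Cx Finset

/-- One Euclidean step on column `c` of two rows, modulo `d + 1`. -/
def hnStep (d m c : ℕ) (s : List ℤ × List ℤ) : List ℤ × List ℤ :=
  if s.2.getD c 0 = 0 then s else (s.2, vec m fun j =>
    (s.1.getD j 0 - s.1.getD c 0 / s.2.getD c 0 * s.2.getD j 0) % ((d : ℤ) + 1))

/-- Clamping of a row. -/
def hnN (d m : ℕ) (a : List ℤ) : List ℤ := vec m fun j => a.getD j 0 % ((d : ℤ) + 2)

/-- Euclid's algorithm on column `c`. -/
def hnEuc (d m c : ℕ) (s : List ℤ × List ℤ) : List ℤ × List ℤ :=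
  (hnStep d m c)^[2 * size (d + 1) + 1] s

/-- Clearing column `c` of all rows. -/
def hnCol (d m c : ℕ) (rows : List (List ℤ)) : List ℤ × List (List ℤ) :=
  rows.foldl (fun st v => (hnN d m (hnEuc d m c (st.1, v)).1,
    st.2 ++ [hnN d m (hnEuc d m c (st.1, v)).2]))
    (hnN d m (vec m fun j => if j = c then (d : ℤ) + 1 else 0), [])

/-- Clearing the first `n` columns. -/
def hnAll (d m l n : ℕ) (rows : List (List ℤ)) : List (List ℤ) × List (List ℤ) :=
  (List.range n).foldl (fun st c => (st.1 ++ [(hnCol d m c (st.2.take l)).1],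
    (hnCol d m c (st.2.take l)).2)) ([], rows)

theorem hn_size {d m : ℕ} {f : ℕ → ℤ} {D : ℤ} (h0 : 0 < D) (h1 : D ≤ d + 2) :
    size (vec m fun j => f j % D) ≤ m * (4 * size (d + 1) + 3) :=
  size_vec_le fun j _ => by
    have a1 := Int.emod_nonneg (f j) h0.ne'
    have a2 := Int.emod_lt_of_pos (f j) h0
    have a3 := lt_two_pow_size (d + 1)
    omega

theorem hn_sizeN (d m : ℕ) (a : List ℤ) : size (hnN d m a) ≤ m * (4 * size (d + 1) + 3) :=
  hn_size (by omega) le_rfl

theorem hn_col_size (d m c : ℕ) (rows : List (List ℤ)) :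
    size (hnCol d m c rows).1 ≤ m * (4 * size (d + 1) + 3) ∧
      (hnCol d m c rows).2.length = rows.length ∧
      ∀ a ∈ (hnCol d m c rows).2, size a ≤ m * (4 * size (d + 1) + 3) := by
  induction rows using List.reverseRecOn with
  | nil => exact ⟨hn_sizeN _ _ _, rfl, by simp [hnCol]⟩
  | append_singleton t v ih =>
    unfold hnCol at ih ⊢
    rw [List.foldl_append, List.foldl_cons, List.foldl_nil]
    refine ⟨hn_sizeN _ _ _, by simp only [List.length_append, ih.2.1, List.length_singleton],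
      fun a ha => ?_⟩
    rcases List.mem_append.1 ha with h | h
    · exact ih.2.2 a h
    · rw [List.mem_singleton.1 h]
      exact hn_sizeN _ _ _

section pt

variable {α : Type} [Enc α] {d c : α → ℕ} {w u t : α → List Bool}

theorem hn_ptN {a : α → List ℤ} (hd : PT d) (hw : PT w) (ha : PT a) :
    PT fun x => hnN (d x) (w x).length (a x) := by
  unfold hnN
  fun_prop

theorem hn_ptE {s : α → List ℤ × List ℤ} (hd : PT d) (hw : PT w) (hc : PT c) (hs : PT s) :
    PT fun x => hnEuc (d x) (w x).length (c x) (s x) := by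
  refine PT.iterate (f := fun x => hnStep (d x) (w x).length (c x)) (by unfold hnStep; fun_prop)
    (by fun_prop) (by fun_prop) hs
    (fun x => 3 * (size (s x) + (w x).length * (4 * size (d x + 1) + 3)) + 1) (by fun_prop)
    fun x i _ => ?_
  have h : ∀ i, size ((hnStep (d x) (w x).length (c x))^[i] (s x)).1 ≤
      size (s x) + (w x).length * (4 * size (d x + 1) + 3) ∧
      size ((hnStep (d x) (w x).length (c x))^[i] (s x)).2 ≤
      size (s x) + (w x).length * (4 * size (d x + 1) + 3) := by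
    intro i
    induction i with
    | zero =>
      rw [Function.iterate_zero, id, size_prod (s x)]
      omega
    | succ i ih =>
      rw [Function.iterate_succ_apply', hnStep]
      split_ifs
      · exact ih
      · exact ⟨ih.2, (hn_size (by omega) (by omega)).trans (Nat.le_add_left _ _)⟩
  have h1 := h i
  rw [size_prod]
  omega

theorem hn_ptC {r : α → List (List ℤ)} (hd : PT d) (hw : PT w) (hc : PT c) (hr : PT r) :
    PT fun x => hnCol (d x) (w x).length (c x) (r x) := by
  have h1 : PT fun p : α × (List ℤ × List (List ℤ)) × List ℤ =>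
      hnEuc (d p.1) (w p.1).length (c p.1) (p.2.1.1, p.2.2) :=
    hn_ptE (by fun_prop) (by fun_prop) (by fun_prop) (by fun_prop)
  refine PT.foldl_add (PT.prodMk (hn_ptN (by fun_prop) (by fun_prop) h1.fst)
    (PT.append (by fun_prop) (PT.cons (hn_ptN (by fun_prop) (by fun_prop) h1.snd) (PT.const _))))
    hr (PT.prodMk (hn_ptN hd hw (by fun_prop)) (PT.const _))
    (fun x => 4 * ((w x).length * (4 * size (d x + 1) + 3)) + 2) (by fun_prop) fun x b a _ => ?_
  have h2 := hn_sizeN (d x) (w x).length (hnEuc (d x) (w x).length (c x) (b.1, a)).1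
  have h3 := hn_sizeN (d x) (w x).length (hnEuc (d x) (w x).length (c x) (b.1, a)).2
  simp only [size_prod, size_append, size_cons, size_nil]
  omega

theorem hn_ptA {r : α → List (List ℤ)} (hd : PT d) (hw : PT w) (hu : PT u) (ht : PT t)
    (hr : PT r) : PT fun x => hnAll (d x) (w x).length (t x).length (u x).length (r x) := by
  have h1 : PT fun p : α × (List (List ℤ) × List (List ℤ)) × ℕ =>
      hnCol (d p.1) (w p.1).length p.2.2 (p.2.1.2.take (t p.1).length) :=
    hn_ptC (by fun_prop) (by fun_prop) (by fun_prop) (by fun_prop)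
  refine PT.foldl_add (PT.prodMk (PT.append (by fun_prop) (PT.cons h1.fst (PT.const _))) h1.snd)
    (by fun_prop) (PT.prodMk (PT.const _) hr)
    (fun x => ((t x).length + 2) * (2 * ((w x).length * (4 * size (d x + 1) + 3)) + 1))
    (by fun_prop) fun x b a _ => ?_
  obtain ⟨h2, h3, h4⟩ := hn_col_size (d x) (w x).length a (b.2.take (t x).length)
  have h5 := (size_list_le _ _ h4).trans (Nat.mul_le_mul_right _ (h3.le.trans
    (List.length_take_le _ _)))
  simp only [size_prod, size_append, size_cons, size_nil, add_mul] at h5 ⊢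
  omega

end pt

/-- A reduced row that vanishes before column `c` and lies in `U`. -/
def HnOk (d m c : ℕ) (U : Submodule ℤ (ℕ → ℤ)) (a : List ℤ) : Prop :=
  a.length = m ∧ (∀ j, 0 ≤ a.getD j 0 ∧ a.getD j 0 ≤ d + 1) ∧ (∀ j < c, a.getD j 0 = 0) ∧
    (fun j => a.getD j 0) ∈ U

variable {d m c : ℕ} {U W : Submodule ℤ (ℕ → ℤ)}

theorem HnOk.N {a : List ℤ} (h : HnOk d m c U a) : hnN d m a = a := by
  refine List.ext_getElem (by simp [hnN, h.1]) fun j h1 h2 => ?_
  rw [← List.getD_eq_getElem _ 0 h1, ← List.getD_eq_getElem _ 0 h2, hnN, getD_vec,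
    if_pos (h.1 ▸ h2)]
  exact Int.emod_eq_of_lt (h.2.1 j).1 (by have := (h.2.1 j).2; omega)

theorem hn_step (hU : ∀ y : ℕ → ℤ, ((d : ℤ) + 1) • y ∈ U) {s : List ℤ × List ℤ}
    (h1 : HnOk d m c U s.1) (h2 : HnOk d m c U s.2) :
    HnOk d m c U (hnStep d m c s).1 ∧ HnOk d m c U (hnStep d m c s).2 ∧
      ((hnStep d m c s).1.getD c 0 = s.1.getD c 0 ∧ (hnStep d m c s).2.getD c 0 = 0 ∨
        0 < s.2.getD c 0 ∧ (hnStep d m c s).1.getD c 0 = s.2.getD c 0 ∧
          (hnStep d m c s).2.getD c 0 = s.1.getD c 0 % s.2.getD c 0) ∧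
      ∀ W : Submodule ℤ (ℕ → ℤ), (∀ y : ℕ → ℤ, (∀ j < c + 1, y j = 0) → ((d : ℤ) + 1) • y ∈ W) →
        (fun j => (hnStep d m c s).1.getD j 0) ∈ W → (fun j => (hnStep d m c s).2.getD j 0) ∈ W →
        (fun j => s.1.getD j 0) ∈ W ∧ (fun j => s.2.getD j 0) ∈ W := by
  unfold hnStep
  split_ifs with h
  · exact ⟨h1, h2, Or.inl ⟨rfl, h⟩, fun _ _ a b => ⟨a, b⟩⟩
  obtain ⟨q, hq⟩ : ∃ q, q = s.1.getD c 0 / s.2.getD c 0 := ⟨_, rfl⟩
  rw [← hq]
  have a0 : 0 < s.2.getD c 0 := lt_of_le_of_ne (h2.2.1 c).1 (Ne.symm h)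
  have a1 : ∀ j, (vec m fun j => (s.1.getD j 0 - q * s.2.getD j 0) % ((d : ℤ) + 1)).getD j 0 =
      (s.1.getD j 0 - q * s.2.getD j 0) % ((d : ℤ) + 1) := by
    intro j
    rw [getD_vec]
    split_ifs with hj
    · rfl
    · rw [List.getD_eq_default _ _ (h1.1 ▸ not_lt.1 hj),
        List.getD_eq_default _ _ (h2.1 ▸ not_lt.1 hj), mul_zero, sub_zero, Int.zero_emod]
  have a2 : s.1.getD c 0 - q * s.2.getD c 0 = s.1.getD c 0 % s.2.getD c 0 := by
    rw [hq, Int.emod_def, mul_comm]
  have a3 := Int.emod_nonneg (s.1.getD c 0) h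
  have a4 := (Int.emod_lt_of_pos (s.1.getD c 0) a0).trans_le (h2.2.1 c).2
  have a5 : (fun j => (s.1.getD j 0 - q * s.2.getD j 0) % ((d : ℤ) + 1)) =
      (fun j => s.1.getD j 0) - q • (fun j => s.2.getD j 0) -
        ((d : ℤ) + 1) • fun j => (s.1.getD j 0 - q * s.2.getD j 0) / ((d : ℤ) + 1) :=
    _root_.funext fun j => Int.emod_def _ _
  simp only [a1]
  refine ⟨h2, ⟨length_vec _ _, fun j => ?_, fun j hj => ?_, ?_⟩,
    Or.inr ⟨a0, trivial, by rw [a2, Int.emod_eq_of_lt a3 a4]⟩, fun W hW b1 b2 => ⟨?_, b1⟩⟩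
  · rw [a1]
    exact ⟨Int.emod_nonneg _ (by omega), (Int.emod_lt_of_pos _ (by omega)).le⟩
  · rw [a1, h1.2.2.1 j hj, h2.2.2.1 j hj, mul_zero, sub_zero, Int.zero_emod]
  · simp only [a1]
    rw [a5]
    exact U.sub_mem (U.sub_mem h1.2.2.2 (U.smul_mem q h2.2.2.2)) (hU _)
  · rw [a5] at b2
    refine (W.sub_mem_iff_left (W.smul_mem q b1)).1 ((W.sub_mem_iff_left (hW _ fun j hj => ?_)).1 b2)
    rcases Nat.lt_succ_iff_lt_or_eq.1 hj with hj | rfl
    · rw [h1.2.2.1 j hj, h2.2.2.1 j hj, mul_zero, sub_zero, Int.zero_ediv]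
    · rw [a2, Int.ediv_eq_zero_of_lt a3 a4]

theorem hn_euc (hU : ∀ y : ℕ → ℤ, ((d : ℤ) + 1) • y ∈ U) {s : List ℤ × List ℤ}
    (h1 : HnOk d m c U s.1) (h2 : HnOk d m c U s.2) :
    HnOk d m c U (hnEuc d m c s).1 ∧ HnOk d m (c + 1) U (hnEuc d m c s).2 ∧
      ∀ W : Submodule ℤ (ℕ → ℤ), (∀ y : ℕ → ℤ, (∀ j < c + 1, y j = 0) → ((d : ℤ) + 1) • y ∈ W) →
        (fun j => (hnEuc d m c s).1.getD j 0) ∈ W → (fun j => (hnEuc d m c s).2.getD j 0) ∈ W →
        (fun j => s.1.getD j 0) ∈ W ∧ (fun j => s.2.getD j 0) ∈ W := by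
  have key : ∀ i, HnOk d m c U ((hnStep d m c)^[i + 1] s).1 ∧
      HnOk d m c U ((hnStep d m c)^[i + 1] s).2 ∧
      ((hnStep d m c)^[i + 1] s).2.getD c 0 ≤ ((hnStep d m c)^[i + 1] s).1.getD c 0 ∧
      2 ^ i * (((hnStep d m c)^[i + 1] s).1.getD c 0 * ((hnStep d m c)^[i + 1] s).2.getD c 0) ≤
        ((d : ℤ) + 1) ^ 2 ∧
      ∀ W : Submodule ℤ (ℕ → ℤ), (∀ y : ℕ → ℤ, (∀ j < c + 1, y j = 0) → ((d : ℤ) + 1) • y ∈ W) →
        (fun j => ((hnStep d m c)^[i + 1] s).1.getD j 0) ∈ W →
        (fun j => ((hnStep d m c)^[i + 1] s).2.getD j 0) ∈ W →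
        (fun j => s.1.getD j 0) ∈ W ∧ (fun j => s.2.getD j 0) ∈ W := by
    intro i
    induction i with
    | zero =>
      obtain ⟨a1, a2, a3, a4⟩ := hn_step hU h1 h2
      refine ⟨a1, a2, ?_, ?_, a4⟩
      · show (hnStep d m c s).2.getD c 0 ≤ (hnStep d m c s).1.getD c 0
        rcases a3 with a3 | a3
        · rw [a3.2]
          exact (a1.2.1 c).1
        · rw [a3.2.1, a3.2.2]
          exact (Int.emod_lt_of_pos _ a3.1).le
      · rw [pow_zero, one_mul, pow_two]
        exact mul_le_mul (a1.2.1 c).2 (a2.2.1 c).2 (a2.2.1 c).1 (by omega)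
    | succ i ih =>
      rw [Function.iterate_succ_apply']
      generalize (hnStep d m c)^[i + 1] s = t at ih
      obtain ⟨b1, b2, b3, b4, b5⟩ := ih
      obtain ⟨a1, a2, a3, a4⟩ := hn_step hU b1 b2
      refine ⟨a1, a2, ?_, ?_, fun W hW x y => b5 W hW (a4 W hW x y).1 (a4 W hW x y).2⟩
      · rcases a3 with a3 | a3
        · rw [a3.2]
          exact (a1.2.1 c).1
        · rw [a3.2.1, a3.2.2]
          exact (Int.emod_lt_of_pos _ a3.1).le
      · rcases a3 with a3 | a3
        · rw [a3.2, mul_zero, mul_zero]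
          positivity
        · rw [a3.2.1, a3.2.2]
          have c1 := Int.emod_lt_of_pos (t.1.getD c 0) a3.1
          have c2 := Int.emod_add_mul_ediv (t.1.getD c 0) (t.2.getD c 0)
          have c3 : 1 ≤ t.1.getD c 0 / t.2.getD c 0 := Int.le_ediv_of_mul_le a3.1 (by omega)
          have c4 : 2 * (t.1.getD c 0 % t.2.getD c 0) ≤ t.1.getD c 0 := by nlinarith [a3.1]
          refine le_trans ?_ b4
          rw [pow_succ, mul_assoc]
          exact mul_le_mul_of_nonneg_left (by nlinarith [a3.1]) (by positivity)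
  obtain ⟨a1, a2, a3, a4, a5⟩ := key (2 * size (d + 1))
  refine ⟨a1, ⟨a2.1, a2.2.1, fun j hj => ?_, a2.2.2.2⟩, a5⟩
  rcases Nat.lt_succ_iff_lt_or_eq.1 hj with hj | rfl
  · exact a2.2.2.1 j hj
  · by_contra h
    have b1 := lt_of_le_of_ne (a2.2.1 j).1 (Ne.symm h)
    have b2 : (d : ℤ) + 1 < 2 ^ size (d + 1) := by exact_mod_cast lt_two_pow_size (d + 1)
    have b3 := pow_lt_pow_left₀ b2 (by omega) two_ne_zero
    rw [← pow_mul, mul_comm] at b3
    have b4 := mul_pos (b1.trans_le a3) b1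
    have b5 : (0 : ℤ) < 2 ^ (2 * size (d + 1)) := by positivity
    nlinarith

theorem hn_col (hU : ∀ y : ℕ → ℤ, ((d : ℤ) + 1) • y ∈ U) (hc : c < m) (rows : List (List ℤ))
    (h : ∀ v ∈ rows, HnOk d m c U v) :
    HnOk d m c U (hnCol d m c rows).1 ∧ (∀ v ∈ (hnCol d m c rows).2, HnOk d m (c + 1) U v) ∧
      ∀ W : Submodule ℤ (ℕ → ℤ), (∀ y : ℕ → ℤ, (∀ j < c + 1, y j = 0) → ((d : ℤ) + 1) • y ∈ W) →
        (fun j => (hnCol d m c rows).1.getD j 0) ∈ W →
        (∀ v ∈ (hnCol d m c rows).2, (fun j => v.getD j 0) ∈ W) →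
        (∀ y : ℕ → ℤ, (∀ j < c, y j = 0) → ((d : ℤ) + 1) • y ∈ W) ∧
          ∀ v ∈ rows, (fun j => v.getD j 0) ∈ W := by
  induction rows using List.reverseRecOn with
  | nil =>
    have a1 : (fun j => (vec m fun j => if j = c then (d : ℤ) + 1 else 0).getD j 0) =
        ((d : ℤ) + 1) • fun j => if j = c then (1 : ℤ) else 0 := _root_.funext fun j => by
      rw [getD_vec, Pi.smul_apply, smul_eq_mul]
      split_ifs <;> omega
    have a2 : HnOk d m c U (vec m fun j => if j = c then (d : ℤ) + 1 else 0) := by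
      refine ⟨length_vec _ _, fun j => ?_, fun j hj => ?_, a1 ▸ hU _⟩ <;> rw [getD_vec] <;>
        split_ifs <;> omega
    simp only [hnCol, List.foldl_nil, a2.N, a1]
    refine ⟨a2, by simp, fun W hW b _ => ⟨fun y hy => ?_, by simp⟩⟩
    have a3 : y = y c • (fun j => if j = c then (1 : ℤ) else 0) +
        fun j => if j = c then 0 else y j := _root_.funext fun j => by
      by_cases hj : j = c <;> simp [hj]
    rw [a3, smul_add, smul_comm]
    refine W.add_mem (W.smul_mem _ b) (hW _ fun j hj => ?_)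
    split_ifs with h'
    · rfl
    · exact hy j (by omega)
  | append_singleton t v ih =>
    obtain ⟨a1, a2, a3⟩ := ih fun v hv => h v (List.mem_append_left _ hv)
    obtain ⟨b1, b2, b3⟩ := hn_euc hU (s := ((hnCol d m c t).1, v)) a1 (h v (by simp))
    have e : hnCol d m c (t ++ [v]) = ((hnEuc d m c ((hnCol d m c t).1, v)).1,
        (hnCol d m c t).2 ++ [(hnEuc d m c ((hnCol d m c t).1, v)).2]) := by
      rw [← b1.N, ← b2.N, hnCol, List.foldl_append]
      rfl
    rw [e]
    simp only [List.forall_mem_append, List.forall_mem_singleton]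
    refine ⟨b1, ⟨a2, b2⟩, fun W hW x y => ?_⟩
    obtain ⟨c1, c2⟩ := b3 W hW x y.2
    exact ⟨(a3 W hW c1 y.1).1, (a3 W hW c1 y.1).2, c2⟩

theorem hn_all (hU : ∀ y : ℕ → ℤ, ((d : ℤ) + 1) • y ∈ U) {rows : List (List ℤ)}
    (h : ∀ v ∈ rows, HnOk d m 0 U v) (n : ℕ) (hn : n ≤ m) :
    (hnAll d m rows.length n rows).1.length = n ∧
      (hnAll d m rows.length n rows).2.length = rows.length ∧
      (∀ v ∈ (hnAll d m rows.length n rows).1, (fun j => v.getD j 0) ∈ U) ∧
      (∀ v ∈ (hnAll d m rows.length n rows).2, HnOk d m n U v) ∧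
      ∀ W : Submodule ℤ (ℕ → ℤ), (∀ y : ℕ → ℤ, (∀ j < n, y j = 0) → ((d : ℤ) + 1) • y ∈ W) →
        (∀ v ∈ (hnAll d m rows.length n rows).1, (fun j => v.getD j 0) ∈ W) →
        (∀ v ∈ (hnAll d m rows.length n rows).2, (fun j => v.getD j 0) ∈ W) →
        (∀ y : ℕ → ℤ, ((d : ℤ) + 1) • y ∈ W) ∧ ∀ v ∈ rows, (fun j => v.getD j 0) ∈ W := by
  induction n with
  | zero => exact ⟨rfl, rfl, by simp [hnAll], h, fun W hW _ b => ⟨fun y => hW y (by simp), b⟩⟩
  | succ n ih =>
    obtain ⟨a1, a2, a3, a4, a5⟩ := ih (by omega)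
    obtain ⟨b1, b2, b3⟩ := hn_col hU (show n < m from hn) _ a4
    have e : hnAll d m rows.length (n + 1) rows = ((hnAll d m rows.length n rows).1 ++
        [(hnCol d m n (hnAll d m rows.length n rows).2).1],
        (hnCol d m n (hnAll d m rows.length n rows).2).2) := by
      rw [← List.take_of_length_le a2.le, hnAll, List.range_succ, List.foldl_append]
      rfl
    rw [e]
    simp only [List.forall_mem_append, List.forall_mem_singleton, List.length_append,
      List.length_singleton]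
    refine ⟨by rw [a1], (hn_col_size _ _ _ _).2.1.trans a2, ⟨a3, b1.2.2.2⟩, b2,
      fun W hW x y => ?_⟩
    obtain ⟨c1, c2⟩ := b3 W hW x.2 y
    exact a5 W c1 x.1 c2

theorem hnf : ∃ F : (List (List ℤ) × List Bool) × ℤ → List (List ℤ) × List (List ℤ), PT F ∧
    ∀ J u Δ, 0 < Δ → (F ((J, u), Δ)).1.length = u.length ∧
      (∀ i < u.length, ∀ j < u.length, Δ ∣ ent (F ((J, u), Δ)).1 i j -
        ∑ r ∈ range J.length, ent (F ((J, u), Δ)).2 i r * ent J r j) ∧
      ∀ r < J.length, ∃ c : ℕ → ℤ, ∀ j < u.length,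
        ent J r j = ∑ i ∈ range u.length, c i * ent (F ((J, u), Δ)).1 i j := by
  have h1 : PT fun x : (List (List ℤ) × List Bool) × ℤ =>
      (hnAll (x.2 - 1).toNat (x.1.2 ++ x.1.1.map fun _ => true).length
        (x.1.1.map fun _ => true).length x.1.2.length
        (mat x.1.1.length (x.1.2.length + x.1.1.length) fun r j => (if j < x.1.2.length then
          ent x.1.1 r j else if j = x.1.2.length + r then 1 else 0) % x.2)).1 :=
    (hn_ptA (by fun_prop) (by fun_prop) (by fun_prop) (by fun_prop) (by fun_prop)).fst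
  refine ⟨_, h1.prodMk (PT.map (f := fun x (a : List ℤ) => a.drop x.1.2.length) (by fun_prop) h1),
    fun J u Δ h0 => ?_⟩
  obtain ⟨d, rfl⟩ : ∃ d : ℕ, Δ = d + 1 := ⟨(Δ - 1).toNat, by omega⟩
  simp only [List.length_append, List.length_map, add_sub_cancel_right, Int.toNat_natCast]
  generalize u.length = n
  obtain ⟨f, hf⟩ : ∃ f : ℕ → ℕ → ℤ, f = fun r j =>
    if j < n then ent J r j else if j = n + r then 1 else 0 := ⟨_, rfl⟩
  let U : Submodule ℤ (ℕ → ℤ) :=
    { carrier := {y | ∀ j < n, ((d : ℤ) + 1) ∣ y j - ∑ r ∈ range J.length, y (n + r) * ent J r j}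
      add_mem' := fun {a b} ha hb j hj => by
        have := dvd_add (ha j hj) (hb j hj)
        simp only [Pi.add_apply, add_mul, sum_add_distrib]
        rwa [← add_sub_add_comm] at this
      zero_mem' := fun j _ => by simp
      smul_mem' := fun c a ha j hj => by
        have := (ha j hj).mul_left c
        simp only [Pi.smul_apply, smul_eq_mul, mul_assoc, ← mul_sum]
        rwa [mul_sub] at this }
  have hU : ∀ y : ℕ → ℤ, ((d : ℤ) + 1) • y ∈ U := fun y j _ => by
    simp only [Pi.smul_apply, smul_eq_mul, mul_assoc, ← mul_sum, ← mul_sub]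
    exact dvd_mul_right _ _
  have a1 : ∀ r < J.length, (fun j => (vec (n + J.length) fun j => f r j % ((d : ℤ) + 1)).getD j 0)
      = f r - ((d : ℤ) + 1) • fun j => f r j / ((d : ℤ) + 1) := fun r hr =>
    _root_.funext fun j => by
      rw [getD_vec]
      split_ifs with hj
      · exact Int.emod_def _ _
      · have h2 : f r j = 0 := by
          rw [hf]
          exact (if_neg (by omega)).trans (if_neg (by omega))
        simp [h2]
  have a2 : ∀ v ∈ mat J.length (n + J.length) fun r j => f r j % ((d : ℤ) + 1),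
      HnOk d (n + J.length) 0 U v := by
    intro v hv
    obtain ⟨r, hr, rfl⟩ := List.mem_map.1 hv
    rw [List.mem_range] at hr
    refine ⟨length_vec _ _, fun j => ?_, by simp, a1 r hr ▸ U.sub_mem (fun j hj => ?_) (hU _)⟩
    · rw [getD_vec]
      split_ifs
      · exact ⟨Int.emod_nonneg _ (by omega), (Int.emod_lt_of_pos _ (by omega)).le⟩
      · omega
    · simp [hf, hj, hr]
  obtain ⟨b1, -, b3, b4, b5⟩ := hn_all hU a2 n (Nat.le_add_right _ _)
  rw [length_mat, hf] at b1 b3 b4 b5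
  generalize (hnAll d (n + J.length) J.length n _) = H at b1 b3 b4 b5 ⊢
  have a3 : ∀ i < n, H.1.getD i [] ∈ H.1 := fun i hi => by simp [List.getD, b1, hi]
  refine ⟨b1, fun i hi j hj => ?_, fun r hr => ?_⟩
  · have h2 := b3 _ (a3 i hi) j hj
    have h3 : ∀ r, ent (H.1.map fun a => a.drop n) i r = (H.1.getD i []).getD (n + r) 0 := by
      intro r
      simp [ent, List.getD, b1, hi]
    simp only [h3]
    exact h2
  · let W : Submodule ℤ (ℕ → ℤ) :=
      { carrier := {y | ∃ c : ℕ → ℤ, ∀ j < n, y j = ∑ i ∈ range n, c i * ent H.1 i j}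
        add_mem' := fun ⟨a, ha⟩ ⟨b, hb⟩ => ⟨a + b, fun j hj => by
          simp only [Pi.add_apply, add_mul, sum_add_distrib, ha j hj, hb j hj]⟩
        zero_mem' := ⟨0, fun j _ => by simp⟩
        smul_mem' := fun c _ ⟨a, ha⟩ => ⟨c • a, fun j hj => by
          simp only [Pi.smul_apply, smul_eq_mul, mul_assoc, ← mul_sum, ha j hj]⟩ }
    obtain ⟨c1, c2⟩ := b5 W (fun y hy => ⟨0, fun j hj => by simp [hy j hj]⟩) (fun v hv => by
      obtain ⟨i, hi, rfl⟩ := List.getElem_of_mem hv
      exact ⟨fun i' => if i' = i then 1 else 0, fun j _ => by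
        simp [ent, List.getD, hi, b1 ▸ hi]⟩)
      fun v hv => ⟨0, fun j hj => by simpa using (b4 v hv).2.2.1 j hj⟩
    rw [← hf] at c2
    have c3 := c2 _ (List.mem_map.2 ⟨r, List.mem_range.2 hr, rfl⟩)
    rw [a1 r hr] at c3
    obtain ⟨c, hc⟩ := (W.sub_mem_iff_left (c1 _)).1 c3
    exact ⟨c, fun j hj => by simpa only [hf, if_pos hj] using hc j hj⟩

end Pool.Agent.MP_8a92de_lc.H43

namespace Pool.Agent.MP_8a92de_lc.H43

open Pool.Agent.Lib.Cx Finset

theorem sat_comm {n : ℕ} {X H : Matrix (Fin n) (Fin n) ℤ} {δ : ℤ} (hδ : δ ≠ 0)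
    (h : X * H = δ • (1 : Matrix (Fin n) (Fin n) ℤ)) :
    H * X = δ • (1 : Matrix (Fin n) (Fin n) ℤ) := by
  have hd : H.det ≠ 0 := by
    intro h0
    have := congrArg Matrix.det h
    rw [Matrix.det_mul, h0, mul_zero, Matrix.det_smul, Matrix.det_one, mul_one] at this
    exact pow_ne_zero _ hδ this.symm
  have h1 : (H * X - δ • (1 : Matrix (Fin n) (Fin n) ℤ)) * H = 0 := by
    rw [Matrix.sub_mul, Matrix.mul_assoc, h, Matrix.mul_smul, Matrix.smul_mul, Matrix.mul_one,
      Matrix.one_mul, sub_self]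
  have h2 : H.det • (H * X - δ • (1 : Matrix (Fin n) (Fin n) ℤ)) = 0 := by
    have := congrArg (fun Z => Z * H.adjugate) h1
    simp only [Matrix.mul_assoc, Matrix.mul_adjugate, Matrix.zero_mul, Matrix.mul_smul,
      Matrix.mul_one] at this
    exact this
  exact sub_eq_zero.1 ((smul_eq_zero.1 h2).resolve_left hd)

theorem sat_alg {l n : ℕ} {J P c : Matrix (Fin l) (Fin n) ℤ} {Y g G : Matrix (Fin n) (Fin l) ℤ}
    {H K X W : Matrix (Fin n) (Fin n) ℤ} {Δ δ : ℤ} (hδ : δ ≠ 0)
    (hY : Y * J = Δ • (1 : Matrix (Fin n) (Fin n) ℤ)) (hK : H - g * J = Δ • K) (hc : J = c * H)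
    (hX : X * H = δ • (1 : Matrix (Fin n) (Fin n) ℤ)) (hG : G = g + K * Y)
    (hW : W = X * (1 - G * P)) :
    δ • P + J * W = δ • (P + c * (1 - G * P)) ∧ G * (P + c * (1 - G * P)) = 1 := by
  have h1 := sat_comm hδ hX
  have h2 : G * J = H := by
    rw [hG, Matrix.add_mul, Matrix.mul_assoc, hY, Matrix.mul_smul, Matrix.mul_one, ← hK]
    abel
  have h3 : J * X = δ • c := by
    rw [hc, Matrix.mul_assoc, h1, Matrix.mul_smul, Matrix.mul_one]
  have h4 : G * c = 1 := by
    have : δ • (G * c) = δ • (1 : Matrix (Fin n) (Fin n) ℤ) := by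
      rw [← Matrix.mul_smul, ← h3, ← Matrix.mul_assoc, h2, h1]
    exact smul_right_injective _ hδ this
  constructor
  · rw [hW, ← Matrix.mul_assoc, h3, Matrix.smul_mul, smul_add]
  · rw [Matrix.mul_add, ← Matrix.mul_assoc, h4, Matrix.one_mul]
    abel

theorem sat : ∃ F : (List (List ℤ) × List (List ℤ)) × List Bool →
      ℤ × List (List ℤ) × List (List ℤ), PT F ∧
    ∀ J P u, InjCols J u.length → (F ((J, P), u)).1 ≠ 0 ∧ ∃ M : ℕ → ℕ → ℤ,
      (∀ r < J.length, ∀ j < u.length, (F ((J, P), u)).1 * ent P r j +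
        ∑ i ∈ range u.length, ent J r i * ent (F ((J, P), u)).2.1 i j = (F ((J, P), u)).1 * M r j) ∧
      ∀ i < u.length, ∀ j < u.length,
        ∑ r ∈ range J.length, ent (F ((J, P), u)).2.2 i r * M r j = if i = j then 1 else 0 := by
  obtain ⟨L, hL, L1⟩ := linv
  obtain ⟨N, hN, N1⟩ := hnf
  obtain ⟨A, hA, eA⟩ : ∃ A : (List (List ℤ) × List (List ℤ)) × List Bool → ℤ × List (List ℤ),
      PT A ∧ ∀ z, A z = L (z.1.1, z.2) := ⟨_, by fun_prop, fun _ => rfl⟩
  obtain ⟨B, hB, eB⟩ : ∃ B : (List (List ℤ) × List (List ℤ)) × List Bool →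
      List (List ℤ) × List (List ℤ), PT B ∧ ∀ z, B z = N ((z.1.1, z.2), (A z).1) :=
    ⟨_, by fun_prop, fun _ => rfl⟩
  obtain ⟨K, hK, eK⟩ : ∃ K : (List (List ℤ) × List (List ℤ)) × List Bool → List (List ℤ),
      PT K ∧ ∀ z, K z = mat z.2.length z.2.length (fun i j => (ent (B z).1 i j -
        ∑ r ∈ range z.1.1.length, ent (B z).2 i r * ent z.1.1 r j) / (A z).1) :=
    ⟨_, by fun_prop, fun _ => rfl⟩
  obtain ⟨G, hG, eG⟩ : ∃ G : (List (List ℤ) × List (List ℤ)) × List Bool → List (List ℤ),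
      PT G ∧ ∀ z, G z = mat z.2.length z.1.1.length (fun i r => ent (B z).2 i r +
        ∑ j ∈ range z.2.length, ent (K z) i j * ent (A z).2 j r) :=
    ⟨_, by fun_prop, fun _ => rfl⟩
  obtain ⟨E, hE, eE⟩ : ∃ E : (List (List ℤ) × List (List ℤ)) × List Bool → ℤ × List (List ℤ),
      PT E ∧ ∀ z, E z = L ((B z).1, z.2) := ⟨_, by fun_prop, fun _ => rfl⟩
  obtain ⟨V, hV, eV⟩ : ∃ V : (List (List ℤ) × List (List ℤ)) × List Bool → List (List ℤ),
      PT V ∧ ∀ z, V z = mat z.2.length z.2.length (fun i j => (if i = j then 1 else 0) -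
        ∑ r ∈ range z.1.1.length, ent (G z) i r * ent z.1.2 r j) :=
    ⟨_, by fun_prop, fun _ => rfl⟩
  obtain ⟨W, hW, eW⟩ : ∃ W : (List (List ℤ) × List (List ℤ)) × List Bool → List (List ℤ),
      PT W ∧ ∀ z, W z = mat z.2.length z.2.length (fun i j =>
        ∑ t ∈ range z.2.length, ent (E z).2 i t * ent (V z) t j) :=
    ⟨_, by fun_prop, fun _ => rfl⟩
  refine ⟨fun z => ((E z).1, W z, G z), by fun_prop, fun J P u hJ => ?_⟩
  obtain ⟨a1, a2⟩ := L1 J u hJ
  obtain ⟨b1, b2, b3⟩ := N1 J u _ a1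
  have eA' : L (J, u) = A ((J, P), u) := (eA ((J, P), u)).symm
  rw [eA'] at a1 a2 b1 b2 b3
  have eB' : N ((J, u), (A ((J, P), u)).1) = B ((J, P), u) := (eB ((J, P), u)).symm
  rw [eB'] at b1 b2 b3
  choose! c hc using b3
  have hH : InjCols (B ((J, P), u)).1 u.length := by
    intro μ hμ
    refine hJ μ fun r hr => ?_
    rw [Finset.sum_congr rfl fun i hi => by rw [hc r hr i (mem_range.1 hi), Finset.sum_mul],
      Finset.sum_comm]
    refine Finset.sum_eq_zero fun t ht => ?_
    simp only [mul_assoc]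
    rw [← Finset.mul_sum, hμ t (by rw [b1]; exact mem_range.1 ht), mul_zero]
  obtain ⟨e1, e2⟩ := L1 _ u hH
  have eE' : L ((B ((J, P), u)).1, u) = E ((J, P), u) := (eE ((J, P), u)).symm
  rw [eE'] at e1 e2
  rw [b1] at e2
  have k1 := eK ((J, P), u)
  have g1 := eG ((J, P), u)
  have v1 := eV ((J, P), u)
  have w1 := eW ((J, P), u)
  dsimp only at k1 g1 v1 w1 ⊢
  generalize A ((J, P), u) = A0 at *
  generalize B ((J, P), u) = B0 at *
  generalize K ((J, P), u) = K0 at *
  generalize G ((J, P), u) = G0 at *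
  generalize E ((J, P), u) = E0 at *
  generalize V ((J, P), u) = V0 at *
  generalize W ((J, P), u) = W0 at *
  have hv : (Matrix.of fun i j : Fin u.length => ent V0 i j) = 1 -
      (Matrix.of fun (i : Fin u.length) (r : Fin J.length) => ent G0 i r) *
        (Matrix.of fun (r : Fin J.length) (j : Fin u.length) => ent P r j) := by
    ext i j
    rw [Matrix.of_apply, v1, ent_mat_of_lt _ i.2 j.2, Finset.sum_range]
    simp [Matrix.mul_apply, Matrix.one_apply, Fin.ext_iff]
  obtain ⟨r1, r2⟩ := sat_alg (l := J.length) (n := u.length)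
    (J := Matrix.of fun r j => ent J r j) (P := Matrix.of fun r j => ent P r j)
    (c := Matrix.of fun r j => c r j) (Y := Matrix.of fun i r => ent A0.2 i r)
    (g := Matrix.of fun i r => ent B0.2 i r) (G := Matrix.of fun i r => ent G0 i r)
    (H := Matrix.of fun i j => ent B0.1 i j) (K := Matrix.of fun i j => ent K0 i j)
    (X := Matrix.of fun i j => ent E0.2 i j) (W := Matrix.of fun i j => ent W0 i j)
    (Δ := A0.1) (δ := E0.1) e1.ne'
    (by
      ext i j
      have := a2 i i.2 j j.2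
      rw [Finset.sum_range] at this
      simp [Matrix.mul_apply, Matrix.one_apply, Fin.ext_iff, this])
    (by
      ext i j
      have := Int.mul_ediv_cancel' (b2 i i.2 j j.2)
      rw [Matrix.smul_apply, Matrix.of_apply, k1, ent_mat_of_lt _ i.2 j.2, smul_eq_mul, this,
        Finset.sum_range]
      simp [Matrix.mul_apply])
    (by
      ext r j
      rw [Matrix.of_apply, hc r r.2 j j.2, Finset.sum_range]
      simp [Matrix.mul_apply])
    (by
      ext i j
      have := e2 i i.2 j j.2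
      rw [Finset.sum_range] at this
      simp [Matrix.mul_apply, Matrix.one_apply, Fin.ext_iff, this])
    (by
      ext i r
      rw [Matrix.of_apply, g1, ent_mat_of_lt _ i.2 r.2, Finset.sum_range]
      simp [Matrix.mul_apply])
    (by
      rw [← hv]
      ext i j
      rw [Matrix.of_apply, w1, ent_mat_of_lt _ i.2 j.2, Finset.sum_range]
      simp [Matrix.mul_apply])
  rw [← hv] at r1 r2
  refine ⟨e1.ne', fun r j => ent P r j + ∑ t ∈ range u.length, c r t * ent V0 t j,
    fun r hr j hj => ?_, fun i hi j hj => ?_⟩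
  · have := congrFun (congrFun r1 ⟨r, hr⟩) ⟨j, hj⟩
    simp only [Finset.sum_range]
    simpa [Matrix.mul_apply] using this
  · have := congrFun (congrFun r2 ⟨i, hi⟩) ⟨j, hj⟩
    simp only [Finset.sum_range]
    simpa [Matrix.mul_apply, Matrix.one_apply, Fin.ext_iff] using this

end Pool.Agent.MP_8a92de_lc.H43
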