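import Pool.Agent.MP_8a92de_lc.H43.MgB

namespace Pool.Agent.MP_8a92de_lc.H43

open Pool.Agent.Lib.Cx Finset

variable {A : Type} [AddCommGroup A]

/-- `e` has infinite order -/
def InfOrd (e : A) : Prop := ∀ m n : ℤ, m • e = n • e → m = n

theorem InfOrd.ne {e : A} (he : InfOrd e) : e ≠ 0 := by
  rintro rfl
  exact zero_ne_one (he 0 1 (by simp))

/-- the hidden data `u - a w` of `y = (u, w, ρ)` -/
def dat (y : List A) (a i : ℕ) : A := y.getD i 0 - (a : ℤ) • y.getD (y.length / 2 + i) 0

/-- the data `d` (of length `D`) is zero or of the form `(x, e, 0, …, 0)` with `x ∈ L` -/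
def Yes (e : A) (L : Set (List A)) (D : ℕ) (d : ℕ → A) : Prop :=
  (∀ i < D, d i = 0) ∨
    ∃ m < D, d m = e ∧ (∀ i < D, m < i → d i = 0) ∧ (List.range m).map d ∈ L

/-- the hiding language -/
def SL (e : A) (L : Set (List A)) : Set (List A) :=
  {y | ∃ a : ℕ, a < 2 ^ y.length ∧ y.getD (2 * (y.length / 2)) 0 = (a : ℤ) • e ∧
    Yes e L (y.length / 2) (dat y a)}

/-- coefficient of `w_i` in the form `q` when the data `u - a w` is kept fixed -/
def slope (k D a : ℕ) (q : List ℤ) (i : ℕ) : ℤ := a * q.getD (k + i) 0 + q.getD (k + D + i) 0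

/-- the form `q` on `(γ, 0, 0, a e)` as a form in `(γ, e)` -/
def rform (k D a : ℕ) (q : List ℤ) : List ℤ :=
  vec (k + 1) (fun j => if j < k then q.getD j 0 else a * q.getD (k + 2 * D) 0)

/-- good values of `a` -/
def Good (γ : List A) (e : A) (D : ℕ) (qs : List (List ℤ)) (a : ℕ) : Prop :=
  ∀ q ∈ qs, (∃ i < D, slope γ.length D a q i ≠ 0) ∨
    ((∀ i < D, q.getD (γ.length + i) 0 = 0) ∧ val (rform γ.length D a q) (γ ++ [e]) ≠ 0)

/-- the vector with data `d`, mask `v + (s, s², …) e` and key `a e` -/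
def yv (e : A) (D a s : ℕ) (d v : ℕ → A) : List A :=
  (List.range (2 * D + 1)).map fun j =>
    if j < D then d j + (a : ℤ) • (v j + ((s : ℤ) ^ (j + 1)) • e)
    else if j < 2 * D then v (j - D) + ((s : ℤ) ^ (j - D + 1)) • e else (a : ℤ) • e

/-- `δ` times the form `q` on the hidden vector, as a form in `(γ, e, x)` -/
def sf (k D a n s : ℕ) (δ : ℤ) (W : List (List ℤ)) (q : List ℤ) : List ℤ :=
  vec (k + 1 + n) fun j =>
    if j < k then δ * q.getD j 0
    else if j = k then δ * (q.getD (k + n) 0 +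
      ∑ i ∈ range D, slope k D a q i * (s : ℤ) ^ (i + 1) + a * q.getD (k + 2 * D) 0)
    else δ * q.getD (k + (j - (k + 1))) 0 +
      ∑ i ∈ range n, slope k D a q i * ent W i (j - (k + 1))

/-- candidates: tests and output forms, one pair for each `s` -/
def cands (k D a n : ℕ) (δ : ℤ) (W qs O : List (List ℤ)) :
    List (List (List ℤ) × List (List ℤ)) :=
  (List.range (qs.length * D + 1)).map fun s =>
    ((qs.filter (fun q => decide (∃ i < D, slope k D a q i ≠ 0))).map (sf k D a n s δ W), O.map (fun o => (sf k D a n s δ W o).map (fun c => c / δ)))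

def Jm (k D a n : ℕ) (O : List (List ℤ)) : List (List ℤ) :=
  mat O.length n (fun r i => slope k D a (O.getD r []) i)

def Pm (k n : ℕ) (O : List (List ℤ)) : List (List ℤ) :=
  mat O.length n (fun r i => ent O r (k + i))

def goodB (R : Orc) (k D : ℕ) (qs : List (List ℤ)) (a : ℕ) : Bool :=
  qs.all fun q => decide (∃ i < D, slope k D a q i ≠ 0) ||
    (decide (∀ i < D, q.getD (k + i) 0 = 0) && !R (rform k D a q))

def pickA (R : Orc) (k D : ℕ) (qs : List (List ℤ)) : ℕ :=
  ((List.range (qs.length + 2)).find? (goodB R k D qs)).getD 0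

/-- the advice for the input length `u.length` -/
def adv (Φ : Orc → List Bool → List (List ℤ) × List (List ℤ)) (Dn : ℕ → ℕ)
    (F : (List (List ℤ) × List (List ℤ)) × List Bool → ℤ × List (List ℤ) × List (List ℤ))
    (k : ℕ) (R : Orc) (u : List Bool) : List (List (List ℤ) × List (List ℤ)) × List (List ℤ) :=
  (cands k (Dn u.length) (pickA R k (Dn u.length) (Φ R (un (2 * Dn u.length + 1))).1) u.length
      (F ((Jm k (Dn u.length) (pickA R k (Dn u.length) (Φ R (un (2 * Dn u.length + 1))).1)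
        u.length (Φ R (un (2 * Dn u.length + 1))).2,
        Pm k u.length (Φ R (un (2 * Dn u.length + 1))).2), u)).1
      (F ((Jm k (Dn u.length) (pickA R k (Dn u.length) (Φ R (un (2 * Dn u.length + 1))).1)
        u.length (Φ R (un (2 * Dn u.length + 1))).2,
        Pm k u.length (Φ R (un (2 * Dn u.length + 1))).2), u)).2.1
      (Φ R (un (2 * Dn u.length + 1))).1 (Φ R (un (2 * Dn u.length + 1))).2,
    (F ((Jm k (Dn u.length) (pickA R k (Dn u.length) (Φ R (un (2 * Dn u.length + 1))).1)
        u.length (Φ R (un (2 * Dn u.length + 1))).2,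
        Pm k u.length (Φ R (un (2 * Dn u.length + 1))).2), u)).2.2)

/-- what the encoder and the decoder need from the advice `c` -/
structure Fam (Γ : List A) (c : ℕ → List (List (List ℤ) × List (List ℤ)) × List (List ℤ))
    (L B : Set (List A)) : Prop where
  ex : ∀ x : List A, ∃ z ∈ (c x.length).1, ∀ q ∈ z.1, val q (Γ ++ x) ≠ 0
  red : ∀ x : List A, ∀ z ∈ (c x.length).1, (∀ q ∈ z.1, val q (Γ ++ x) ≠ 0) →
    (x ∈ L ↔ vals z.2 (Γ ++ x) ∈ B)
  li : ∀ n, ∀ z ∈ (c n).1, n < z.2.length
  left : ∀ n, ∀ z ∈ (c n).1, ∀ i < n, ∀ j < n,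
    ∑ r ∈ range z.2.length, ent (c n).2 i r * ent z.2 r (Γ.length + j) = if i = j then 1 else 0
  sep : ∀ x x' : List A, ∀ z ∈ (c x.length).1, ∀ z' ∈ (c x'.length).1,
    vals z.2 (Γ ++ x) = vals z'.2 (Γ ++ x') → x = x'

end Pool.Agent.MP_8a92de_lc.H43

namespace Pool.Agent.MP_8a92de_lc.H43

open Pool.Agent.Lib.Cx Finset

variable {A : Type} [AddCommGroup A]

namespace SLang

open Classical in
/-- the zero pattern of a vector -/
noncomputable def zp (t : List A) : List Bool := t.map (fun a => decide (a = 0))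

theorem length_zp (t : List A) : (zp t).length = t.length := by simp [zp]

theorem zp_eq (γ t : List A) : (units γ.length t.length).map (orc (γ ++ t)) = zp t := by
  have h := vals_units γ t []
  rw [List.append_nil] at h
  conv_rhs => rw [← h]
  unfold zp vals
  rw [List.map_map]
  rfl

theorem uo_zp (k : ℕ) : UO (fun R (u : List Bool) => (units k u.length).map R) :=
  UO.map (F := fun R (z : List Bool × List ℤ) => R z.2) (l := fun u => units k u.length)
    (UO.query (q := fun z : List Bool × List ℤ => z.2) (by fun_prop)) (by fun_prop)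

theorem addF_zp : AddF (zp : List A → List Bool) :=
  ⟨[], _, uo_zp 0, fun x => by rw [length_un, ← zp_eq [] x]; rfl⟩

theorem addPT_zp (γ : List A) {F : List Bool → List (List ℤ)} (hF : PT F) :
    AddPT (fun z => vals (F (zp z)) (γ ++ z)) :=
  addPT_iff.2 ⟨γ, fun R u => F ((units γ.length u.length).map R), UO.post hF (uo_zp _),
    fun x => by simp only [length_un, zp_eq]⟩

theorem getD_zp (t : List A) (i : ℕ) : (zp t).getD i true = true ↔ t.getD i 0 = 0 := by
  unfold zp
  by_cases h : i < t.length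
  · simp [List.getD, h]
  · simp [List.getD, not_lt.1 h]

/-- the guessed number -/
def num (b : List Bool) : ℕ := ofBits ((b.drop (b.length / 2)).map (fun c => !c))

/-- the forms that give the data -/
def fDat (b : List Bool) : List (List ℤ) :=
  mat (b.length / 2 / 2) b.length (fun i j =>
    (if j = i then 1 else 0) - (if j = b.length / 2 / 2 + i then (num b : ℤ) else 0))

/-- the form that checks the key -/
def fKey (b : List Bool) : List (List ℤ) :=
  [vec (b.length + 1) (fun j =>
    (if j = 2 * (b.length / 2 / 2) + 1 ∧ j ≤ b.length / 2 then 1 else 0) -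
      (if j = 0 then (num b : ℤ) else 0))]

/-- the last nonzero position -/
def top (b : List Bool) : ℕ :=
  ((List.range b.length).find? (fun m => decide (¬ b.getD m true = true ∧
    ∀ i < b.length, m < i → b.getD i true = true))).getD 0

def fTop (b : List Bool) : List (List ℤ) := [vec b.length (fun j => if j = top b then 1 else 0)]

def fPre (b : List Bool) : List (List ℤ) := (units 0 b.length).take (top b)

theorem pt_num : PT num := by unfold num; fun_prop

theorem pt_fDat : PT fDat := by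
  have := pt_num
  unfold fDat
  refine pt_mat (by fun_prop) ?_ (by fun_prop) (by fun_prop) (by fun_prop)
  exact PB.mono (s := fun b : List Bool => b.length) (by fun_prop)
    (fun b => (Nat.div_le_self _ _).trans (Nat.div_le_self _ _))

theorem pt_fKey : PT fKey := by
  have := pt_num
  unfold fKey
  fun_prop

theorem pt_top : PT top := by
  unfold top
  refine PT.getD (PT.find? (PT.decide (PP.and (by fun_prop) ?_)) (by fun_prop)) (by fun_prop)
  exact PP.forall_lt (by fun_prop) (by fun_prop) (by fun_prop)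

theorem pt_fTop : PT fTop := by
  have := pt_top
  unfold fTop
  fun_prop

theorem pt_fPre : PT fPre := by
  have := pt_top
  unfold fPre
  fun_prop

theorem top_eq {t : List A} {m : ℕ} (hm : m < t.length) (h1 : t.getD m 0 ≠ 0)
    (h2 : ∀ i < t.length, m < i → t.getD i 0 = 0) : top (zp t) = m := by
  unfold top
  rw [(List.find?_range_eq_some (i := m)).2 ⟨?_, ?_, ?_⟩]
  · rfl
  · simp only [getD_zp, length_zp, decide_eq_true_eq]
    exact ⟨h1, h2⟩
  · rw [length_zp]; exact List.mem_range.2 hm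
  · intro j hj
    simp only [getD_zp, length_zp, Bool.not_eq_eq_eq_not, Bool.not_true, decide_eq_false_iff_not]
    exact fun h => h1 (h.2 m hm hj)

theorem exists_top {t : List A} (h : ¬ ∀ i < t.length, t.getD i 0 = 0) :
    ∃ m < t.length, t.getD m 0 ≠ 0 ∧ ∀ i < t.length, m < i → t.getD i 0 = 0 := by
  classical
  push Not at h
  obtain ⟨i, hi, h⟩ := h
  obtain ⟨m, hm, hmax⟩ := ((range t.length).filter (fun j => t.getD j 0 ≠ 0)).exists_max_image id
    ⟨i, mem_filter.2 ⟨mem_range.2 hi, h⟩⟩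
  rw [mem_filter, mem_range] at hm
  refine ⟨m, hm.1, hm.2, fun j hj hmj => ?_⟩
  by_contra hc
  exact absurd (hmax j (mem_filter.2 ⟨mem_range.2 hj, hc⟩)) (not_le.2 hmj)

theorem vals_fTop {t : List A} (h : top (zp t) < t.length) :
    vals (fTop (zp t)) ([] ++ t) = [t.getD (top (zp t)) 0] := by
  unfold fTop vals
  rw [List.nil_append, List.map_singleton, val_vec _ _ (length_zp t).ge, length_zp]
  simp only [ite_smul, one_smul, zero_smul]
  rw [Finset.sum_ite_eq' _ (top (zp t)), if_pos (mem_range.2 h)]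

theorem vals_fPre (t : List A) : vals (fPre (zp t)) ([] ++ t) = t.take (top (zp t)) := by
  have h := vals_units [] t []
  rw [List.append_nil] at h
  unfold fPre
  rw [length_zp]
  generalize top (zp t) = m
  conv_rhs => rw [← h]
  unfold vals
  rw [List.map_take]
  rfl

open Classical in
/-- the answer on the data `t` -/
noncomputable def inner (e : A) (r : List A → List A) (xy xn t : List A) : List A :=
  if (zp t).all (fun c => c) = true then xy
  else if decide (vals (fTop (zp t)) ([] ++ t) = [e]) = true then r (vals (fPre (zp t)) ([] ++ t))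
  else xn

theorem addPT_inner (e : A) {r : List A → List A} (hr : AddPT r) (xy xn : List A) :
    AddPT (inner e r xy xn) := by
  unfold inner
  exact AddPT.cond (AddF.post (g := fun b : List Bool => b.all (fun c => c)) (by fun_prop) addF_zp)
    (AddPT.const xy) (AddPT.cond (AddF.eq (addPT_zp [] pt_fTop) (AddPT.const [e]))
      (hr.comp (addPT_zp [] pt_fPre)) (AddPT.const xn))

theorem all_zp (t : List A) : (zp t).all (fun c => c) = true ↔ ∀ i < t.length, t.getD i 0 = 0 := by
  unfold zp
  simp only [List.all_map, List.all_eq_true, Function.comp_apply, decide_eq_true_eq]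
  constructor
  · intro h i hi
    exact h _ (by simp [List.getD, hi])
  · intro h a ha
    obtain ⟨i, hi, rfl⟩ := List.getElem_of_mem ha
    simpa [List.getD, hi] using h i hi

theorem inner_mem {e : A} (he : e ≠ 0) {L B : Set (List A)} {r : List A → List A}
    (hL : ∀ x, x ∈ L ↔ r x ∈ B) {xy xn : List A} (hy : xy ∈ B) (hn : xn ∉ B) (D : ℕ) (d : ℕ → A) :
    inner e r xy xn ((List.range D).map d) ∈ B ↔ Yes e L D d := by
  set t := (List.range D).map d with ht
  have hl : t.length = D := by simp [ht]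
  have hg : ∀ i < D, t.getD i 0 = d i := fun i hi => by simp [ht, List.getD, hi]
  have htk : ∀ m < D, t.take m = (List.range m).map d := fun m hm => by
    rw [ht, ← List.map_take, List.take_range, min_eq_left hm.le]
  unfold inner Yes
  by_cases h0 : ∀ i < t.length, t.getD i 0 = 0
  · rw [if_pos ((all_zp t).2 h0)]
    exact iff_of_true hy (Or.inl fun i hi => by rw [← hg i hi]; exact h0 i (hl ▸ hi))
  · rw [if_neg (mt (all_zp t).1 h0)]
    obtain ⟨m, hm, h1, h2⟩ := exists_top h0
    have e1 := top_eq hm h1 h2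
    rw [vals_fTop (e1 ▸ hm), vals_fPre, e1]
    rw [hl] at hm h2 h0
    rw [hg m hm] at h1
    rw [hg m hm, htk m hm]
    have hc : ∀ i : Decidable ([d m] = [e]), @decide _ i = true ↔ d m = e := fun i => by
      rw [decide_eq_true_eq, List.cons.injEq, and_iff_left rfl]
    constructor
    · intro h
      by_cases h3 : d m = e
      · rw [if_pos ((hc _).2 h3)] at h
        exact Or.inr ⟨m, hm, h3, fun i hi hmi => by rw [← hg i hi]; exact h2 i hi hmi, (hL _).2 h⟩
      · rw [if_neg (mt (hc _).1 h3)] at h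
        exact absurd h hn
    · rintro (h | ⟨m', hm', h3, h4, h5⟩)
      · exact absurd (h m hm) h1
      · obtain rfl : m' = m := by
          rcases lt_trichotomy m' m with h | h | h
          · exact absurd (h4 m hm h) h1
          · exact h
          · exact absurd (by rw [← h3, ← hg m' hm']; exact h2 m' hm' h) he
        rw [if_pos ((hc _).2 h3)]
        exact (hL _).1 h5

theorem num_zp {e : A} (he : e ≠ 0) (y : List A) (w : List Bool) (hw : w.length = y.length) :
    num (zp (y ++ w.map (fun b => if b then e else 0))) = ofBits w := by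
  unfold num
  rw [length_zp, List.length_append, List.length_map, hw, ← two_mul,
    Nat.mul_div_cancel_left _ two_pos]
  unfold zp
  rw [List.map_append, List.drop_left' (by simp), List.map_map, List.map_map]
  congr 1
  conv_rhs => rw [← List.map_id w]
  refine List.map_congr_left fun b _ => ?_
  cases b <;> simp [he]

theorem vals_fDat (y v : List A) (hv : v.length = y.length) :
    vals (fDat (zp (y ++ v))) ([] ++ (y ++ v)) =
      (List.range (y.length / 2)).map (dat y (num (zp (y ++ v)))) := by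
  have hl : (zp (y ++ v)).length = 2 * y.length := by
    rw [length_zp, List.length_append, hv, two_mul]
  unfold fDat vals mat
  rw [hl, Nat.mul_div_cancel_left _ two_pos, List.map_map, List.nil_append]
  refine List.map_congr_left fun i hi => ?_
  rw [List.mem_range] at hi
  rw [Function.comp_apply, val_vec _ _ (by rw [List.length_append, hv, two_mul])]
  simp only [sub_smul, ite_smul, one_smul, zero_smul, Finset.sum_sub_distrib]
  rw [Finset.sum_ite_eq' _ i, if_pos (mem_range.2 (by omega)),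
    Finset.sum_ite_eq' _ (y.length / 2 + i), if_pos (mem_range.2 (by omega)),
    List.getD_append _ _ _ _ (by omega), List.getD_append _ _ _ _ (by omega)]
  rfl

theorem vals_fKey (e : A) (y v : List A) (hv : v.length = y.length) :
    vals (fKey (zp (y ++ v))) ([e] ++ (y ++ v)) =
      [y.getD (2 * (y.length / 2)) 0 - (num (zp (y ++ v)) : ℤ) • e] := by
  have hl : (zp (y ++ v)).length = 2 * y.length := by
    rw [length_zp, List.length_append, hv, two_mul]
  unfold fKey vals
  rw [hl, Nat.mul_div_cancel_left _ two_pos, List.map_singleton,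
    val_vec _ _ (by simp [hv]; omega)]
  simp only [sub_smul, ite_smul, one_smul, zero_smul, Finset.sum_sub_distrib]
  rw [Finset.sum_ite_eq' _ 0, if_pos (mem_range.2 (by omega))]
  congr 2
  by_cases h : 2 * (y.length / 2) < y.length
  · rw [Finset.sum_eq_single (2 * (y.length / 2) + 1), if_pos ⟨rfl, by omega⟩]
    · rw [List.singleton_append, List.getD_cons_succ, List.getD_append _ _ _ _ h]
    · intro j _ hj
      rw [if_neg (fun h' => hj h'.1)]
    · intro h'
      exact absurd (mem_range.2 (by omega)) h'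
  · rw [List.getD_eq_default _ _ (not_lt.1 h)]
    exact Finset.sum_eq_zero fun j _ => if_neg (by omega)

theorem exists_bits {a N : ℕ} (h : a < 2 ^ N) : ∃ w : List Bool, w.length = N ∧ ofBits w = a := by
  have h1 : a.bits.length ≤ N := by
    rw [Nat.size_eq_bits_len]; exact Nat.size_le.2 h
  refine ⟨a.bits ++ (List.replicate (N - a.bits.length) true).map (fun _ => false), ?_, ?_⟩
  · simp only [List.length_append, List.length_map, List.length_replicate]; omega
  · rw [ofBits_pad, ofBits_bits]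

end SLang

open SLang in
theorem sl_npred {e : A} (he : e ≠ 0) {L B : Set (List A)} {r : List A → List A} (hr : AddPT r)
    (hL : ∀ x, x ∈ L ↔ r x ∈ B) {xy xn : List A} (hy : xy ∈ B) (hn : xn ∉ B) :
    NPRed (SL e L) B := by
  classical
  have hg := AddPT.cond (AddF.eq (addPT_zp [e] pt_fKey) (AddPT.const [0]))
    ((addPT_inner e hr xy xn).comp (addPT_zp [] pt_fDat)) (AddPT.const xn)
  refine ⟨e, Polynomial.X, _, hg, fun y => ?_⟩
  have key : ∀ w : List Bool, w.length = y.length →
      ((fun x => if decide (vals (fKey (zp x)) ([e] ++ x) = [0]) = true then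
          inner e r xy xn (vals (fDat (zp x)) ([] ++ x)) else xn)
        (y ++ w.map (fun b => if b then e else 0)) ∈ B ↔
      y.getD (2 * (y.length / 2)) 0 = (ofBits w : ℤ) • e ∧
        Yes e L (y.length / 2) (dat y (ofBits w))) := by
    intro w hw
    have hv : (w.map (fun b => if b then e else 0)).length = y.length := by simpa using hw
    simp only [decide_eq_true_eq]
    rw [vals_fKey e y _ hv, vals_fDat y _ hv, num_zp he y w hw]
    simp only [List.cons.injEq, and_true, sub_eq_zero]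
    split_ifs with h
    · rw [inner_mem he hL hy hn]
      exact (and_iff_right h).symm
    · exact iff_of_false hn (fun h' => h h'.1)
  simp only [Polynomial.eval_X]
  constructor
  · rintro ⟨a, ha, h⟩
    obtain ⟨w, hw, rfl⟩ := exists_bits ha
    exact ⟨w, hw, by simpa [code] using (key w hw).2 h⟩
  · rintro ⟨w, hw, h⟩
    refine ⟨ofBits w, ?_, (key w hw).1 (by simpa [code] using h)⟩
    rw [← hw]
    exact size_nat_le_iff.1 (size_ofBits_le w)

end Pool.Agent.MP_8a92de_lc.H43

namespace Pool.Agent.MP_8a92de_lc.H43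

open Pool.Agent.Lib.Cx Finset

variable {A : Type} [AddCommGroup A]

/-- the test that replaces `q` along the generic path -/
def genQ (k N : ℕ) (q : List ℤ) : List ℤ :=
  if ∃ j < N, q.getD (k + j) 0 ≠ 0 then unit k else q.take k

theorem getD_take' (q : List ℤ) (k j : ℕ) :
    (q.take k).getD j 0 = if j < k then q.getD j 0 else 0 := by
  split_ifs with h
  · simp [List.getD, h]
  · simp [List.getD, h]

theorem orc_genQ (γ y : List A) {e : A} (he : e ≠ 0) (q : List ℤ)
    (h : (∃ j < y.length, q.getD (γ.length + j) 0 ≠ 0) → val q (γ ++ y) ≠ 0) :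
    orc (γ ++ y) q = orc (γ ++ [e]) (genQ γ.length y.length q) := by
  unfold genQ
  split_ifs with hq
  · rw [orc_false.2 (h hq), orc_false.2]
    rw [val_unit, List.getD_append_right _ _ _ _ le_rfl]
    simpa using he
  · push Not at hq
    have e1 : val q (γ ++ y) = val (q.take γ.length) (γ ++ [e]) := by
      rw [val_append, val_append]
      congr 1
      · exact Finset.sum_congr rfl fun j hj => by rw [getD_take', if_pos (mem_range.1 hj)]
      · rw [Finset.sum_eq_zero fun j hj => by rw [hq j (mem_range.1 hj), zero_smul],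
          Finset.sum_eq_zero fun j _ => by rw [getD_take', if_neg (by omega), zero_smul]]
    unfold orc
    rw [e1]

theorem path {f : List A → List A} (hf : AddPT f) {e : A} (he : e ≠ 0) :
    ∃ (γ : List A) (Φ : Orc → List Bool → List (List ℤ) × List (List ℤ)), UO Φ ∧ ∀ N,
      (∀ q ∈ (Φ (orc (γ ++ [e])) (un N)).1, ∃ j < N, q.getD (γ.length + j) 0 ≠ 0) ∧
      ∀ y : List A, y.length = N → (∀ q ∈ (Φ (orc (γ ++ [e])) (un N)).1, val q (γ ++ y) ≠ 0) →
        f y = vals (Φ (orc (γ ++ [e])) (un N)).2 (γ ++ y) := by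
  obtain ⟨γ, p, Q, out, hQ, ho, h⟩ := hf
  have hQ' : PT Q := PT.of_isPolyTime hQ
  have ho' : PT out := PT.of_isPolyTime ho
  let Q' : List Bool × List Bool → List ℤ := fun z => genQ γ.length z.1.length (Q z)
  let out' : List Bool × List Bool → List (List ℤ) × List (List ℤ) := fun z =>
    (((List.range z.2.length).map (fun i => Q (z.1, z.2.take i))).filter
      (fun q => decide (∃ j < z.1.length, q.getD (γ.length + j) 0 ≠ 0)), out z)
  have hu : PT (fun _ : List Bool × List Bool => unit γ.length) := PT.const _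
  have hnz : PP (fun w : (List Bool × List Bool) × List ℤ =>
      ∃ j < w.1.1.length, w.2.getD (γ.length + j) 0 ≠ 0) := by fun_prop
  have hQ2 : PT Q' := by
    simp only [Q', genQ]
    exact PT.ite (hnz.comp' (f := fun z : List Bool × List Bool => (z, Q z)) (by fun_prop)) hu
      (by fun_prop)
  have ho2 : PT out' := by
    simp only [out']
    exact PT.prodMk (PT.filter (PT.decide hnz) (by fun_prop)) ho'
  refine ⟨γ, fun R u => out' (u, answers R (fun a => Q' (u, a)) (p.eval u.length)),
    UO.intro (n := fun u => p.eval u.length) (by fun_prop) (by fun_prop) hQ2 ho2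
      (fun _ _ => rfl), fun N => ⟨fun q hq => ?_, fun y hy hg => ?_⟩⟩
  · have := (List.mem_filter.1 hq).2
    simpa using this
  · subst hy
    have key : ∀ i, i ≤ p.eval y.length →
        answers (orc (γ ++ y)) (fun a => Q (un y.length, a)) i =
          answers (orc (γ ++ [e])) (fun a => Q' (un y.length, a)) i := by
      intro i
      induction i with
      | zero => intro _; rfl
      | succ i ih =>
        intro hi
        rw [answers_succ, answers_succ, ih (by omega)]
        simp only [Q', length_un]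
        rw [orc_genQ γ y he]
        intro hq
        refine hg _ (List.mem_filter.2 ⟨List.mem_map.2 ⟨i, ?_, ?_⟩, ?_⟩)
        · simp only [answers_length, length_un, List.mem_range]; omega
        · simp only [length_un]
          rw [answers_take _ _ (by omega)]
          simp only [Q', length_un]
        · simpa using hq
    rw [h y]
    simp only [out', length_un]
    rw [← key _ le_rfl]
    rfl

end Pool.Agent.MP_8a92de_lc.H43

namespace Pool.Agent.MP_8a92de_lc.H43

open Pool.Agent.Lib.Cx Finset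

variable {A : Type} [AddCommGroup A]

@[simp] theorem length_yv (e : A) (D a s : ℕ) (d v : ℕ → A) :
    (yv e D a s d v).length = 2 * D + 1 := by simp [yv]

theorem gen_getD (e : A) (D a s : ℕ) (d v : ℕ → A) {j : ℕ} (hj : j < 2 * D + 1) :
    (yv e D a s d v).getD j 0 =
      if j < D then d j + (a : ℤ) • (v j + ((s : ℤ) ^ (j + 1)) • e)
      else if j < 2 * D then v (j - D) + ((s : ℤ) ^ (j - D + 1)) • e else (a : ℤ) • e := by
  unfold yv
  rw [List.getD_eq_getElem _ _ (by simpa using hj), List.getElem_map, List.getElem_range]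

theorem getD_yv_fst (e : A) (D a s : ℕ) (d v : ℕ → A) {i : ℕ} (hi : i < D) :
    (yv e D a s d v).getD i 0 = d i + (a : ℤ) • (v i + ((s : ℤ) ^ (i + 1)) • e) := by
  rw [gen_getD _ _ _ _ _ _ (by omega), if_pos hi]

theorem getD_yv_snd (e : A) (D a s : ℕ) (d v : ℕ → A) {i : ℕ} (hi : i < D) :
    (yv e D a s d v).getD (D + i) 0 = v i + ((s : ℤ) ^ (i + 1)) • e := by
  rw [gen_getD _ _ _ _ _ _ (by omega), if_neg (by omega), if_pos (by omega),
    Nat.add_sub_cancel_left]

theorem getD_yv_key (e : A) (D a s : ℕ) (d v : ℕ → A) :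
    (yv e D a s d v).getD (2 * D) 0 = (a : ℤ) • e := by
  rw [gen_getD _ _ _ _ _ _ (by omega), if_neg (by omega), if_neg (by omega)]

theorem val_yv (γ : List A) (e : A) (D a s : ℕ) (d v : ℕ → A) (q : List ℤ) :
    val q (γ ++ yv e D a s d v) = ∑ j ∈ range γ.length, q.getD j 0 • γ.getD j 0 +
      ∑ i ∈ range D, q.getD (γ.length + i) 0 • d i +
      ∑ i ∈ range D, slope γ.length D a q i • v i +
      (∑ i ∈ range D, slope γ.length D a q i * (s : ℤ) ^ (i + 1) +
        a * q.getD (γ.length + 2 * D) 0) • e := by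
  rw [val_append, length_yv, Finset.sum_range_succ, getD_yv_key]
  have h2 : ∑ j ∈ range (2 * D), q.getD (γ.length + j) 0 • (yv e D a s d v).getD j 0 =
      ∑ i ∈ range D, (q.getD (γ.length + i) 0 • d i + slope γ.length D a q i • v i +
        (slope γ.length D a q i * (s : ℤ) ^ (i + 1)) • e) := by
    rw [two_mul, Finset.sum_range_add, ← Finset.sum_add_distrib]
    refine Finset.sum_congr rfl fun i hi => ?_
    rw [getD_yv_fst _ _ _ _ _ _ (mem_range.1 hi), getD_yv_snd _ _ _ _ _ _ (mem_range.1 hi),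
      ← Nat.add_assoc]
    unfold slope
    module
  rw [h2, Finset.sum_add_distrib, Finset.sum_add_distrib, ← Finset.sum_smul]
  module

theorem val_rform (γ : List A) (e : A) (D a : ℕ) (q : List ℤ) :
    val (rform γ.length D a q) (γ ++ [e]) = ∑ j ∈ range γ.length, q.getD j 0 • γ.getD j 0 +
      ((a : ℤ) * q.getD (γ.length + 2 * D) 0) • e := by
  unfold rform
  rw [val_vec _ _ (by simp), Finset.sum_range_succ, if_neg (lt_irrefl _)]
  congr 1
  · exact Finset.sum_congr rfl fun j hj => by
      rw [if_pos (mem_range.1 hj), List.getD_append _ _ _ _ (mem_range.1 hj)]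
  · rw [List.getD_append_right _ _ _ _ le_rfl]
    simp

theorem dat_yv (e : A) (D a s : ℕ) (d v : ℕ → A) {i : ℕ} (hi : i < D) :
    dat (yv e D a s d v) a i = d i := by
  unfold dat
  have h : (2 * D + 1) / 2 = D := by omega
  rw [length_yv, h, getD_yv_fst _ _ _ _ _ _ hi, getD_yv_snd _ _ _ _ _ _ hi, add_sub_cancel_right]

theorem Yes.congr {e : A} {L : Set (List A)} {D : ℕ} {d d' : ℕ → A} (h : ∀ i < D, d i = d' i)
    (hd : Yes e L D d) : Yes e L D d' := by
  rcases hd with hd | ⟨m, hm, h1, h2, h3⟩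
  · exact Or.inl fun i hi => (h i hi).symm.trans (hd i hi)
  · refine Or.inr ⟨m, hm, (h m hm).symm.trans h1, fun i hi hmi => (h i hi).symm.trans (h2 i hi hmi), ?_⟩
    have : (List.range m).map d' = (List.range m).map d :=
      List.map_congr_left fun i hi => (h i ((List.mem_range.1 hi).trans hm)).symm
    rw [this]
    exact h3

theorem gen_avoid {ι : Type} (qs : List ι) (P : ι → ℕ → Prop) (n : ℕ) (T : Finset ℕ) {N : ℕ}
    (h : ∀ q ∈ qs, ∀ S : Finset ℕ, (∀ a ∈ S, P q a) → S.card ≤ n)
    (hN : qs.length * n + T.card < N) : ∃ a < N, a ∉ T ∧ ∀ q ∈ qs, ¬ P q a := by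
  classical
  have hc : (qs.toFinset.biUnion (fun q => (range N).filter (P q)) ∪ T).card < (range N).card := by
    rw [card_range]
    refine lt_of_le_of_lt ((card_union_le _ _).trans (Nat.add_le_add_right ?_ _)) hN
    refine (card_biUnion_le_card_mul _ _ n fun q hq =>
      h q (List.mem_toFinset.1 hq) _ fun a ha => (mem_filter.1 ha).2).trans ?_
    exact Nat.mul_le_mul_right _ (List.toFinset_card_le qs)
  obtain ⟨a, ha, hn⟩ := exists_mem_notMem_of_card_lt_card hc
  refine ⟨a, mem_range.1 ha, fun hT => hn (mem_union_right _ hT), fun q hq hP => hn ?_⟩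
  exact mem_union_left _ (mem_biUnion.2 ⟨q, List.mem_toFinset.2 hq, mem_filter.2 ⟨ha, hP⟩⟩)

theorem gen_cancel {e : A} (he : InfOrd e) {m n : ℤ} (h : m • e = n • e) : m = n := he m n h

theorem yv_mem_SL {e : A} (he : InfOrd e) (L : Set (List A)) {D a : ℕ} (ha : a < 2 ^ (2 * D + 1))
    (s : ℕ) (d v : ℕ → A) : yv e D a s d v ∈ SL e L ↔ Yes e L D d := by
  have h : (2 * D + 1) / 2 = D := by omega
  unfold SL
  rw [Set.mem_ofPred_eq, length_yv, h, getD_yv_key]
  constructor
  · rintro ⟨a', -, h1, h2⟩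
    obtain rfl : a = a' := by exact_mod_cast gen_cancel he h1
    exact h2.congr fun i hi => dat_yv _ _ _ _ _ _ hi
  · exact fun h2 => ⟨a, ha, rfl, h2.congr fun i hi => (dat_yv _ _ _ _ _ _ hi).symm⟩

/-- the test `q` rules the key `a` out -/
def Bad (γ : List A) (e : A) (D : ℕ) (q : List ℤ) (a : ℕ) : Prop :=
  ¬ ((∃ i < D, slope γ.length D a q i ≠ 0) ∨
    ((∀ i < D, q.getD (γ.length + i) 0 = 0) ∧ val (rform γ.length D a q) (γ ++ [e]) ≠ 0))

theorem bad_unique (γ : List A) {e : A} (he : InfOrd e) {D : ℕ} {q : List ℤ}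
    (hq : ∃ j < 2 * D + 1, q.getD (γ.length + j) 0 ≠ 0) {a a' : ℕ} (h1 : Bad γ e D q a)
    (h2 : Bad γ e D q a') : a = a' := by
  unfold Bad at h1 h2
  push Not at h1 h2
  by_cases h0 : ∀ i < D, q.getD (γ.length + i) 0 = 0
  · have h3 := h1.2 h0
    have h4 := h2.2 h0
    rw [val_rform] at h3 h4
    have h5 := gen_cancel he (add_left_cancel (h3.trans h4.symm))
    obtain ⟨j, hj, hj0⟩ := hq
    have hjD : j = 2 * D := by
      by_contra hne
      by_cases hlt : j < D
      · exact hj0 (h0 j hlt)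
      · have h6 := h1.1 (j - D) (by omega)
        unfold slope at h6
        rw [h0 (j - D) (by omega), mul_zero, zero_add,
          show γ.length + D + (j - D) = γ.length + j by omega] at h6
        exact hj0 h6
    subst hjD
    exact_mod_cast mul_right_cancel₀ hj0 h5
  · push Not at h0
    obtain ⟨i, hi, hi0⟩ := h0
    have h3 := (h1.1 i hi).trans (h2.1 i hi).symm
    unfold slope at h3
    exact_mod_cast mul_right_cancel₀ hi0 (add_right_cancel h3)

theorem exists_good (γ : List A) {e : A} (he : InfOrd e) {D : ℕ} {qs : List (List ℤ)}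
    (hq : ∀ q ∈ qs, ∃ j < 2 * D + 1, q.getD (γ.length + j) 0 ≠ 0) :
    ∃ a < qs.length + 2, Good γ e D qs a :=
  (gen_avoid qs (Bad γ e D) 1 ∅ (N := qs.length + 2) (fun q hqs S hS =>
    card_le_one.2 fun a ha a' ha' => bad_unique γ he (hq q hqs) (hS a ha) (hS a' ha'))
    (by simp)).imp fun _ ⟨ha, _, h⟩ => ⟨ha, fun q hqs => not_not.1 (h q hqs)⟩

theorem exists_good2 (γ : List A) {e : A} (he : InfOrd e) {D : ℕ} {qs : List (List ℤ)}
    (hq : ∀ q ∈ qs, ∃ j < 2 * D + 1, q.getD (γ.length + j) 0 ≠ 0) :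
    ∃ a < 2 * qs.length + 1, Good γ e D qs a ∧ Good γ e D qs (a + 1) := by
  obtain ⟨a, ha, -, h⟩ := gen_avoid (qs ×ˢ [0, 1]) (fun t a => Bad γ e D t.1 (a + t.2)) 1 ∅
    (N := 2 * qs.length + 1) (fun t ht S hS => card_le_one.2 fun a ha a' ha' =>
      Nat.add_right_cancel
        (bad_unique γ he (hq t.1 (List.mem_product.1 ht).1) (hS a ha) (hS a' ha')))
    (by simp [List.length_product]; omega)
  exact ⟨a, ha, fun q hqs => not_not.1 (h (q, 0) (List.mem_product.2 ⟨hqs, by simp⟩)),
    fun q hqs => not_not.1 (h (q, 1) (List.mem_product.2 ⟨hqs, by simp⟩))⟩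

theorem gen_roots {D : ℕ} (c : ℕ → ℤ) {i : ℕ} (hi : i < D) (hc : c i ≠ 0) (z : ℤ) (S : Finset ℕ)
    (hS : ∀ s ∈ S, ∑ i ∈ range D, c i * (s : ℤ) ^ (i + 1) = z) : S.card ≤ D := by
  classical
  set P : Polynomial ℤ := ∑ i ∈ range D, Polynomial.monomial (i + 1) (c i) - Polynomial.C z with hP
  have h0 : P ≠ 0 := by
    intro h
    have h1 : P.coeff (i + 1) = c i := by
      rw [hP, Polynomial.coeff_sub, Polynomial.coeff_C_succ, sub_zero, Polynomial.finsetSum_coeff,
        Finset.sum_eq_single i]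
      · simp
      · intro j _ hj
        rw [Polynomial.coeff_monomial, if_neg (by omega)]
      · intro h
        exact absurd (mem_range.2 hi) h
    rw [h, Polynomial.coeff_zero] at h1
    exact hc h1.symm
  have hd : P.natDegree ≤ D := by
    refine (Polynomial.natDegree_sub_le _ _).trans (max_le ?_ (by simp))
    refine Polynomial.natDegree_sum_le_of_forall_le _ _ fun j hj => ?_
    exact (Polynomial.natDegree_monomial_le _).trans (mem_range.1 hj)
  have hsub : S.image (fun s : ℕ => (s : ℤ)) ⊆ P.roots.toFinset := by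
    intro x hx
    obtain ⟨s, hs, rfl⟩ := mem_image.1 hx
    rw [Multiset.mem_toFinset, Polynomial.mem_roots h0, Polynomial.IsRoot, hP, Polynomial.eval_sub,
      Polynomial.eval_C, Polynomial.eval_finsetSum]
    simp only [Polynomial.eval_monomial]
    rw [hS s hs, sub_self]
  calc S.card = (S.image (fun s : ℕ => (s : ℤ))).card :=
        (card_image_of_injective _ Nat.cast_injective).symm
    _ ≤ P.roots.toFinset.card := card_le_card hsub
    _ ≤ Multiset.card P.roots := Multiset.toFinset_card_le _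
    _ ≤ P.natDegree := Polynomial.card_roots' P
    _ ≤ D := hd

theorem exists_generic (γ : List A) {e : A} (he : InfOrd e) {D : ℕ} (a : ℕ) {ι : Type}
    (T : List ι) (q : ι → List ℤ) (d v : ι → ℕ → A) {δ : ℤ} (hδ : δ ≠ 0)
    (hT : ∀ t ∈ T, ∃ i < D, slope γ.length D a (q t) i ≠ 0) :
    ∃ s < T.length * D + 1, ∀ t ∈ T, δ • val (q t) (γ ++ yv e D a s (d t) (v t)) ≠ 0 := by
  refine (gen_avoid T (fun t s => δ • val (q t) (γ ++ yv e D a s (d t) (v t)) = 0) D ∅
    (N := T.length * D + 1) (fun t ht S hS => ?_) (by simp)).imp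
    fun s ⟨hs, _, h⟩ => ⟨hs, h⟩
  rcases S.eq_empty_or_nonempty with rfl | ⟨s₀, hs₀⟩
  · simp
  obtain ⟨i, hi, hc⟩ := hT t ht
  refine gen_roots (slope γ.length D a (q t)) hi hc
    (∑ i ∈ range D, slope γ.length D a (q t) i * (s₀ : ℤ) ^ (i + 1)) S fun s hs => ?_
  have h2 := (hS s hs).trans (hS s₀ hs₀).symm
  rw [val_yv, val_yv, smul_add δ, smul_add δ _ (_ • e), smul_smul, smul_smul] at h2
  exact add_right_cancel (mul_left_cancel₀ hδ (gen_cancel he (add_left_cancel h2)))

theorem Good.generic {γ : List A} {e : A} {D a : ℕ} {qs : List (List ℤ)} (hg : Good γ e D qs a)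
    {s : ℕ} {d v : ℕ → A} (h : ∀ q ∈ qs, (∃ i < D, slope γ.length D a q i ≠ 0) →
      val q (γ ++ yv e D a s d v) ≠ 0) : ∀ q ∈ qs, val q (γ ++ yv e D a s d v) ≠ 0 := by
  intro q hqs
  by_cases h1 : ∃ i < D, slope γ.length D a q i ≠ 0
  · exact h q hqs h1
  · obtain ⟨h2, h3⟩ := (hg q hqs).resolve_left h1
    push Not at h1
    rwa [val_yv, Finset.sum_eq_zero (s := range D) (fun i hi => by
        rw [h2 i (mem_range.1 hi), zero_smul]),
      Finset.sum_eq_zero (s := range D) (fun i hi => by rw [h1 i (mem_range.1 hi), zero_smul]),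
      Finset.sum_eq_zero (s := range D) (fun i hi => by rw [h1 i (mem_range.1 hi), zero_mul]),
      add_zero, add_zero, zero_add, ← val_rform]

end Pool.Agent.MP_8a92de_lc.H43

namespace Pool.Agent.MP_8a92de_lc.H43

open Pool.Agent.Lib.Cx Finset

variable {A : Type} [AddCommGroup A]

theorem inj (γ : List A) {e : A} (he : InfOrd e) {D : ℕ} {qs O : List (List ℤ)}
    {L B : Set (List A)} (hq : ∀ q ∈ qs, ∃ j < 2 * D + 1, q.getD (γ.length + j) 0 ≠ 0)
    (hgen : ∀ y : List A, y.length = 2 * D + 1 → (∀ q ∈ qs, val q (γ ++ y) ≠ 0) →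
      (y ∈ SL e L ↔ vals O (γ ++ y) ∈ B))
    (hbig : 2 * qs.length + 1 < 2 ^ (2 * D + 1)) (du dw : ℕ → A)
    (hker : ∀ o ∈ O, ∑ i ∈ range D, o.getD (γ.length + i) 0 • du i +
      ∑ i ∈ range D, o.getD (γ.length + D + i) 0 • dw i = 0) :
    ∀ i < D, du i = 0 ∧ dw i = 0 := by
  classical
  by_contra hne
  -- a good key for which the data direction is nonzero
  obtain ⟨a, ha2, hg, i0, hi0, hε⟩ : ∃ a < 2 ^ (2 * D + 1), Good γ e D qs a ∧
      ∃ i < D, du i - (a : ℤ) • dw i ≠ 0 := by
    obtain ⟨a, ha, hg, hg'⟩ := exists_good2 γ he hq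
    by_contra hc
    push Not at hc
    refine hne fun i hi => ?_
    have h1 := sub_eq_zero.1 (hc a (by omega) hg i hi)
    have h2 := sub_eq_zero.1 (hc (a + 1) (by omega) hg' i hi)
    have h3 : dw i = 0 := by
      rw [h1, Nat.cast_succ, add_smul, one_smul] at h2
      exact (left_eq_add.1 h2)
    exact ⟨by rw [h1, h3, smul_zero], h3⟩
  obtain ⟨s, -, hs⟩ := exists_generic γ he a
    ((qs.filter (fun q => decide (∃ i < D, slope γ.length D a q i ≠ 0))) ×ˢ [(0 : ℤ), 1, -1])
    (fun t => t.1) (fun t i => t.2 • (du i - (a : ℤ) • dw i)) (fun t i => t.2 • dw i) one_ne_zero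
    (fun t ht => of_decide_eq_true (List.mem_filter.1 (List.mem_product.1 ht).1).2)
  let y : ℤ → List A := fun c =>
    yv e D a s (fun i => c • (du i - (a : ℤ) • dw i)) (fun i => c • dw i)
  have hy : ∀ c ∈ [(0 : ℤ), 1, -1], (Yes e L D (fun i => c • (du i - (a : ℤ) • dw i)) ↔
      vals O (γ ++ y c) ∈ B) := fun c hc => by
    rw [← yv_mem_SL he L ha2 s _ (fun i => c • dw i)]
    refine hgen _ (length_yv ..) (hg.generic fun q hq' h => ?_)
    have := hs (q, c) (List.mem_product.2 ⟨List.mem_filter.2 ⟨hq', decide_eq_true h⟩, hc⟩)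
    rwa [one_smul] at this
  have hval : ∀ c : ℤ, vals O (γ ++ y c) = vals O (γ ++ y 0) := fun c =>
    List.map_congr_left fun q hq' => by
      have h1 : ∑ i ∈ range D, q.getD (γ.length + i) 0 • c • (du i - (a : ℤ) • dw i) +
          ∑ i ∈ range D, slope γ.length D a q i • c • dw i =
          c • (∑ i ∈ range D, q.getD (γ.length + i) 0 • du i +
            ∑ i ∈ range D, q.getD (γ.length + D + i) 0 • dw i) := by
        rw [← Finset.sum_add_distrib, ← Finset.sum_add_distrib, Finset.smul_sum]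
        refine Finset.sum_congr rfl fun i _ => ?_
        rw [slope]
        module
      rw [hker q hq', smul_zero] at h1
      simp only [y, val_yv, zero_smul, smul_zero, Finset.sum_const_zero, add_zero]
      rw [add_assoc (∑ j ∈ range γ.length, _), h1, add_zero]
  have hB : vals O (γ ++ y 0) ∈ B := (hy 0 (by simp)).1 (Or.inl fun _ _ => zero_smul _ _)
  have h1 := (hy 1 (by simp)).2 (hval 1 ▸ hB)
  have h2 := (hy (-1) (by simp)).2 (hval (-1) ▸ hB)
  simp only [one_smul, neg_smul] at h1 h2
  rcases h1 with h1 | ⟨m, hm, a1, a2, -⟩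
  · exact hε (h1 i0 hi0)
  rcases h2 with h2 | ⟨m', hm', b1, b2, -⟩
  · exact hε (neg_eq_zero.1 (h2 i0 hi0))
  dsimp only at a1 a2 b1 b2
  rcases lt_trichotomy m m' with c | c | c
  · rw [a2 m' hm' c, neg_zero] at b1
    exact he.ne b1.symm
  · subst c
    rw [a1] at b1
    exact absurd (he (-1) 1 (by simpa using b1)) (by decide)
  · have := neg_eq_zero.1 (b2 m hm c)
    exact he.ne (a1.symm.trans this)

end Pool.Agent.MP_8a92de_lc.H43

namespace Pool.Agent.MP_8a92de_lc.H43

open Pool.Agent.Lib.Cx Finset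

theorem poly_lt_two_pow (τ : Polynomial ℕ) :
    ∀ c : ℕ, ∀ᶠ m : ℕ in Filter.atTop, c * τ.eval m < 2 ^ m := by
  induction τ using Polynomial.induction_on' with
  | add p q hp hq =>
    intro c
    filter_upwards [hp (2 * c), hq (2 * c)] with m h1 h2
    rw [Polynomial.eval_add, mul_add]
    rw [mul_assoc] at h1 h2
    omega
  | monomial n a =>
    intro c
    have h := tendsto_pow_const_div_const_pow_of_one_lt n (r := 2) one_lt_two
    have hpos : (0 : ℝ) < 1 / ((c * a : ℕ) + 1) := by positivity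
    filter_upwards [h.eventually (gt_mem_nhds hpos)] with m hm
    rw [div_lt_div_iff₀ (by positivity) (by positivity), one_mul] at hm
    rw [Polynomial.eval_monomial, ← mul_assoc]
    have h2 : (0 : ℝ) ≤ (m : ℝ) ^ n := by positivity
    have h3 : (((c * a) * m ^ n : ℕ) : ℝ) < ((2 ^ m : ℕ) : ℝ) := by
      rw [Nat.cast_mul, Nat.cast_pow, Nat.cast_pow, Nat.cast_ofNat]
      nlinarith
    exact_mod_cast h3

theorem level (τ : Polynomial ℕ) : ∃ Dn : ℕ → ℕ, PT (fun u : List Bool => un (Dn u.length)) ∧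
    (∀ n, n < Dn n) ∧ (∀ n, τ.eval (2 * Dn n + 1) + 1 < 2 ^ (2 * Dn n + 1)) ∧
    ∀ n n', Dn n < Dn n' → τ.eval (2 * Dn n + 1) < Dn n' := by
  obtain ⟨K, hK⟩ := Filter.eventually_atTop.1 (poly_lt_two_pow (τ + 1) 1)
  let nx : ℕ → ℕ := fun D => τ.eval (2 * D + 1) + D + 1
  let st : ℕ → ℕ → ℕ := fun n D => if D ≤ n then nx D else D
  have inv : ∀ n i, (∃ j, (st n)^[i] K = nx^[j] K) ∧ (n < (st n)^[i] K ∨ i ≤ (st n)^[i] K) ∧
      (st n)^[i] K ≤ K + nx n := by
    intro n i
    induction i with
    | zero => exact ⟨⟨0, rfl⟩, Or.inr (Nat.zero_le _), Nat.le_add_right _ _⟩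
    | succ i ih =>
      obtain ⟨⟨j, hj⟩, h1, h2⟩ := ih
      rw [Function.iterate_succ_apply']
      generalize (st n)^[i] K = D at hj h1 h2
      by_cases h : D ≤ n
      · have e : st n D = nx D := if_pos h
        have hm : τ.eval (2 * D + 1) ≤ τ.eval (2 * n + 1) := eval_mono τ (by omega)
        rw [e]
        refine ⟨⟨j + 1, by rw [Function.iterate_succ_apply', hj]⟩, Or.inr ?_, ?_⟩
        · simp only [nx]; omega
        · simp only [nx]; omega
      · have e : st n D = D := if_neg h
        rw [e]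
        exact ⟨⟨j, hj⟩, Or.inl (by omega), h2⟩
  have mono : Monotone (fun j => nx^[j] K) := monotone_nat_of_le_succ fun j => by
    rw [Function.iterate_succ_apply']
    simp only [nx]; omega
  refine ⟨fun n => (st n)^[n + 1] K, ?_, fun n => ?_, fun n => ?_, fun n n' h => ?_⟩
  · have hb : PB (fun u : List Bool => K + nx u.length) := by simp only [nx]; fun_prop
    have h1 : PT (fun u : List Bool => (st u.length)^[u.length + 1] K) :=
      PT.iterate (f := fun u : List Bool => st u.length) (n := fun u => u.length + 1)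
        (c := fun _ => K) (by simp only [st, nx]; fun_prop) (by fun_prop) (by fun_prop)
        (by fun_prop) _ hb (fun u i _ => (size_nat_le_self _).trans (inv u.length i).2.2)
    exact pt_un h1 (hb.mono fun u => (inv u.length _).2.2)
  · have := (inv n (n + 1)).2.1
    dsimp only
    omega
  · obtain ⟨j, hj⟩ := (inv n (n + 1)).1
    have h1 : K ≤ nx^[j] K := mono (Nat.zero_le j)
    have := hK (2 * (st n)^[n + 1] K + 1) (by omega)
    simpa using this
  · obtain ⟨j, hj⟩ := (inv n (n + 1)).1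
    obtain ⟨j', hj'⟩ := (inv n' (n' + 1)).1
    dsimp only at h ⊢
    rw [hj, hj'] at h
    rw [hj, hj']
    have h1 : j + 1 ≤ j' := by
      by_contra hc
      exact absurd h (not_lt.2 (mono (by omega : j' ≤ j)))
    have h2 : nx^[j + 1] K ≤ nx^[j'] K := mono h1
    rw [Function.iterate_succ_apply'] at h2
    have e : nx (nx^[j] K) = τ.eval (2 * nx^[j] K + 1) + nx^[j] K + 1 := rfl
    omega

end Pool.Agent.MP_8a92de_lc.H43

namespace Pool.Agent.MP_8a92de_lc.H43

open Pool.Agent.Lib.Cx Finset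

section pt

variable {α : Type} [Enc α] {k : ℕ}

@[fun_prop] theorem pt_slope {D a i : α → ℕ} {q : α → List ℤ} (hD : PT D) (ha : PT a) (hq : PT q)
    (hi : PT i) : PT (fun x => slope k (D x) (a x) (q x) (i x)) := by
  unfold slope; fun_prop

@[fun_prop] theorem pt_rform {D a : α → ℕ} {q : α → List ℤ} (hD : PT D) (ha : PT a) (hq : PT q) :
    PT (fun x => rform k (D x) (a x) (q x)) := by
  unfold rform; fun_prop

theorem pt_sf {d u : α → List Bool} {a s : α → ℕ} {δ : α → ℤ} {W : α → List (List ℤ)}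
    {q : α → List ℤ} (hd : PT d) (hu : PT u) (ha : PT a) (hs : PT s) (hδ : PT δ) (hW : PT W)
    (hq : PT q) :
    PT (fun x => sf k (d x).length (a x) (u x).length (s x) (δ x) (W x) (q x)) := by
  have h1 : PT (fun x => ∑ i ∈ range (d x).length,
      slope k (d x).length (a x) (q x) i * (s x : ℤ) ^ (min (i + 1) (d x).length)) := by fun_prop
  have h2 : PT (fun x => ∑ i ∈ range (d x).length,
      slope k (d x).length (a x) (q x) i * (s x : ℤ) ^ (i + 1)) :=
    h1.of_eq fun x => Finset.sum_congr rfl fun i hi => by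
      rw [min_eq_left (Nat.succ_le_of_lt (mem_range.1 hi))]
  have h3 : PT (fun p : α × ℕ => ∑ i ∈ range (d p.1).length,
      slope k (d p.1).length (a p.1) (q p.1) i * (s p.1 : ℤ) ^ (i + 1)) :=
    h2.comp' (f := fun p : α × ℕ => p.1) (by fun_prop)
  have h4 : PT (fun p : α × ℕ => ∑ i ∈ range (u p.1).length,
      slope k (d p.1).length (a p.1) (q p.1) i * ent (W p.1) i (p.2 - (k + 1))) := by fun_prop
  unfold sf
  refine pt_vec (by fun_prop) (by fun_prop) ?_
  refine PT.ite (by fun_prop) (by fun_prop) (PT.ite (by fun_prop) ?_ ?_)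
  · exact pt_mul (by fun_prop) (pt_add (pt_add (by fun_prop) h3) (by fun_prop))
  · exact pt_add (by fun_prop) h4

theorem pt_cands {d u : α → List Bool} {a : α → ℕ} {δ : α → ℤ} {W qs O : α → List (List ℤ)}
    (hd : PT d) (hu : PT u) (ha : PT a) (hδ : PT δ) (hW : PT W) (hq : PT qs) (hO : PT O) :
    PT (fun x => cands k (d x).length (a x) (u x).length (δ x) (W x) (qs x) (O x)) := by
  have h1 : PT (fun p : (α × ℕ) × List ℤ => sf k (d p.1.1).length (a p.1.1) (u p.1.1).length
      p.1.2 (δ p.1.1) (W p.1.1) p.2) :=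
    pt_sf (by fun_prop) (by fun_prop) (by fun_prop) (by fun_prop) (by fun_prop) (by fun_prop)
      (by fun_prop)
  have h2 : PT (fun x => (qs x).filter
      (fun q => decide (∃ i < (d x).length, slope k (d x).length (a x) q i ≠ 0))) := by fun_prop
  unfold cands
  refine PT.map (PT.prodMk (PT.map h1 (h2.comp' PT.id'.fst)) (PT.map ?_ (by fun_prop))) (by fun_prop)
  exact PT.map (by fun_prop) h1

theorem pt_Jm {u : α → List Bool} {D a : α → ℕ} {O : α → List (List ℤ)} (hD : PT D) (hu : PT u)
    (ha : PT a) (hO : PT O) : PT (fun x => Jm k (D x) (a x) (u x).length (O x)) := by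
  unfold Jm
  exact pt_mat (by fun_prop) (by fun_prop) (by fun_prop) (by fun_prop) (by fun_prop)

theorem pt_Pm {u : α → List Bool} {O : α → List (List ℤ)} (hu : PT u) (hO : PT O) :
    PT (fun x => Pm k (u x).length (O x)) := by
  unfold Pm
  exact pt_mat (by fun_prop) (by fun_prop) (by fun_prop) (by fun_prop) (by fun_prop)

end pt

theorem goodB_uo (k : ℕ) : UO (fun R (z : (List Bool × List (List ℤ)) × ℕ) =>
    goodB R k z.1.1.length z.1.2 z.2) := by
  have h1 : UO (fun R (w : ((List Bool × List (List ℤ)) × ℕ) × List ℤ) =>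
      (w, R (rform k w.1.1.1.length w.1.2 w.2))) := (UO.query (by fun_prop)).keep
  have h2 : PT (fun v : (((List Bool × List (List ℤ)) × ℕ) × List ℤ) × Bool =>
      decide (∃ i < v.1.1.1.1.length, slope k v.1.1.1.1.length v.1.1.2 v.1.2 i ≠ 0) ||
        (decide (∀ i < v.1.1.1.1.length, v.1.2.getD (k + i) 0 = 0) && !v.2)) := by fun_prop
  exact UO.all (l := fun z : (List Bool × List (List ℤ)) × ℕ => z.1.2) (UO.post h2 h1)
    (by fun_prop)

theorem pickA_uo (k : ℕ) : UO (fun R (z : List Bool × List (List ℤ)) =>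
    pickA R k z.1.length z.2) :=
  UO.post (g := fun o : Option ℕ => o.getD 0) (by fun_prop)
    (UO.find? (l := fun z : List Bool × List (List ℤ) => List.range (z.2.length + 2))
      (goodB_uo k) (by fun_prop))

theorem adv_uo {Φ : Orc → List Bool → List (List ℤ) × List (List ℤ)} {Dn : ℕ → ℕ}
    {F : (List (List ℤ) × List (List ℤ)) × List Bool → ℤ × List (List ℤ) × List (List ℤ)}
    (hΦ : UO Φ) (hD : PT (fun u : List Bool => un (Dn u.length))) (hF : PT F) (k : ℕ) :
    UO (adv Φ Dn F k) := by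
  have h0 : PT (fun u : List Bool => un (2 * (un (Dn u.length)).length + 1)) :=
    pt_un (by fun_prop) (by fun_prop)
  have h1 : UO (fun R (u : List Bool) => Φ R (un (2 * (un (Dn u.length)).length + 1))) :=
    hΦ.pre h0
  have h2 : UO (fun R (u : List Bool) => ((u, un (Dn u.length)),
      Φ R (un (2 * (un (Dn u.length)).length + 1)))) :=
    (UO.of_pt (PT.prodMk PT.id' hD)).pair h1
  have h3 : UO (fun R (z : (List Bool × List Bool) × List (List ℤ) × List (List ℤ)) =>
      (z, pickA R k z.1.2.length z.2.1)) :=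
    ((pickA_uo k).pre (f := fun z : (List Bool × List Bool) × List (List ℤ) × List (List ℤ) =>
      (z.1.2, z.2.1)) (by fun_prop)).keep
  have h4 : PT (fun w : ((List Bool × List Bool) × List (List ℤ) × List (List ℤ)) × ℕ =>
      F ((Jm k w.1.1.2.length w.2 w.1.1.1.length w.1.2.2, Pm k w.1.1.1.length w.1.2.2),
        w.1.1.1)) :=
    hF.comp' (PT.prodMk (PT.prodMk
      (pt_Jm (by fun_prop) (by fun_prop) (by fun_prop) (by fun_prop))
      (pt_Pm (by fun_prop) (by fun_prop))) (by fun_prop))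
  have h5 := PT.prodMk (pt_cands (k := k)
    (d := fun w : ((List Bool × List Bool) × List (List ℤ) × List (List ℤ)) × ℕ => w.1.1.2)
    (u := fun w => w.1.1.1) (a := fun w => w.2) (qs := fun w => w.1.2.1) (O := fun w => w.1.2.2)
    (by fun_prop) (by fun_prop) (by fun_prop) h4.fst h4.snd.fst (by fun_prop) (by fun_prop))
    h4.snd.snd
  refine (UO.post h5 (h3.comp h2)).of_eq fun R u => ?_
  simp only [adv, length_un]

end Pool.Agent.MP_8a92de_lc.H43

/-! The encoder and the decoder attached to a family of candidates. -/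

namespace Pool.Agent.MP_8a92de_lc.H43

open Pool.Agent.Lib.Cx Finset

variable {A : Type} [AddCommGroup A]

theorem ed_take (Γ x : List A) : (fun q => orc (Γ ++ x) (q.take Γ.length)) = orc Γ := by
  refine _root_.funext fun q => ?_
  have h : val (q.take Γ.length) (Γ ++ x) = val q Γ := by
    rw [val_append, val_eq_sum q Γ le_rfl, sum_eq_zero (s := range x.length) fun j _ => by
      rw [List.getD_eq_default _ _ (by simp), zero_smul], add_zero]
    exact sum_congr rfl fun j hj => by simp [List.getD, mem_range.1 hj]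
  rw [orc, orc, h]

theorem ed_uo {β : Type} [Enc β] {Ψ : Orc → List Bool → β} (hΨ : UO Ψ) (k : ℕ) :
    UO (fun R u => Ψ (fun q => R (q.take k)) u) :=
  (hΨ.subst (s := fun w : List Bool × List ℤ => w.2.take k) (by fun_prop)).pre
    (f := fun u : List Bool => (u, u)) (by fun_prop)

theorem encoder {Γ : List A}
    {Ψ : Orc → List Bool → List (List (List ℤ) × List (List ℤ)) × List (List ℤ)} (hΨ : UO Ψ)
    (h : ∀ x : List A, ∃ z ∈ (Ψ (orc Γ) (un x.length)).1, ∀ q ∈ z.1, val q (Γ ++ x) ≠ 0) :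
    ∃ f : List A → List A, AddPT f ∧ ∀ x, ∃ z ∈ (Ψ (orc Γ) (un x.length)).1,
      (∀ q ∈ z.1, val q (Γ ++ x) ≠ 0) ∧ f x = vals z.2 (Γ ++ x) := by
  have h1 : UO (fun R (w : List (List (List ℤ) × List (List ℤ)) ×
      List (List ℤ) × List (List ℤ)) => w.2.1.all fun q => !R q) :=
    UO.all (F := fun R (w : (List (List (List ℤ) × List (List ℤ)) ×
      List (List ℤ) × List (List ℤ)) × List ℤ) => !R w.2)
      (UO.post (g := fun b : Bool => !b) (by fun_prop) (UO.query (by fun_prop))) (by fun_prop)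
  have h2 := UO.post (g := fun o : Option (List (List ℤ) × List (List ℤ)) => (o.getD default).2)
    (by fun_prop) ((UO.find? (l := fun c => c) h1 (by fun_prop)).comp
      (UO.post (g := Prod.fst) (by fun_prop) (ed_uo hΨ Γ.length)))
  refine ⟨_, addPT_iff.2 ⟨Γ, _, h2, fun _ => rfl⟩, fun x => ?_⟩
  simp only [ed_take]
  obtain ⟨z₀, a1, a2⟩ := h x
  obtain ⟨z, hz⟩ := Option.isSome_iff_exists.1 ((List.find?_isSome
    (p := fun z : List (List ℤ) × List (List ℤ) => z.1.all fun q => !orc (Γ ++ x) q)).2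
    ⟨z₀, a1, by simpa only [List.all_eq_true, Bool.not_eq_true', orc_false] using a2⟩)
  refine ⟨z, List.mem_of_find?_eq_some hz, ?_, by rw [hz, Option.getD_some]⟩
  simpa only [List.all_eq_true, Bool.not_eq_true', orc_false] using List.find?_some hz

/-- The forms that recover the input from the output. -/
def edX (k l n : ℕ) (G O : List (List ℤ)) : List (List ℤ) :=
  mat n (k + l) fun i j => if j < k then -∑ r ∈ range l, ent G i r * ent O r j else ent G i (j - k)

theorem ed_left (Γ x : List A) {G O : List (List ℤ)} (h : ∀ i < x.length, ∀ j < x.length,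
    ∑ r ∈ range O.length, ent G i r * ent O r (Γ.length + j) = if i = j then 1 else 0) :
    vals (edX Γ.length O.length x.length G O) (Γ ++ vals O (Γ ++ x)) = x := by
  refine List.ext_getElem (by simp [edX]) fun i h1 h2 => ?_
  rw [← List.getD_eq_getElem _ 0 h1, ← List.getD_eq_getElem _ 0 h2, getD_vals, edX, getD_mat,
    if_pos h2, val_append, length_vals]
  have a1 : ∀ j ∈ range Γ.length, (vec (Γ.length + O.length) fun j => if j < Γ.length then
      -∑ r ∈ range O.length, ent G i r * ent O r j else ent G i (j - Γ.length)).getD j 0 •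
        Γ.getD j 0 = -∑ r ∈ range O.length, ent G i r • ent O r j • Γ.getD j 0 := by
    intro j hj
    have h3 := mem_range.1 hj
    rw [getD_vec, if_pos (by omega), if_pos h3, neg_smul, sum_smul]
    simp only [mul_smul]
  have a2 : ∀ r ∈ range O.length, (vec (Γ.length + O.length) fun j => if j < Γ.length then
      -∑ r ∈ range O.length, ent G i r * ent O r j else ent G i (j - Γ.length)).getD
        (Γ.length + r) 0 • (vals O (Γ ++ x)).getD r 0 =
      ∑ j ∈ range Γ.length, ent G i r • ent O r j • Γ.getD j 0 +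
        ∑ j ∈ range x.length, (ent G i r * ent O r (Γ.length + j)) • x.getD j 0 := by
    intro r hr
    have h3 := mem_range.1 hr
    rw [getD_vec, if_pos (by omega), if_neg (by omega), Nat.add_sub_cancel_left, getD_vals,
      val_append, smul_add, smul_sum, smul_sum]
    simp only [mul_smul, ent]
  rw [sum_congr rfl a1, sum_congr rfl a2, sum_add_distrib, sum_neg_distrib, sum_comm,
    neg_add_cancel_left, sum_comm, sum_congr rfl fun j hj => by
      rw [← sum_smul, h i h2 j (mem_range.1 hj), ite_smul, one_smul, zero_smul],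
    sum_ite_eq, if_pos (mem_range.2 h2)]

/-- The test that the candidate reproduces the given vector. -/
def edT (k : ℕ) (R : Orc) (w : List Bool × List (List ℤ) × List (List ℤ)) : Bool :=
  decide (w.2.1.length = w.1.length) && (w.2.1.zip (units k w.1.length)).all fun p =>
    R (lin (k + w.1.length) (-1 :: p.1) (p.2 :: (units 0 k ++ w.2.2)))

theorem ed_uoT (k : ℕ) : UO (edT k) :=
  UO.post (g := fun w : (List Bool × List (List ℤ) × List (List ℤ)) × Bool =>
    decide (w.1.2.1.length = w.1.1.length) && w.2) (by fun_prop)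
    (UO.all (F := fun R (w : (List Bool × List (List ℤ) × List (List ℤ)) × List ℤ × List ℤ) =>
      R (lin (k + w.1.1.length) (-1 :: w.2.1) (w.2.2 :: (units 0 k ++ w.1.2.2))))
      (l := fun w => w.2.1.zip (units k w.1.length)) (UO.query (by fun_prop)) (by fun_prop)).keep

theorem ed_test (Γ v : List A) (O X : List (List ℤ)) :
    edT Γ.length (orc (Γ ++ v)) (un v.length, O, X) = true ↔
      vals O (Γ ++ vals X (Γ ++ v)) = v := by
  have h1 := vals_units Γ v []
  have h2 := vals_units [] Γ v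
  rw [List.append_nil] at h1
  rw [List.nil_append, List.length_nil] at h2
  have h3 : ∀ q r : List ℤ, val (lin (Γ.length + v.length) (-1 :: q)
      (r :: (units 0 Γ.length ++ X))) (Γ ++ v) = 0 ↔
        val q (Γ ++ vals X (Γ ++ v)) = val r (Γ ++ v) := by
    intro q r
    have h4 : vals (r :: (units 0 Γ.length ++ X)) (Γ ++ v) =
        val r (Γ ++ v) :: (Γ ++ vals X (Γ ++ v)) := by
      rw [vals, List.map_cons, List.map_append]
      exact congrArg (fun t => val r (Γ ++ v) :: (t ++ vals X (Γ ++ v))) h2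
    rw [val_lin _ _ _ (by simp), h4, val, List.zipWith_cons_cons, List.sum_cons, neg_smul,
      one_smul, neg_add_eq_zero, eq_comm]
    rfl
  have h5 : ∀ z z' : List A, ∀ E : List (List ℤ), vals O z = vals E z' ↔ O.length = E.length ∧
      ∀ {a b}, (a, b) ∈ O.zip E → val a z = val b z' := fun z z' E => by
    rw [← List.forall₂_iff_zip, vals, vals, ← List.forall₂_eq_eq_eq, List.forall₂_map_left_iff,
      List.forall₂_map_right_iff]
  have h6 := h5 (Γ ++ vals X (Γ ++ v)) (Γ ++ v) (units Γ.length v.length)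
  rw [h1] at h6
  rw [h6, show (units Γ.length v.length).length = v.length by simp [units]]
  simp only [edT, length_un, Bool.and_eq_true, decide_eq_true_eq, List.all_eq_true, orc_true, h3,
    Prod.forall]

theorem decoder {Γ : List A}
    {Ψ : Orc → List Bool → List (List (List ℤ) × List (List ℤ)) × List (List ℤ)} (hΨ : UO Ψ)
    {L B : Set (List A)} (h : Fam Γ (fun n => Ψ (orc Γ) (un n)) L B) :
    ∃ g : List A → List A, AddPT g ∧ ∀ x : List A, ∀ z ∈ (Ψ (orc Γ) (un x.length)).1,
      g (vals z.2 (Γ ++ x)) = x := by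
  have h1 := (UO.map (l := fun u : List Bool => (List.range u.length).map fun n => u.take n)
    ((ed_uo hΨ Γ.length).keep.pre (f := fun p : List Bool × List Bool => p.2) (by fun_prop))
    (by fun_prop)).keep
  have h2 := UO.post (g := fun w : List Bool × List (List Bool ×
      List (List (List ℤ) × List (List ℤ)) × List (List ℤ)) =>
    (w.1, w.2.flatMap fun a => a.2.1.map fun z =>
      (z.2, edX Γ.length w.1.length a.1.length a.2.2 z.2)))
    (by unfold edX; fun_prop) h1
  have h3 := UO.find? (l := fun c : List Bool × List (List (List ℤ) × List (List ℤ)) => c.2)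
    ((ed_uoT Γ.length).pre (f := fun p : (List Bool × List (List (List ℤ) × List (List ℤ))) ×
      List (List ℤ) × List (List ℤ) => (p.1.1, p.2)) (by fun_prop)) (by fun_prop)
  have h4 := UO.post (g := fun o : Option (List (List ℤ) × List (List ℤ)) => (o.getD default).2)
    (by fun_prop) (h3.comp h2)
  refine ⟨_, addPT_iff.2 ⟨Γ, _, h4, fun _ => rfl⟩, fun x z hz => ?_⟩
  obtain ⟨v, hv⟩ : ∃ v, v = vals z.2 (Γ ++ x) := ⟨_, rfl⟩
  have hl : v.length = z.2.length := by rw [hv, length_vals]
  have ht : ∀ n < v.length, (un v.length).take n = un n := fun n hn => by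
    rw [un, List.take_replicate, min_eq_left hn.le, un]
  rw [← hv]
  simp only [ed_take, length_un]
  generalize hC : List.flatMap _ _ = C
  have hm : ∀ c, c ∈ C ↔ ∃ n < v.length, ∃ y ∈ (Ψ (orc Γ) (un n)).1,
      (y.2, edX Γ.length v.length n (Ψ (orc Γ) (un n)).2 y.2) = c := by
    intro c
    rw [← hC]
    simp only [List.map_map, List.mem_flatMap, List.mem_map, List.mem_range, Function.comp_apply]
    constructor
    · rintro ⟨_, ⟨n, hn, rfl⟩, y, a1, a2⟩
      rw [ht n hn] at a1 a2
      exact ⟨n, hn, y, a1, by simpa only [length_un] using a2⟩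
    · rintro ⟨n, hn, y, a1, a2⟩
      exact ⟨_, ⟨n, hn, rfl⟩, y, by rwa [ht n hn], by simpa only [ht n hn, length_un] using a2⟩
  obtain ⟨c, hc⟩ := Option.isSome_iff_exists.1 ((List.find?_isSome
    (p := fun c => edT Γ.length (orc (Γ ++ v)) (un v.length, c))).2
    ⟨_, (hm _).2 ⟨x.length, hl ▸ h.li _ z hz, z, hz, rfl⟩, by
      rw [ed_test, hl, hv, ed_left Γ x (h.left _ z hz)]⟩)
  have a1 := List.find?_some hc
  obtain ⟨n, -, y, a2, rfl⟩ := (hm c).1 (List.mem_of_find?_eq_some hc)
  rw [hc, Option.getD_some]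
  rw [ed_test] at a1
  refine h.sep _ x y ?_ z hz (a1.trans hv)
  simpa only [length_vals, edX, length_mat] using a2

end Pool.Agent.MP_8a92de_lc.H43

namespace Pool.Agent.MP_8a92de_lc.H43

open Pool.Agent.Lib.Cx Finset

variable {A : Type} [AddCommGroup A]

/-- the data `(x, e, 0, …)` -/
def dvec (e : A) (x : List A) (i : ℕ) : A :=
  if i < x.length then x.getD i 0 else if i = x.length then e else 0

theorem sum_range_cut {M : Type} [AddCommMonoid M] {n D : ℕ} (h : n ≤ D) (f : ℕ → M)
    (h0 : ∀ i, n ≤ i → f i = 0) : ∑ i ∈ range D, f i = ∑ i ∈ range n, f i :=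
  (Finset.sum_subset (range_mono h) fun i _ hi => h0 i (by simpa using hi)).symm

theorem yes_dvec {e : A} (he : e ≠ 0) (L : Set (List A)) {D : ℕ} {x : List A}
    (h : x.length < D) : Yes e L D (dvec e x) ↔ x ∈ L := by
  have h1 : dvec e x x.length = e := by simp [dvec]
  have h2 : ∀ i, x.length < i → dvec e x i = 0 := fun i hi => by
    rw [dvec, if_neg (by omega), if_neg (by omega)]
  have h3 : (List.range x.length).map (dvec e x) = x :=
    List.ext_getElem (by simp) fun i _ hi => by simp [dvec, hi, List.getD]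
  constructor
  · rintro (h0 | ⟨m, hm, e1, e2, e3⟩)
    · exact absurd (h1.symm.trans (h0 _ h)) he
    · rcases lt_trichotomy m x.length with c | c | c
      · exact absurd (h1.symm.trans (e2 _ h c)) he
      · rwa [c, h3] at e3
      · exact absurd (e1.symm.trans (h2 _ c)) he
  · intro hx
    exact Or.inr ⟨x.length, h, h1, fun i _ hi => h2 i hi, by rwa [h3]⟩

theorem dvec_inj {e : A} (he : e ≠ 0) {D : ℕ} {x x' : List A} (h : x.length < D)
    (h' : x'.length < D) (hd : ∀ i < D, dvec e x i = dvec e x' i) : x = x' := by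
  have key : ∀ {x x' : List A}, x'.length < D → (∀ i < D, dvec e x i = dvec e x' i) →
      ¬ x.length < x'.length := by
    intro x x' h' hd c
    have := hd _ h'
    rw [dvec, if_neg (by omega), if_neg (by omega), dvec, if_neg (by omega), if_pos rfl] at this
    exact he this.symm
  have e1 : x.length = x'.length := by
    have := key h' hd
    have := key h (fun i hi => (hd i hi).symm)
    omega
  refine List.ext_getElem e1 fun i h1 h2 => ?_
  have := hd i (by omega)
  simpa [dvec, h1, h2, List.getD] using this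

theorem goodB_iff (γ : List A) (e : A) (D : ℕ) (qs : List (List ℤ)) (a : ℕ) :
    goodB (orc (γ ++ [e])) γ.length D qs a = true ↔ Good γ e D qs a := by
  simp only [goodB, Good, List.all_eq_true, Bool.or_eq_true, decide_eq_true_eq,
    Bool.and_eq_true, Bool.not_eq_true', orc_false]

theorem getD_map_div (l : List ℤ) (δ : ℤ) (j : ℕ) :
    (l.map (fun c => c / δ)).getD j 0 = l.getD j 0 / δ := by
  by_cases h : j < l.length
  · simp [List.getD, h]
  · simp [List.getD, not_lt.1 h]

theorem exists_getD_of_mem {O : List (List ℤ)} {o : List ℤ} (h : o ∈ O) :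
    ∃ r < O.length, O.getD r [] = o := by
  obtain ⟨r, hr, rfl⟩ := List.getElem_of_mem h
  exact ⟨r, hr, by simp [List.getD, hr]⟩

/-- the mask `W b` -/
def vvec (W : List (List ℤ)) (n : ℕ) (b : ℕ → A) (i : ℕ) : A :=
  if i < n then ∑ j ∈ range n, ent W i j • b j else 0

/-- the part of `Fam` that does not need division -/
structure Fam0 (Γ : List A) (c : ℕ → List (List (List ℤ) × List (List ℤ)) × List (List ℤ))
    (L B : Set (List A)) : Prop where
  ex : ∀ x : List A, ∃ z ∈ (c x.length).1, ∀ q ∈ z.1, val q (Γ ++ x) ≠ 0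
  red : ∀ x : List A, ∀ z ∈ (c x.length).1, (∀ q ∈ z.1, val q (Γ ++ x) ≠ 0) →
    (x ∈ L ↔ vals z.2 (Γ ++ x) ∈ B)
  li : ∀ n, ∀ z ∈ (c n).1, n < z.2.length
  sep : ∀ x x' : List A, ∀ z ∈ (c x.length).1, ∀ z' ∈ (c x'.length).1,
    vals z.2 (Γ ++ x) = vals z'.2 (Γ ++ x') → x = x'

theorem val_three (γ : List A) (e : A) (x : List A) (l : List ℤ) :
    val l (γ ++ [e] ++ x) = ∑ j ∈ range γ.length, l.getD j 0 • γ.getD j 0 +
      l.getD γ.length 0 • e + ∑ j ∈ range x.length, l.getD (γ.length + 1 + j) 0 • x.getD j 0 := by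
  have e3 : (γ ++ [e]).length = γ.length + 1 := by simp
  rw [val_append, e3, Finset.sum_range_succ, List.getD_append_right _ _ _ _ le_rfl,
    Finset.sum_congr rfl (fun j hj => by rw [List.getD_append _ _ _ _ (mem_range.1 hj)])]
  simp

theorem val_hid (γ : List A) (e : A) {D : ℕ} (a s : ℕ) (W : List (List ℤ)) (q : List ℤ)
    {x : List A} (h : x.length < D) (b : ℕ → A) :
    val q (γ ++ yv e D a s (dvec e x) (vvec W x.length b)) =
      ∑ j ∈ range γ.length, q.getD j 0 • γ.getD j 0 +
      (q.getD (γ.length + x.length) 0 + ∑ i ∈ range D, slope γ.length D a q i * (s : ℤ) ^ (i + 1) +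
        a * q.getD (γ.length + 2 * D) 0) • e +
      ∑ j ∈ range x.length, (q.getD (γ.length + j) 0 • x.getD j 0 +
        (∑ i ∈ range x.length, slope γ.length D a q i * ent W i j) • b j) := by
  have e1 : ∑ i ∈ range D, q.getD (γ.length + i) 0 • dvec e x i =
      ∑ i ∈ range x.length, q.getD (γ.length + i) 0 • x.getD i 0 +
        q.getD (γ.length + x.length) 0 • e := by
    rw [sum_range_cut (n := x.length + 1) h _ (fun i hi => by
      rw [dvec, if_neg (by omega), if_neg (by omega), smul_zero]), Finset.sum_range_succ]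
    congr 1
    · exact Finset.sum_congr rfl fun i hi => by rw [dvec, if_pos (mem_range.1 hi)]
    · simp [dvec]
  have e2 : ∑ i ∈ range D, slope γ.length D a q i • vvec W x.length b i =
      ∑ j ∈ range x.length, (∑ i ∈ range x.length, slope γ.length D a q i * ent W i j) • b j := by
    rw [sum_range_cut (n := x.length) h.le _ (fun i hi => by
      rw [vvec, if_neg (by omega), smul_zero])]
    simp only [Finset.sum_smul]
    rw [Finset.sum_comm]
    refine Finset.sum_congr rfl fun i hi => ?_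
    rw [vvec, if_pos (mem_range.1 hi), Finset.smul_sum]
    exact Finset.sum_congr rfl fun j _ => (mul_smul _ _ _).symm
  rw [val_yv, e1, e2, Finset.sum_add_distrib]
  module

theorem sf_lt {k j : ℕ} (D a n s : ℕ) (δ : ℤ) (W : List (List ℤ)) (q : List ℤ) (h : j < k) :
    (sf k D a n s δ W q).getD j 0 = δ * q.getD j 0 := by
  rw [sf, getD_vec, if_pos (by omega), if_pos h]

theorem sf_eq (k D a n s : ℕ) (δ : ℤ) (W : List (List ℤ)) (q : List ℤ) :
    (sf k D a n s δ W q).getD k 0 = δ * (q.getD (k + n) 0 +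
      ∑ i ∈ range D, slope k D a q i * (s : ℤ) ^ (i + 1) + a * q.getD (k + 2 * D) 0) := by
  rw [sf, getD_vec, if_pos (by omega), if_neg (lt_irrefl _), if_pos rfl]

theorem sf_gt {n j : ℕ} (k D a s : ℕ) (δ : ℤ) (W : List (List ℤ)) (q : List ℤ) (h : j < n) :
    (sf k D a n s δ W q).getD (k + 1 + j) 0 =
      δ * q.getD (k + j) 0 + ∑ i ∈ range n, slope k D a q i * ent W i j := by
  rw [sf, getD_vec, if_pos (by omega), if_neg (by omega), if_neg (by omega),
    Nat.add_sub_cancel_left]

theorem val_sf (γ : List A) (e : A) {D : ℕ} (a s : ℕ) {δ : ℤ} (W : List (List ℤ))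
    (q : List ℤ) {x : List A} (h : x.length < D) {b : ℕ → A} (hb : ∀ j, δ • b j = x.getD j 0) :
    val (sf γ.length D a x.length s δ W q) (γ ++ [e] ++ x) =
      δ • val q (γ ++ yv e D a s (dvec e x) (vvec W x.length b)) := by
  rw [val_three, val_hid γ e a s W q h, smul_add, smul_add, sf_eq, mul_smul, Finset.smul_sum,
    Finset.smul_sum]
  congr 1
  · congr 1
    exact Finset.sum_congr rfl fun j hj => by rw [sf_lt _ _ _ _ _ _ _ (mem_range.1 hj), mul_smul]
  · refine Finset.sum_congr rfl fun j hj => ?_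
    rw [sf_gt _ _ _ _ _ _ _ (mem_range.1 hj), ← hb j]
    module

theorem pickA_spec (γ : List A) {e : A} (he : InfOrd e) {D : ℕ} {qs : List (List ℤ)}
    (hq : ∀ q ∈ qs, ∃ j < 2 * D + 1, q.getD (γ.length + j) 0 ≠ 0) :
    pickA (orc (γ ++ [e])) γ.length D qs < qs.length + 2 ∧
      Good γ e D qs (pickA (orc (γ ++ [e])) γ.length D qs) := by
  obtain ⟨a, ha, hg⟩ := exists_good γ he hq
  unfold pickA
  cases h : (List.range (qs.length + 2)).find? (goodB (orc (γ ++ [e])) γ.length D qs) with
  | none =>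
    exact absurd ((goodB_iff γ e D qs a).2 hg) (List.find?_eq_none.1 h a (List.mem_range.2 ha))
  | some b =>
    exact ⟨List.mem_range.1 (List.mem_of_find?_eq_some h),
      (goodB_iff γ e D qs b).1 (List.find?_some h)⟩

/-- one level of the construction -/
structure Lev (γ : List A) (e : A) (L B : Set (List A)) (D : ℕ) (qs O : List (List ℤ)) (a : ℕ) :
    Prop where
  hq : ∀ q ∈ qs, ∃ j < 2 * D + 1, q.getD (γ.length + j) 0 ≠ 0
  hgen : ∀ y : List A, y.length = 2 * D + 1 → (∀ q ∈ qs, val q (γ ++ y) ≠ 0) →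
    (y ∈ SL e L ↔ vals O (γ ++ y) ∈ B)
  hbig : 2 * qs.length + 1 < 2 ^ (2 * D + 1)
  ha : a < 2 ^ (2 * D + 1)
  good : Good γ e D qs a

theorem Lev.injCols {γ : List A} {e : A} (he : InfOrd e) {L B : Set (List A)} {D a : ℕ}
    {qs O : List (List ℤ)} (h : Lev γ e L B D qs O a) {n : ℕ} (hn : n ≤ D) :
    InjCols (Jm γ.length D a n O) n := by
  intro μ hμ i hi
  have key := inj γ he h.hq h.hgen h.hbig
    (fun i => (a : ℤ) • (if i < n then μ i • e else 0)) (fun i => if i < n then μ i • e else 0)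
    (fun o ho => by
      obtain ⟨r, hr, rfl⟩ := exists_getD_of_mem ho
      have h1 := hμ r (by simpa [Jm] using hr)
      rw [← Finset.sum_add_distrib, sum_range_cut hn _ (fun i hi => by
        rw [if_neg (by omega)]; simp)]
      have h2 : (∑ i ∈ range n, ent (Jm γ.length D a n O) r i * μ i) • e = 0 := by
        rw [h1, zero_smul]
      rw [← h2, Finset.sum_smul]
      refine Finset.sum_congr rfl fun i hi => ?_
      have hi := mem_range.1 hi
      rw [if_pos hi, Jm, ent_mat_of_lt _ hr hi, slope]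
      module) i (by omega)
  have h2 := key.2
  rw [if_pos hi] at h2
  exact he _ _ (h2.trans (zero_smul ℤ e).symm)

theorem Lev.sep {γ : List A} {e : A} (he : InfOrd e) {L B : Set (List A)} {D a : ℕ}
    {qs O : List (List ℤ)} (h : Lev γ e L B D qs O a) {s s' : ℕ} {d v d' v' : ℕ → A}
    (hv : vals O (γ ++ yv e D a s d v) = vals O (γ ++ yv e D a s' d' v')) :
    ∀ i < D, d i = d' i := by
  intro i hi
  have key := inj γ he h.hq h.hgen h.hbig
    (fun i => d i - d' i + (a : ℤ) • (v i + ((s : ℤ) ^ (i + 1)) • e -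
      (v' i + ((s' : ℤ) ^ (i + 1)) • e)))
    (fun i => v i + ((s : ℤ) ^ (i + 1)) • e - (v' i + ((s' : ℤ) ^ (i + 1)) • e))
    (fun o ho => by
      have h1 : val o (γ ++ yv e D a s d v) = val o (γ ++ yv e D a s' d' v') :=
        List.map_inj_left.1 hv o ho
      rw [val_yv, val_yv, add_smul, add_smul, Finset.sum_smul, Finset.sum_smul] at h1
      rw [← Finset.sum_add_distrib]
      have h2 : ∑ i ∈ range D, (o.getD (γ.length + i) 0 • (d i - d' i + (a : ℤ) •
          (v i + ((s : ℤ) ^ (i + 1)) • e - (v' i + ((s' : ℤ) ^ (i + 1)) • e))) +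
          o.getD (γ.length + D + i) 0 •
            (v i + ((s : ℤ) ^ (i + 1)) • e - (v' i + ((s' : ℤ) ^ (i + 1)) • e))) =
          (∑ i ∈ range D, o.getD (γ.length + i) 0 • d i +
            ∑ i ∈ range D, slope γ.length D a o i • v i +
            ∑ i ∈ range D, (slope γ.length D a o i * (s : ℤ) ^ (i + 1)) • e) -
          (∑ i ∈ range D, o.getD (γ.length + i) 0 • d' i +
            ∑ i ∈ range D, slope γ.length D a o i • v' i +
            ∑ i ∈ range D, (slope γ.length D a o i * (s' : ℤ) ^ (i + 1)) • e) := by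
        simp only [← Finset.sum_add_distrib, ← Finset.sum_sub_distrib]
        refine Finset.sum_congr rfl fun i _ => ?_
        rw [slope]
        module
      rw [h2]
      rw [← sub_eq_zero] at h1
      rw [← h1]
      abel) i hi
  obtain ⟨h1, h2⟩ := key
  rw [h2, smul_zero, add_zero] at h1
  exact sub_eq_zero.1 h1

/-- the output forms of a candidate compute the generic output -/
theorem vals_cand (γ : List A) (e : A) {D : ℕ} (a s : ℕ) {δ : ℤ} (hδ : δ ≠ 0)
    (W O : List (List ℤ)) {x : List A} (h : x.length < D) {b : ℕ → A}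
    (hb : ∀ j, δ • b j = x.getD j 0) (M : ℕ → ℕ → ℤ)
    (hM : ∀ r < O.length, ∀ j < x.length, δ * ent (Pm γ.length x.length O) r j +
      ∑ i ∈ range x.length, ent (Jm γ.length D a x.length O) r i * ent W i j = δ * M r j) :
    vals (O.map (fun o => (sf γ.length D a x.length s δ W o).map (fun c => c / δ)))
      (γ ++ [e] ++ x) = vals O (γ ++ yv e D a s (dvec e x) (vvec W x.length b)) := by
  unfold vals
  rw [List.map_map]
  refine List.map_congr_left fun o ho => ?_
  obtain ⟨r, hr, rfl⟩ := exists_getD_of_mem ho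
  rw [Function.comp_apply, val_three, val_hid γ e a s W _ h, getD_map_div, sf_eq,
    Int.mul_ediv_cancel_left _ hδ]
  congr 1
  · congr 1
    exact Finset.sum_congr rfl fun j hj => by
      rw [getD_map_div, sf_lt _ _ _ _ _ _ _ (mem_range.1 hj), Int.mul_ediv_cancel_left _ hδ]
  · refine Finset.sum_congr rfl fun j hj => ?_
    have hj := mem_range.1 hj
    have := hM r hr _ hj
    rw [Pm, ent_mat_of_lt _ hr hj, Finset.sum_congr rfl (fun i hi => by
      rw [Jm, ent_mat_of_lt _ hr (mem_range.1 hi)]), ent] at this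
    rw [getD_map_div, sf_gt _ _ _ _ _ _ _ hj, this, Int.mul_ediv_cancel_left _ hδ,
      eq_sub_of_add_eq' this, ← hb j]
    module

theorem ent_cand (k : ℕ) {D : ℕ} (a s n : ℕ) {δ : ℤ} (hδ : δ ≠ 0)
    (W O : List (List ℤ)) (M : ℕ → ℕ → ℤ)
    (hM : ∀ r < O.length, ∀ j < n, δ * ent (Pm k n O) r j +
      ∑ i ∈ range n, ent (Jm k D a n O) r i * ent W i j = δ * M r j) {r j : ℕ}
    (hr : r < O.length) (hj : j < n) :
    ent (O.map (fun o => (sf k D a n s δ W o).map (fun c => c / δ))) r (k + 1 + j) = M r j := by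
  have e1 : (O.map (fun o => (sf k D a n s δ W o).map (fun c => c / δ))).getD r [] =
      (sf k D a n s δ W (O.getD r [])).map (fun c => c / δ) := by simp [List.getD, hr]
  have := hM r hr j hj
  rw [Pm, ent_mat_of_lt _ hr hj, Finset.sum_congr rfl (fun i hi => by
    rw [Jm, ent_mat_of_lt _ hr (mem_range.1 hi)])] at this
  rw [ent, e1, getD_map_div, sf, getD_vec, if_pos (by omega), if_neg (by omega),
    if_neg (by omega), Nat.add_sub_cancel_left]
  exact Int.ediv_eq_of_eq_mul_right hδ this

theorem family_gen {e : A} (he : InfOrd e) {L B : Set (List A)} {f : List A → List A}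
    (hf : AddPT f) (hred : ∀ y, y ∈ SL e L ↔ f y ∈ B)
    {F : (List (List ℤ) × List (List ℤ)) × List Bool → ℤ × List (List ℤ) × List (List ℤ)}
    (hF : PT F) (T : Prop)
    (hsat : ∀ J P u, InjCols J u.length → (F ((J, P), u)).1 ≠ 0 ∧ ∃ M : ℕ → ℕ → ℤ,
      (∀ r < J.length, ∀ j < u.length, (F ((J, P), u)).1 * ent P r j +
        ∑ i ∈ range u.length, ent J r i * ent (F ((J, P), u)).2.1 i j = (F ((J, P), u)).1 * M r j) ∧
      (T → ∀ i < u.length, ∀ j < u.length,
        ∑ r ∈ range J.length, ent (F ((J, P), u)).2.2 i r * M r j = if i = j then 1 else 0))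
    (hmask : ∀ w (x : A), (F w).1 ≠ 0 → ∃ b, (F w).1 • b = x) :
    ∃ (Γ : List A) (Ψ : Orc → List Bool → List (List (List ℤ) × List (List ℤ)) × List (List ℤ)),
      UO Ψ ∧ Fam0 Γ (fun n => Ψ (orc Γ) (un n)) L B ∧
        (T → ∀ n, ∀ z ∈ (Ψ (orc Γ) (un n)).1, ∀ i < n, ∀ j < n, ∑ r ∈ range z.2.length,
          ent (Ψ (orc Γ) (un n)).2 i r * ent z.2 r (Γ.length + j) = if i = j then 1 else 0) := by
  obtain ⟨γ, Φ, hΦ, hpath⟩ := path hf he.ne
  obtain ⟨σ, hσ⟩ := hΦ.pb
  obtain ⟨Dn, hD, hD1, hD2, hD3⟩ := level (2 * σ.comp (3 * Polynomial.X))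
  refine ⟨γ ++ [e], adv Φ Dn F γ.length, adv_uo hΦ hD hF _, ?_⟩
  -- the objects of level `D`
  let qs : ℕ → List (List ℤ) := fun D => (Φ (orc (γ ++ [e])) (un (2 * D + 1))).1
  let O : ℕ → List (List ℤ) := fun D => (Φ (orc (γ ++ [e])) (un (2 * D + 1))).2
  let a : ℕ → ℕ := fun D => pickA (orc (γ ++ [e])) γ.length D (qs D)
  let S : ℕ → ℤ × List (List ℤ) × List (List ℤ) := fun n =>
    F ((Jm γ.length (Dn n) (a (Dn n)) n (O (Dn n)), Pm γ.length n (O (Dn n))), un n)
  have hadv : ∀ n, adv Φ Dn F γ.length (orc (γ ++ [e])) (un n) =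
      (cands γ.length (Dn n) (a (Dn n)) n (S n).1 (S n).2.1 (qs (Dn n)) (O (Dn n)), (S n).2.2) := by
    intro n
    simp only [adv, length_un, S, a, qs, O]
  have hlen : ∀ D, 2 * (qs D).length ≤ (2 * σ.comp (3 * Polynomial.X)).eval (2 * D + 1) ∧
      (O D).length ≤ (2 * σ.comp (3 * Polynomial.X)).eval (2 * D + 1) := by
    intro D
    have h1 := hσ (orc (γ ++ [e])) (un (2 * D + 1))
    rw [size_listBool, length_un, size_prod] at h1
    have h2 := length_le_size (qs D)
    have h3 := length_le_size (O D)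
    simp only [Polynomial.eval_comp, Polynomial.eval_mul, Polynomial.eval_X,
      Polynomial.eval_ofNat]
    simp only [qs, O] at h2 h3 ⊢
    omega
  have lev : ∀ n, Lev γ e L B (Dn n) (qs (Dn n)) (O (Dn n)) (a (Dn n)) := by
    intro n
    have h1 := hpath (2 * Dn n + 1)
    have h2 := pickA_spec γ he h1.1
    have h3 := (hlen (Dn n)).1
    have h4 := hD2 n
    have h5 : 2 ≤ 2 ^ (2 * Dn n + 1) := Nat.le_self_pow (by omega) 2
    have h6 : a (Dn n) < (qs (Dn n)).length + 2 := h2.1
    refine ⟨h1.1, fun y hy hg => ?_, by omega, by omega, h2.2⟩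
    rw [hred, h1.2 y hy hg]
  have hS : ∀ n, (S n).1 ≠ 0 ∧ ∃ M : ℕ → ℕ → ℤ,
      (∀ r < (O (Dn n)).length, ∀ j < n, (S n).1 * ent (Pm γ.length n (O (Dn n))) r j +
        ∑ i ∈ range n, ent (Jm γ.length (Dn n) (a (Dn n)) n (O (Dn n))) r i * ent (S n).2.1 i j =
          (S n).1 * M r j) ∧
      (T → ∀ i < n, ∀ j < n, ∑ r ∈ range (O (Dn n)).length, ent (S n).2.2 i r * M r j =
        if i = j then 1 else 0) := by
    intro n
    have := hsat (Jm γ.length (Dn n) (a (Dn n)) n (O (Dn n))) (Pm γ.length n (O (Dn n))) (un n)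
      (by rw [length_un]; exact (lev n).injCols he (hD1 n).le)
    have hJ : (Jm γ.length (Dn n) (a (Dn n)) n (O (Dn n))).length = (O (Dn n)).length := by
      simp [Jm]
    rw [length_un, hJ] at this
    exact this
  have hDO : ∀ n, Dn n ≤ (O (Dn n)).length := fun n => by
    simpa [Jm] using ((lev n).injCols he le_rfl).le_length
  have hmem : ∀ n z, z ∈ (adv Φ Dn F γ.length (orc (γ ++ [e])) (un n)).1 ↔
      ∃ s < (qs (Dn n)).length * Dn n + 1,
        (((qs (Dn n)).filter (fun q => decide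
            (∃ i < Dn n, slope γ.length (Dn n) (a (Dn n)) q i ≠ 0))).map
          (sf γ.length (Dn n) (a (Dn n)) n s (S n).1 (S n).2.1),
          (O (Dn n)).map (fun o => (sf γ.length (Dn n) (a (Dn n)) n s (S n).1 (S n).2.1 o).map
            (fun c => c / (S n).1))) = z := by
    intro n z
    rw [hadv]
    simp only [cands, List.mem_map, List.mem_range]
  have hm : ∀ x : List A, ∃ b : ℕ → A, ∀ j, (S x.length).1 • b j = x.getD j 0 := fun x => by
    choose b hb using fun j => hmask _ (x.getD j 0) (hS x.length).1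
    exact ⟨b, hb⟩
  refine ⟨⟨fun x => ?_, fun x z hz hg => ?_, fun n z hz => ?_, fun x x' z hz z' hz' hv => ?_⟩,
    fun hT n z hz i hi j hj => ?_⟩
  · obtain ⟨v, hv⟩ := hm x
    obtain ⟨s, hs, hg⟩ := exists_generic γ he (a (Dn x.length))
      ((qs (Dn x.length)).filter (fun q => decide
        (∃ i < Dn x.length, slope γ.length (Dn x.length) (a (Dn x.length)) q i ≠ 0)))
      (fun q => q) (fun _ => dvec e x) (fun _ => vvec (S x.length).2.1 x.length v) (hS _).1
      (fun q hq => of_decide_eq_true (List.mem_filter.1 hq).2)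
    refine ⟨_, (hmem _ _).2 ⟨s, hs.trans_le (Nat.succ_le_succ
      (Nat.mul_le_mul_right _ (List.length_filter_le _ _))), rfl⟩, fun q hq => ?_⟩
    obtain ⟨q', hq', rfl⟩ := List.mem_map.1 hq
    rw [val_sf γ e _ s _ _ (hD1 _) hv]
    exact hg q' hq'
  · obtain ⟨v, hv⟩ := hm x
    obtain ⟨s, -, rfl⟩ := (hmem _ _).1 hz
    obtain ⟨hδ, M, hM, -⟩ := hS x.length
    have hl := lev x.length
    rw [vals_cand γ e _ s hδ _ _ (hD1 _) hv M hM,
      ← hl.hgen _ (length_yv ..) (hl.good.generic fun q hq h1 h => ?_),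
      yv_mem_SL he L hl.ha, yes_dvec he.ne L (hD1 _)]
    refine hg _ (List.mem_map_of_mem (List.mem_filter.2 ⟨hq, decide_eq_true h1⟩)) ?_
    rw [val_sf γ e _ s _ _ (hD1 _) hv, h, smul_zero]
  · obtain ⟨s, -, rfl⟩ := (hmem _ _).1 hz
    have := hD1 n
    have := hDO n
    simp only [List.length_map]
    omega
  · obtain ⟨v, hv1⟩ := hm x
    obtain ⟨v', hv2⟩ := hm x'
    obtain ⟨s, -, rfl⟩ := (hmem _ _).1 hz
    obtain ⟨s', -, rfl⟩ := (hmem _ _).1 hz'
    obtain ⟨hδ, M, hM, -⟩ := hS x.length
    obtain ⟨hδ', M', hM', -⟩ := hS x'.length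
    rw [vals_cand γ e _ s hδ _ _ (hD1 _) hv1 M hM,
      vals_cand γ e _ s' hδ' _ _ (hD1 _) hv2 M' hM'] at hv
    have hl : (O (Dn x.length)).length = (O (Dn x'.length)).length := by
      simpa using congrArg List.length hv
    have hDD : Dn x.length = Dn x'.length := by
      have h1 := hD3 x.length x'.length
      have h2 := hD3 x'.length x.length
      have h3 := hDO x.length
      have h4 := hDO x'.length
      have h5 := (hlen (Dn x.length)).2
      have h6 := (hlen (Dn x'.length)).2
      omega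
    rw [← hDD] at hv
    exact dvec_inj he.ne (hD1 _) (hDD ▸ hD1 _) ((lev x.length).sep he hv)
  · obtain ⟨s, -, rfl⟩ := (hmem _ _).1 hz
    obtain ⟨hδ, M, hM, hG⟩ := hS n
    rw [← hG hT i hi j hj, hadv]
    simp only [List.length_map, List.length_append, List.length_singleton]
    exact Finset.sum_congr rfl fun r hr => by
      rw [ent_cand _ _ s n hδ _ _ M hM (mem_range.1 hr) hj]

/-- without division -/
theorem family0 {e : A} (he : InfOrd e) {L B : Set (List A)} {f : List A → List A} (hf : AddPT f)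
    (hred : ∀ y, y ∈ SL e L ↔ f y ∈ B) :
    ∃ (Γ : List A) (Ψ : Orc → List Bool → List (List (List ℤ) × List (List ℤ)) × List (List ℤ)),
      UO Ψ ∧ Fam0 Γ (fun n => Ψ (orc Γ) (un n)) L B := by
  obtain ⟨Γ, Ψ, h1, h2, -⟩ := family_gen he hf hred (F := fun _ => (1, [], [])) (PT.const _) False
    (fun J P u _ => ⟨one_ne_zero, ent P, fun r _ j _ => by simp [ent], False.elim⟩)
    (fun _ x _ => ⟨x, one_smul _ _⟩)
  exact ⟨Γ, Ψ, h1, h2⟩

/-- with division -/
theorem family (hdiv : ∀ n : ℕ, n ≠ 0 → ∀ a : A, ∃ b, n • b = a) {e : A} (he : InfOrd e)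
    {L B : Set (List A)} {f : List A → List A} (hf : AddPT f)
    (hred : ∀ y, y ∈ SL e L ↔ f y ∈ B) :
    ∃ (Γ : List A) (Ψ : Orc → List Bool → List (List (List ℤ) × List (List ℤ)) × List (List ℤ)),
      UO Ψ ∧ Fam Γ (fun n => Ψ (orc Γ) (un n)) L B := by
  have hz : ∀ δ : ℤ, δ ≠ 0 → ∀ a : A, ∃ b, δ • b = a := by
    intro δ hδ a
    obtain ⟨b, hb⟩ := hdiv δ.natAbs (Int.natAbs_ne_zero.2 hδ) a
    refine ⟨δ.sign • b, ?_⟩
    rw [← mul_smul, Int.mul_sign_self, natCast_zsmul, hb]
  obtain ⟨F, hF, hsat⟩ := sat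
  obtain ⟨Γ, Ψ, h1, h2, h3⟩ := family_gen he hf hred hF True
    (fun J P u h => by
      obtain ⟨e1, M, e2, e3⟩ := hsat J P u h
      exact ⟨e1, M, e2, fun _ => e3⟩)
    (fun w x h => hz _ h x)
  exact ⟨Γ, Ψ, h1, h2.ex, h2.red, h2.li, h3 trivial, h2.sep⟩

end Pool.Agent.MP_8a92de_lc.H43

namespace Pool.Agent.MP_8a92de_lc.H43

open Pool.Agent.Lib.Cx Finset

variable {A : Type} [AddCommGroup A]

theorem AddPT.cons0 : AddPT (fun x : List A => 0 :: x) := by
  refine addPT_iff.2 ⟨[], fun _ u => [] :: units 0 u.length, UO.of_pt (by fun_prop), fun x => ?_⟩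
  have := vals_units ([] : List A) x []
  simp only [List.length_nil, List.append_nil, List.nil_append] at this
  simp only [List.nil_append, length_un]
  change _ = val [] x :: vals (units 0 x.length) x
  rw [this]
  rfl

theorem one_li {e : A} (he : InfOrd e) {C : Set (Set (List A))} (hC : ∀ L L', NPRed L L' → L' ∈ C → L ∈ C)
    {B : Set (List A)} (hB : B ∈ C) (cB : Hard C B) {L : Set (List A)} (hL : L ∈ C) :
    ∃ f : List A → List A, AddPT f ∧ Function.Injective f ∧ (∀ x, x.length < (f x).length) ∧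
      ∀ x, x ∈ L ↔ f x ∈ B := by
  obtain ⟨r, hr, hrL⟩ := cB L hL
  by_cases h1 : ∃ x, x ∈ B
  · by_cases h2 : ∃ x, x ∉ B
    · obtain ⟨xy, hy⟩ := h1
      obtain ⟨xn, hn⟩ := h2
      obtain ⟨f0, hf0, hred⟩ := cB _ (hC _ _ (sl_npred he.ne hr hrL hy hn) hB)
      obtain ⟨Γ, Ψ, hΨ, hF⟩ := family0 he hf0 hred
      obtain ⟨f, hf, h1⟩ := encoder hΨ hF.ex
      refine ⟨f, hf, fun x x' h => ?_, fun x => ?_, fun x => ?_⟩ <;>
        obtain ⟨z, hz, h3, h4⟩ := h1 x
      · obtain ⟨z', hz', -, h5⟩ := h1 x'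
        exact hF.sep x x' z hz z' hz' (h4.symm.trans (h.trans h5))
      · rw [h4, length_vals]; exact hF.li _ z hz
      · rw [h4]; exact hF.red x z hz h3
    · push Not at h2
      exact ⟨_, AddPT.cons0, List.cons_injective, fun x => Nat.lt_succ_self _,
        fun x => ⟨fun _ => h2 _, fun _ => (hrL x).2 (h2 _)⟩⟩
  · push Not at h1
    exact ⟨_, AddPT.cons0, List.cons_injective, fun x => Nat.lt_succ_self _,
      fun x => ⟨fun h => absurd ((hrL x).1 h) (h1 _), fun h => absurd h (h1 _)⟩⟩

theorem pad {e : A} (he : InfOrd e)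
    (hdiv : ∀ n : ℕ, n ≠ 0 → ∀ a : A, ∃ b, n • b = a) {C : Set (Set (List A))}
    (hC : ∀ L L', NPRed L L' → L' ∈ C → L ∈ C)
    {B : Set (List A)} (hB : B ∈ C) (cB : Hard C B) {xy xn : List A} (hy : xy ∈ B) (hn : xn ∉ B)
    {L : Set (List A)} (hL : L ∈ C) :
    ∃ f g : List A → List A, AddPT f ∧ AddPT g ∧ (∀ x, x.length < (f x).length) ∧
      (∀ x, g (f x) = x) ∧ ∀ x, x ∈ L ↔ f x ∈ B := by
  obtain ⟨r, hr, hrL⟩ := cB L hL
  obtain ⟨f0, hf0, hred⟩ := cB _ (hC _ _ (sl_npred he.ne hr hrL hy hn) hB)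
  obtain ⟨Γ, Ψ, hΨ, hF⟩ := family hdiv he hf0 hred
  obtain ⟨f, hf, h1⟩ := encoder hΨ hF.ex
  obtain ⟨g, hg, h2⟩ := decoder hΨ hF
  refine ⟨f, g, hf, hg, fun x => ?_, fun x => ?_, fun x => ?_⟩ <;> obtain ⟨z, hz, h3, h4⟩ := h1 x
  · rw [h4, length_vals]; exact hF.li _ z hz
  · rw [h4]; exact h2 x z hz
  · rw [h4]; exact hF.red x z hz h3

theorem iso {e : A} (he : InfOrd e)
    (hdiv : ∀ n : ℕ, n ≠ 0 → ∀ a : A, ∃ b, n • b = a) {C : Set (Set (List A))}
    (hC : ∀ L L', NPRed L L' → L' ∈ C → L ∈ C)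
    {B B' : Set (List A)} (hB : B ∈ C) (hB' : B' ∈ C) (cB : Hard C B) (cB' : Hard C B') :
    ∃ φ : List A ≃ List A, AddPT φ ∧ AddPT φ.symm ∧ ∀ x, x ∈ B ↔ φ x ∈ B' := by
  obtain ⟨r, -, hr⟩ := cB' B hB
  obtain ⟨r', -, hr'⟩ := cB B' hB'
  by_cases h1 : ∃ x, x ∈ B
  · by_cases h2 : ∃ x, x ∉ B
    · obtain ⟨xy, hy⟩ := h1
      obtain ⟨xn, hn⟩ := h2
      obtain ⟨f, f', hf, hf', lf, inf, rf⟩ :=
        pad he hdiv hC hB' cB' ((hr xy).1 hy) (fun h => hn ((hr xn).2 h)) hB
      obtain ⟨g, g', hg, hg', lg, ing, rg⟩ := pad he hdiv hC hB cB hy hn hB'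
      exact cantor_bernstein hf hg hf' hg' lf lg inf ing rf rg
    · push Not at h2
      exact ⟨Equiv.refl _, AddPT.id', AddPT.id',
        fun x => ⟨fun _ => (hr' x).2 (h2 _), fun _ => h2 _⟩⟩
  · push Not at h1
    exact ⟨Equiv.refl _, AddPT.id', AddPT.id',
      fun x => ⟨fun h => absurd h (h1 _), fun h => absurd ((hr' x).1 h) (h1 _)⟩⟩

end Pool.Agent.MP_8a92de_lc.H43

namespace Pool.Agent.MP_8a92de_lc.H43

theorem infOrd_of {A : Type} [AddCommGroup A] {e : A} (h : ∀ n : ℕ, n ≠ 0 → n • e ≠ 0) :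
    InfOrd e := by
  intro m n hmn
  by_contra hne
  refine h (m - n).natAbs (Int.natAbs_ne_zero.2 (sub_ne_zero.2 hne)) ?_
  have h1 : (m - n) • e = 0 := by rw [sub_smul, hmn, sub_self]
  rw [← natCast_zsmul, ← Int.sign_mul_self, mul_smul, h1, smul_zero]

/-- the theorem for every class closed under digital guesses -/
theorem general {A : Type} [AddCommGroup A] {e : A} (he : InfOrd e)
    {C : Set (Set (List A))} (hC : ∀ L L', NPRed L L' → L' ∈ C → L ∈ C)
    {B B' : Set (List A)} (hB : B ∈ C) (hB' : B' ∈ C) (cB : Hard C B) (cB' : Hard C B') :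
    ∃ f : List A → List A, AddPT f ∧ Function.Injective f ∧ (∀ x, x ∈ B ↔ f x ∈ B') ∧
      ((∀ n : ℕ, n ≠ 0 → ∀ a : A, ∃ b, n • b = a) →
        ∃ g : List A → List A, AddPT g ∧ (∀ x, g (f x) = x) ∧ ∀ y, f (g y) = y) := by
  by_cases hdiv : ∀ n : ℕ, n ≠ 0 → ∀ a : A, ∃ b, n • b = a
  · obtain ⟨φ, h1, h2, h3⟩ := iso he hdiv hC hB hB' cB cB'
    exact ⟨φ, h1, φ.injective, h3, fun _ => ⟨φ.symm, h2, φ.symm_apply_apply, φ.apply_symm_apply⟩⟩
  · obtain ⟨f, h1, h2, -, h3⟩ := one_li he hC hB' cB' hB
    exact ⟨f, h1, h2, h3, fun h => absurd h hdiv⟩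

end Pool.Agent.MP_8a92de_lc.H43
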